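import Pool.Agent.Lib.MP_4960b8_pr.PT.Perm
import Pool.Agent.Lib.MP_4960b8_pr.QK.AlgD

/-! The loop functional in terms of the empty component (plan A6). -/

namespace Pool.Agent.Lib.MP_4960b8_pr.PT

open QK

noncomputable def Wq : List P → ℂ
  | [] => 0
  | m :: l => m.1 * m.2 * fc l + dd m aux * Wq l

noncomputable def dA (Ψ : List P → Vec) (l : List P) : ℂ :=
  deriv (fun t : ℂ => Ψ ((t + 1, ζ ^ 3) :: l) zer) 0

lemma fc_cons (a : P) (l : List P) : fc (a :: l) = dd a aux * fc l := by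
  simp only [fc, List.map_cons, List.prod_cons]

lemma fc_pol : Pol fc := fun _ hL =>
  PolyF.listProd (fun _ m => dd m aux) fun g hg => PolyF.dd (hL g hg) (PolyP.const _)

lemma Wq_pol : Pol Wq := by
  intro L hL
  induction L with
  | nil => exact PolyF.const 0
  | cons g L ih =>
    have h1 := hL g List.mem_cons_self
    have h2 : ∀ u ∈ L, PolyP u := fun u hu => hL u (List.mem_cons_of_mem _ hu)
    exact ((h1.1.mul h1.2).mul (fc_pol L h2)).add ((PolyF.dd h1 (PolyP.const _)).mul (ih h2))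

lemma Wq_perm {l l' : List P} (h : l.Perm l') : Wq l = Wq l' := by
  induction h with
  | nil => rfl
  | cons a h ih => simp only [Wq, ih, alga_fc_perm h]
  | swap a b l =>
    simp only [Wq, fc_cons]
    ring
  | trans _ _ ih ih' => exact ih.trans ih'

/-- a change of the first parameter -/
noncomputable def shf (F : List P → ℂ) : List P → ℂ
  | [] => 0
  | a :: l => F ((a.1 + a.2, ζ ^ 3 * a.2) :: l)

lemma shf_pol {F : List P → ℂ} (h : Pol F) : Pol (shf F) := by
  intro L hL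
  rcases L with _ | ⟨g, L⟩
  · exact PolyF.const 0
  have h1 := hL g List.mem_cons_self
  refine h ((fun x => ((g x).1 + (g x).2, ζ ^ 3 * (g x).2)) :: L) fun u hu => ?_
  rcases List.mem_cons.1 hu with rfl | hu
  exacts [⟨h1.1.add h1.2, (PolyF.const _).mul h1.2⟩, hL u (List.mem_cons_of_mem _ hu)]

variable {n : ℕ} {Ψ : List P → Vec}

lemma dA_pol (h : Good n Ψ) : Pol (dA Ψ) := by
  have := (shf_pol (h.pol zer)).d1
  simp only [shf, mul_one] at this
  exact this

lemma dA_der (h : Good n Ψ) (l : List P) :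
    HasDerivAt (fun t : ℂ => Ψ ((t + 1, ζ ^ 3) :: l) zer) (dA Ψ l) 0 := by
  obtain ⟨q, hq⟩ := (algc_head (h.pol zer) (PolyP.var 0) l).curve
    fun _ => (Polynomial.X + 1, Polynomial.C (ζ ^ 3))
  have e : (fun t : ℂ => Ψ ((t + 1, ζ ^ 3) :: l) zer) = fun t => q.eval t := by
    funext t
    have := hq t
    simp only [Polynomial.eval_add, Polynomial.eval_X, Polynomial.eval_one,
      Polynomial.eval_C] at this
    exact this
  refine DifferentiableAt.hasDerivAt ?_
  rw [e]
  exact q.differentiableAt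

lemma D_aux' (h : Good n Ψ) {l : List P} (hl : l.length < n) :
    Ψ ((0 + 1, ζ ^ 3) :: l) zer = fc l * Ψ l zer := by
  rw [zero_add, ← h.D_aux l hl, h.D_bar aux l hl]
  rfl

lemma dA_mul (h : Good n Ψ) {l l' : List P} (hl : l.length < n) {μ g' : ℂ} {g : ℂ → ℂ}
    (hg : HasDerivAt g g' 0)
    (e : ∀ t : ℂ, Ψ ((t + 1, ζ ^ 3) :: l') zer = μ * (g t * Ψ ((t + 1, ζ ^ 3) :: l) zer)) :
    dA Ψ l' = μ * (g' * (fc l * Ψ l zer) + g 0 * dA Ψ l) := by
  have h1 := (hg.mul (dA_der h l)).const_mul μ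
  rw [dA, funext e, ← D_aux' h hl]
  exact h1.deriv

lemma dd_der1 (k : P) : HasDerivAt (fun t : ℂ => dd k (t + 1, ζ ^ 3))
    (-k.2 * (ζ ^ 9 * k.1 - k.2) - (ζ ^ 7 * k.1 - k.2) * k.2) 0 := by
  have h := ((hasDerivAt_id (0 : ℂ)).add_const 1).const_mul k.2
  refine ((h.const_sub (ζ ^ 4 * (k.1 * ζ ^ 3))).mul
    (h.const_sub (ζ ^ 6 * (k.1 * ζ ^ 3)))).congr_deriv ?_
  simp only [id]
  ring

lemma dd_der2 (k : P) : HasDerivAt (fun t : ℂ => dd (t + 1, ζ ^ 3) k)
    (ζ ^ 4 * k.2 * (ζ ^ 6 * k.2 - ζ ^ 3 * k.1) + (ζ ^ 4 * k.2 - ζ ^ 3 * k.1) * (ζ ^ 6 * k.2)) 0 := by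
  have h := ((hasDerivAt_id (0 : ℂ)).add_const 1).mul_const k.2
  refine (((h.const_mul (ζ ^ 4)).sub_const (ζ ^ 3 * k.1)).mul
    ((h.const_mul (ζ ^ 6)).sub_const (ζ ^ 3 * k.1))).congr_deriv ?_
  simp only [id]
  ring

/-- the difference of the two sides -/
noncomputable def EE (Ψ : List P → Vec) (l : List P) : ℂ := ζ ^ 14 * LP l (Ψ l) -
  (ζ ^ 4 * (dA Ψ l - l.length * fc l * Ψ l zer) - c18 * Wq l * Ψ l zer)

lemma EE_pol (h : Good n Ψ) : Pol (EE Ψ) := by
  intro L hL
  simp only [EE, List.length_map]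
  exact ((PolyF.const _).mul (polyF_LP hL (h.pol.polyV hL))).sub (((PolyF.const _).mul
    ((dA_pol h L hL).sub (((PolyF.const _).mul (fc_pol L hL)).mul (h.pol zer L hL)))).sub
      (((PolyF.const _).mul (Wq_pol L hL)).mul (h.pol zer L hL)))

lemma EE_perm (h : Good n Ψ) {l l' : List P} (hl : l.length < n) (hp : l.Perm l') :
    EE Ψ l = EE Ψ l' := by
  have e : ∀ x, Ψ (x :: l) zer = Ψ (x :: l') zer := fun x => h.D_perm hl (hp.cons x)
  simp only [EE, dA, e, hp.length_eq, LP_perm h hl.le hp, Wq_perm hp, alga_fc_perm hp,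
    h.D_perm hl.le hp]

lemma EE_bar (h : Good n Ψ) (a : P) {l : List P} (hl : l.length + 1 < n) :
    EE Ψ (bar a :: l) = EE Ψ (a :: l) := by
  simp only [EE, dA, algc_Dbar h _ a hl, LP_bar h a l (by omega), List.length_cons, Wq, fc_cons,
    dd_bar_aux, h.D_bar a l (by omega)]
  simp only [bar]
  ring

lemma EE_hom (h : Good n Ψ) (c : ℂ) (a : P) {l : List P} (hl : l.length + 1 < n) :
    EE Ψ (c • a :: l) = c ^ (2 * l.length + 2) * EE Ψ (a :: l) := by
  have e : ∀ x, Ψ (x :: c • a :: l) zer = c ^ (2 * (l.length + 1)) * Ψ (x :: a :: l) zer :=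
    fun x => by rw [algc_D2 h x _ hl, h.D_hom a c (x :: l) hl, algc_D2 h a _ hl, List.length_cons]
  have e1 : dA Ψ (c • a :: l) = c ^ (2 * (l.length + 1)) * dA Ψ (a :: l) := by
    simp only [dA, e, deriv_const_mul_field]
  have e2 := h.hom [] a l c hl.le
  simp only [List.nil_append, List.length_nil, Nat.zero_add] at e2
  have e3 : jn (c • a) aux = c ^ 2 * jn a aux := by
    simp only [jn, Prod.smul_fst, Prod.smul_snd, smul_eq_mul]
    ring
  simp only [EE, e1, e2, map_smul, LP_cons, e3, dd_smul_left, List.length_cons, Wq, fc_cons,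
    Prod.smul_fst, Prod.smul_snd, smul_eq_mul, Pi.smul_apply]
  ring

lemma LP_ins (k : P) (l : List P) (v : Vec) : LP (sh k :: k :: l) (ins k v) =
    jn (sh k) aux * (ul k aux * (ζ ^ 2 * k.1 * col l v zer)) +
      dd (sh k) aux * (dd k aux * (k.2 * LP l v)) := by
  have e1 : prj .m (prj .p (ins k v)) = (ζ ^ 2 * k.1) • v := rfl
  have e2 : prj .o (prj .p (ins k v)) = (0 : ℂ) • v := rfl
  have e3 : prj .p (prj .o (ins k v)) = (0 : ℂ) • v := rfl
  have e4 : prj .o (prj .o (ins k v)) = k.2 • v := rfl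
  have e5 : colB .m (k :: l) (prj .p (ins k v)) zer =
      ul k aux * down aux l (prj .m (prj .p (ins k v))) (cons .o zer) +
        vv k aux * down aux l (prj .o (prj .p (ins k v))) (cons .m zer) := rfl
  have e6 : col l v zer = down aux l v (cons .o zer) := rfl
  rw [LP_cons, LP_cons, e5, e1, e2, e3, e4, e6]
  simp only [map_smul, Pi.smul_apply, smul_eq_mul]
  ring

lemma EE_sh (h : Good n Ψ) (k : P) {l : List P} (hl : l.length + 2 < n)
    (h0 : EE Ψ l = 0) : EE Ψ (sh k :: k :: l) = 0 := by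
  have e : ∀ x, Ψ (x :: sh k :: k :: l) zer =
      kd k * lin k * (l.map fun m => phi m k).prod * k.2 * (phi x k * Ψ (x :: l) zer) := by
    intro x
    rw [h.D_perm (l := x :: sh k :: k :: l) (l' := sh k :: k :: x :: l) hl
      ((List.Perm.swap _ _ _).trans ((List.Perm.swap _ _ _).cons _)), h.D_sh k (x :: l) hl,
      List.map_cons, List.prod_cons]
    ring
  have e1 := dA_mul h (by omega) (g := fun t => phi (t + 1, ζ ^ 3) k)
    ((dd_der1 k).mul (dd_der2 (bar k))) fun t => e (t + 1, ζ ^ 3)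
  have e2 := h.r2 [] k l hl.le
  simp only [List.nil_append, List.length_nil, basic_liftN_zero] at e2
  have e3 : col l (Ψ l) zer = fc l * Ψ l zer := congrFun (h.col_fix l (by omega)) zer
  have e4 : ((0 : ℂ) + 1, ζ ^ 3) = aux := by rw [zero_add]; rfl
  have e5 : phi aux k = dd k aux * dd (sh k) aux := by rw [phi, dd_aux_bar]
  rw [e4, e5, dd_aux_bar] at e1
  have e6 : ζ ^ 14 * (jn (sh k) aux * (ul k aux * (ζ ^ 2 * k.1))) =
      k.2 * (ζ ^ 4 * ((-k.2 * (ζ ^ 9 * k.1 - k.2) - (ζ ^ 7 * k.1 - k.2) * k.2) * dd (sh k) aux +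
        dd k aux * (ζ ^ 4 * k.1 * (ζ ^ 6 * k.1 - ζ ^ 3 * k.2) +
          (ζ ^ 4 * k.1 - ζ ^ 3 * k.2) * (ζ ^ 6 * k.1)) - 2 * (dd k aux * dd (sh k) aux)) -
        c18 * ((sh k).1 * (sh k).2 * dd k aux + dd (sh k) aux * (k.1 * k.2))) := by
    simp only [c18_eq, jn, ul, dd, sh, aux]
    linear_combination
      (norm := (ring_nf; simp (disch := decide) only [algb_z, Nat.reduceSub]; ring))
  simp only [EE] at h0
  rw [EE, e1, h.D_sh k l hl.le, e2, map_smul, LP_ins, e3]
  simp only [List.length_cons, Wq, fc_cons, smul_eq_mul, bar]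
  generalize kd k * lin k * (l.map fun m => phi m k).prod = μ
  push_cast
  linear_combination μ * k.2 * (dd k aux * dd (sh k) aux) * h0 + μ * (fc l * Ψ l zer) * e6

lemma EE_aux (h : Good n Ψ) {l : List P} (hl : l.length + 1 < n) (h0 : EE Ψ l = 0) :
    EE Ψ (bar aux :: l) = 0 := by
  have e : ∀ x, Ψ (x :: bar aux :: l) zer = fc l * (dd x aux * Ψ (x :: l) zer) := by
    intro x
    rw [algc_D2 h x _ hl, h.D_aux (x :: l) hl, fc_cons]
    ring
  have e1 := dA_mul h (by omega) (dd_der2 aux) fun t => e (t + 1, ζ ^ 3)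
  have e4 : ((0 : ℂ) + 1, ζ ^ 3) = aux := by rw [zero_add]; rfl
  rw [e4] at e1
  have e6 : ζ ^ 4 * (ζ ^ 4 * aux.2 * (ζ ^ 6 * aux.2 - ζ ^ 3 * aux.1) +
      (ζ ^ 4 * aux.2 - ζ ^ 3 * aux.1) * (ζ ^ 6 * aux.2) - dd aux aux) =
        c18 * ((bar aux).1 * (bar aux).2) := by
    simp only [c18_eq, dd, bar, aux]
    linear_combination
      (norm := (ring_nf; simp (disch := decide) only [algb_z, Nat.reduceSub]; ring))
  simp only [EE] at h0
  rw [EE, e1, h.D_aux l (by omega), h.r0b l (by omega), map_smul, LP_cons, algb_emp_p, algb_emp_o]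
  simp only [List.length_cons, Wq, fc_cons, smul_eq_mul, dd_bar_aux, map_zero, Pi.zero_apply]
  push_cast
  linear_combination fc l * dd aux aux * h0 - fc l * (fc l * Ψ l zer) * e6

lemma EE_nil (h : Good n Ψ) (hn : 0 < n) : EE Ψ [] = 0 := by
  simp [EE, dA, Wq, LP_nil, algc_D1 h hn]

lemma EE_one (h : Good n Ψ) (hn : 1 < n) (a : P) : EE Ψ [a] = 0 := by
  have e1 : dA Ψ [a] = ζ ^ 13 * (a.1 * a.2) * 2 + algcβ a * ζ ^ 3 := by
    have h0 := (hasDerivAt_id (0 : ℂ)).add_const 1
    have h1 := (((h0.pow 2).add_const ((ζ ^ 3) ^ 2)).const_mul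
      (ζ ^ 13 * (a.1 * a.2))).add ((h0.mul_const (ζ ^ 3)).const_mul (algcβ a))
    simp only [dA, algc_D2' h hn]
    exact (h1.congr_deriv (by simp)).deriv
  have e2 : colB .m [] (prj .p (Ψ [a])) zer = 0 :=
    h.supp [a] hn.le (cons .p (cons .m zer)) 1 le_rfl (by simp [cons])
  simp only [EE, e1, LP_cons, LP_nil, e2, algc_D1 h (by omega), Wq, fc, c18_eq, algcβ, dd, aux,
    List.map_cons, List.map_nil, List.prod_cons, List.prod_nil, List.length_singleton]
  linear_combination
    (norm := (ring_nf; simp (disch := decide) only [algb_z, Nat.reduceSub]; ring))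

lemma EE_all (h : Good n Ψ) (T : ℕ) : ∀ l : List P, l.length = T → T < n → EE Ψ l = 0 := by
  induction T using Nat.strong_induction_on with
  | _ T ih =>
    intro l hl hT
    rcases l with _ | ⟨a, l⟩
    · exact EE_nil h (by omega)
    rcases Nat.eq_zero_or_pos l.length with h0 | h0
    · obtain rfl := List.length_eq_zero_iff.1 h0
      exact EE_one h (by simp at hl; omega) a
    simp only [List.length_cons] at hl
    refine algc_dens (algc_cons (EE_pol h) a) l.length (fun l' e hg => ?_) l rfl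
    have hn : l'.length + 1 < n := by omega
    have i1 := EE_aux h hn (ih _ (by omega) l' rfl (by omega))
    refine congrFun (nodecount4 (f := fun a _ => EE Ψ (a :: l'))
      (fun _ => algc_head (EE_pol h) (PolyP.var 0) l') (2 * l'.length + 2)
      (fun c b => funext fun _ => EE_hom h c b hn) hg [bar aux, aux]
      (special_np.sublist (by simp)) (fun e he => (special_ok e (by simp at he ⊢; tauto)).1)
      (fun e he => (special_ok e (by simp at he ⊢; tauto)).2) (by simp; omega)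
      (fun e he => funext fun _ => ?_) (fun m hm => ?_) a) zer
    · simp only [List.mem_cons, List.not_mem_nil, or_false] at he
      rcases he with rfl | rfl
      exacts [i1, (EE_bar h (bar aux) hn).trans i1]
    · obtain ⟨s, t, rfl⟩ := List.append_of_mem hm
      have hl2 : (s ++ t).length + 2 < n := by
        simp only [List.length_append, List.length_cons] at hn ⊢
        omega
      have i0 : EE Ψ (s ++ t) = 0 := ih _ (by
        simp only [List.length_append, List.length_cons] at e ⊢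
        omega) _ rfl (by omega)
      have p : ∀ x, EE Ψ (x :: (s ++ m :: t)) = EE Ψ (x :: m :: (s ++ t)) := fun x =>
        EE_perm h hn (List.perm_middle.cons x)
      have j1 : EE Ψ (sh m :: (s ++ m :: t)) = 0 := (p _).trans (EE_sh h m hl2 i0)
      have j2 : EE Ψ (sh (bar m) :: (s ++ m :: t)) = 0 := by
        rw [p, EE_perm h (l := sh (bar m) :: m :: (s ++ t)) hl2 (List.Perm.swap _ _ _),
          ← EE_bar h m (l := sh (bar m) :: (s ++ t)) hl2,
          EE_perm h (l := bar m :: sh (bar m) :: (s ++ t)) hl2 (List.Perm.swap _ _ _)]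
        exact EE_sh h (bar m) hl2 i0
      exact ⟨funext fun _ => j1, funext fun _ => j2,
        funext fun _ => (EE_bar h _ hn).trans j1, funext fun _ => (EE_bar h _ hn).trans j2⟩

/-- pattern of `algc_all` -/
theorem loop_eq {n : ℕ} {Ψ : List P → Vec} (h : Good n Ψ) (l : List P) (hl : l.length < n) :
    ζ ^ 14 * LP l (Ψ l) =
      ζ ^ 4 * (dA Ψ l - l.length * fc l * Ψ l zer) - c18 * Wq l * Ψ l zer :=
  sub_eq_zero.1 (EE_all h _ l rfl hl)

end Pool.Agent.Lib.MP_4960b8_pr.PT
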