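import Pool.Agent.Lib.MP_4960b8_pr.PT.AlgB

/-! Specialisation to the hexagonal lattice (plan A7). -/

namespace Pool.Agent.Lib.MP_4960b8_pr.PT

open QK Polynomial

lemma algc_der_pol {p : ℂ → ℂ[X]} {N : ℕ} (hp : ∀ y, PolyF fun x => (p (x 0).1).eval y)
    (hd : ∀ t, (p t).natDegree ≤ N) (y : ℂ) :
    PolyF fun x => (p (x 0).1).derivative.eval y := by
  have inj : Set.InjOn (fun i : ℕ => (i : ℂ)) (Finset.range (N + 1)) :=
    fun _ _ _ _ e => Nat.cast_injective e
  have e : ∀ t, (p t).derivative.eval y = ∑ i ∈ Finset.range (N + 1), (p t).eval (i : ℂ) *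
      (Lagrange.basis (Finset.range (N + 1)) (fun i : ℕ => (i : ℂ)) i).derivative.eval y := by
    intro t
    have q3 := Lagrange.eq_interpolate (f := p t) inj (by
      rw [Finset.card_range]
      exact (degree_le_of_natDegree_le (hd t)).trans_lt (by exact_mod_cast Nat.lt_succ_self _))
    conv_lhs => rw [q3]
    simp only [Lagrange.interpolate_apply, derivative_sum, derivative_C_mul, eval_finsetSum,
      eval_mul, eval_C]
  simp only [e]
  exact PolyF.sum _ fun i _ => (hp _).mul (PolyF.const _)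

lemma algc_dA {n : ℕ} {Ψ : List P → Vec} (h : Good n Ψ) (l : List P) (hl : l.length < n)
    {q : ℂ[X]} (hq : ∀ y, Ψ ((y, 1) :: l) zer = q.eval y) :
    dA Ψ l = 2 * l.length * q.eval (ζ ^ 3) - ζ ^ 3 * q.derivative.eval (ζ ^ 3) := by
  have e : (fun t : ℂ => Ψ ((t + 1, ζ ^ 3) :: l) zer) =ᶠ[nhds 0]
      fun t : ℂ => (t + 1) ^ (2 * l.length) * q.eval (ζ ^ 3 * (t + 1)⁻¹) := by
    have c : ContinuousAt (fun t : ℂ => t + 1) 0 := by fun_prop
    filter_upwards [c.eventually_ne (y := 0) (by simp)] with t ht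
    have a1 := h.D_bar (ζ ^ 3, t + 1) l hl
    have a2 := h.D_hom (ζ ^ 3 * (t + 1)⁻¹, 1) (t + 1) l hl
    rw [show (t + 1) • ((ζ ^ 3 * (t + 1)⁻¹, 1) : P) = (ζ ^ 3, t + 1) by
      refine Prod.ext ?_ (by simp)
      show (t + 1) * (ζ ^ 3 * (t + 1)⁻¹) = ζ ^ 3
      field_simp, hq] at a2
    exact a1.trans a2
  have d0 : HasDerivAt (fun t : ℂ => t + 1) 1 0 := (hasDerivAt_id (0 : ℂ)).add_const 1
  have d1 : HasDerivAt (fun t : ℂ => ζ ^ 3 * (t + 1)⁻¹) (ζ ^ 3 * (-1 / (0 + 1) ^ 2)) 0 :=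
    (d0.inv (by simp)).const_mul _
  have d2 := (q.hasDerivAt (ζ ^ 3 * (0 + 1)⁻¹)).comp (0 : ℂ) d1
  have d3 := (d0.pow (2 * l.length)).mul d2
  rw [dA, e.deriv_eq]
  refine d3.deriv.trans ?_
  simp
  ring

lemma algc_Wq_pol (T : ℕ) {g} (hg : PolyP g) : PolyF fun x => Wq (List.replicate T (g x)) := by
  induction T with
  | zero => exact PolyF.const 0
  | succ T ih =>
    simp only [List.replicate_succ, Wq, algd_fc]
    exact ((hg.1.mul hg.2).mul ((PolyF.dd hg (PolyP.const aux)).pow T)).add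
      ((PolyF.dd hg (PolyP.const aux)).mul ih)

lemma algc_Wq (T : ℕ) : 2 * c18 * Wq (List.replicate T hn) = T * dd hn aux ^ T := by
  induction T with
  | zero => simp [Wq]
  | succ T ih =>
    rw [List.replicate_succ, Wq, algd_fc]
    simp only [show hn.1 = 1 from rfl, show hn.2 = ζ from rfl]
    push_cast
    linear_combination dd hn aux * ih - dd hn aux ^ T * dd_hn_aux

/-- pattern of `alg` -/
theorem algP (h : StmtGood) : StmtAlgP := by
  intro T
  obtain ⟨Ψ, h⟩ := h (T + 1)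
  obtain ⟨k, g, p, hg, hp, -, hd, hne, e1, e2, -⟩ := algd_lead h
  have hL : ∀ g ∈ List.replicate T fun x : ℕ → P => algd_c (x 0).1, PolyP g := fun g hg => by
    rw [List.eq_of_mem_replicate hg]
    exact algd_cP
  have le : ∀ t, (List.replicate T (algd_c t)).length ≤ T + 1 := fun t => by simp
  have lt : ∀ t, (List.replicate T (algd_c t)).length < T + 1 := fun t => by simp
  have c := PolyF.const
  have hd' : ∀ t, (p t).natDegree ≤ 2 * T := fun t => by
    by_cases ht : t = 0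
    · rw [ht]
      exact hd
    have q0 := h.pol zer ((fun x => x 0) :: List.replicate T fun _ => algd_c t)
      (List.forall_mem_cons.2 ⟨PolyP.var 0, fun g hg => by
        rw [List.eq_of_mem_replicate hg]
        exact PolyP.const _⟩)
    simp only [List.map_cons, List.map_replicate] at q0
    obtain ⟨q, q1, q2⟩ := hom_poly (f := fun a => Ψ (a :: List.replicate T (algd_c t)) zer) q0
      (2 * T) fun c a => by simpa using h.D_hom a c (List.replicate T (algd_c t)) (by simp)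
    have q3 : p t = (t ^ k)⁻¹ • q := Polynomial.funext fun y => by
      rw [eval_smul, ← q2, e2, smul_eq_mul, inv_mul_cancel_left₀ (pow_ne_zero _ ht)]
    rw [q3]
    exact (natDegree_smul_le _ _).trans q1
  have hp1 := algc_der_pol hp hd' (ζ ^ 3)
  have e3 : ∀ t, dA Ψ (List.replicate T (algd_c t)) = t ^ k *
      (2 * T * (p t).eval (ζ ^ 3) - ζ ^ 3 * (p t).derivative.eval (ζ ^ 3)) := fun t => by
    rw [algc_dA h _ (lt t) (q := t ^ k • p t) fun y => by rw [e2, eval_smul, smul_eq_mul],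
      derivative_smul, eval_smul, eval_smul, List.length_replicate, smul_eq_mul, smul_eq_mul]
    ring
  have oD : PolyO fun x => down aux (List.replicate T (algd_c (x 0).1)) := by
    simpa only [List.map_replicate] using PolyO.down (PolyP.const aux) hL
  have oC : PolyO fun x => col (List.replicate T (algd_c (x 0).1)) := (PolyO.prj _).mul oD
  have fP : PolyF fun x => pP (List.replicate T (algd_c (x 0).1)) := by
    simpa only [algd_pP] using algd_cP.1.pow T
  have fQ : PolyF fun x => pQ (List.replicate T (algd_c (x 0).1)) := by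
    simpa only [algd_pQ] using algd_cP.2.pow T
  have fF : PolyF fun x => fc (List.replicate T (algd_c (x 0).1)) := by
    simpa only [algd_fc] using (PolyF.dd algd_cP (PolyP.const aux)).pow T
  have fL : PolyF fun x => LP (List.replicate T (algd_c (x 0).1)) (g (x 0).1) := by
    simpa only [List.map_replicate] using polyF_LP hL hg
  have z0 : ∀ σ, (∀ t, Ψ (List.replicate T (algd_c t)) σ = 0) → g 0 σ = 0 := fun σ h0 =>
    algd_lim (f := fun t => g t σ) (g := fun _ => 0) (hg σ) (c 0) (k := k) fun t => by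
      rw [mul_zero, ← h0 t, e1]
      rfl
  have s0 : Supp T (g 0) := fun σ i h1 h2 => z0 σ fun t => h.supp _ (le t) σ i (by simpa) h2
  have c0 : HasCh T 0 (g 0) := fun σ h1 => z0 σ fun t => h.ch _ (le t) σ (by simpa)
  have r1 := algd_limV (f := fun t => col (List.replicate T (algd_c t)) (g t))
    (g := fun t => fc (List.replicate T (algd_c t)) • g t) (oC _ hg) (PolyV.smul fF hg) (k := k)
    fun t => by rw [← map_smul, smul_comm, ← e1, h.col_fix _ (le t)]
  have r2 := algd_limV (f := fun t => Q T (g t)) (g := fun _ => 0) (PolyO.Q T _ hg)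
    (fun _ => c 0) (k := k) fun t => by
      rw [← map_smul, ← e1, smul_zero]
      simpa using h.Q_zero _ (le t)
  have r4 := algd_lim (f := fun t => (p t).eval 0) (g := fun t => ζ ^ (13 * T) *
      pP (List.replicate T (algd_c t)) * pQ (List.replicate T (algd_c t)) * g t zer) (hp 0)
    ((((c _).mul fP).mul fQ).mul (hg zer)) (k := k) fun t => by
      rw [← e2, h.D_zero _ (lt t), e1, List.length_replicate, Pi.smul_apply, smul_eq_mul]
      ring
  have r5 := algd_lim (f := fun t => (p t).eval (ζ ^ 3))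
    (g := fun t => fc (List.replicate T (algd_c t)) * g t zer) (hp _) (fF.mul (hg zer)) (k := k)
    fun t => by
      rw [← e2, show ((ζ ^ 3, 1) : P) = bar aux from rfl, h.D_aux _ (lt t), e1, Pi.smul_apply,
        smul_eq_mul]
      ring
  have r6 : ∀ y : ℂ, y ≠ 0 → (p 0).eval y = y ^ (2 * T) * (p 0).eval y⁻¹ := fun y hy =>
    algd_lim (f := fun t => (p t).eval y) (g := fun t => y ^ (2 * T) * (p t).eval y⁻¹) (hp _)
      ((c _).mul (hp _)) (k := k) fun t => by
        have a1 := h.D_bar (y, 1) _ (lt t)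
        have a2 := h.D_hom (y⁻¹, 1) y _ (lt t)
        rw [show y • ((y⁻¹, 1) : P) = bar (y, 1) by simp [bar, hy], a1, e2, e2,
          List.length_replicate] at a2
        linear_combination a2
  have w : ∀ y : ℂ, PolyF fun x => (y ^ 2 - 1) * (y ^ 2 - c18 * y + 1) *
      F6 (y, 1) (algd_c (x 0).1) ^ T * (p (x 0).1).eval y := fun y =>
    ((c _).mul ((algd_F6_pol _ algd_cP).pow T)).mul (hp y)
  have r7 := fun y : ℂ => algd_lim
    (f := fun t => (y ^ 2 - 1) * (y ^ 2 - c18 * y + 1) * F6 (y, 1) (algd_c t) ^ T * (p t).eval y -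
      ((ζ ^ 4 * y) ^ 2 - 1) * ((ζ ^ 4 * y) ^ 2 - c18 * (ζ ^ 4 * y) + 1) *
        F6 (ζ ^ 4 * y, 1) (algd_c t) ^ T * (p t).eval (ζ ^ 4 * y) +
      ((-y) ^ 2 - 1) * ((-y) ^ 2 - c18 * (-y) + 1) * F6 (-y, 1) (algd_c t) ^ T * (p t).eval (-y) -
      ((-(ζ ^ 4 * y)) ^ 2 - 1) * ((-(ζ ^ 4 * y)) ^ 2 - c18 * (-(ζ ^ 4 * y)) + 1) *
        F6 (-(ζ ^ 4 * y), 1) (algd_c t) ^ T * (p t).eval (-(ζ ^ 4 * y)))
    (g := fun _ => 0) ((((w _).sub (w _)).add (w _)).sub (w _)) (c 0) (k := k) fun t => by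
      have := h.fe _ (lt t) y
      simp only [PhiL, e2, List.map_replicate, List.prod_replicate] at this
      linear_combination this
  have r8 := algd_lim (f := fun t => ζ ^ 14 * LP (List.replicate T (algd_c t)) (g t))
    (g := fun t => ζ ^ 4 * (2 * T * (p t).eval (ζ ^ 3) - ζ ^ 3 * (p t).derivative.eval (ζ ^ 3) -
      T * fc (List.replicate T (algd_c t)) * g t zer) -
      c18 * Wq (List.replicate T (algd_c t)) * g t zer)
    ((c _).mul fL)
    (((c _).mul ((((c _).mul (hp _)).sub ((c _).mul hp1)).sub (((c _).mul fF).mul (hg zer)))).sub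
      (((c _).mul (algc_Wq_pol T algd_cP)).mul (hg zer)))
    (k := k) fun t => by
      have := loop_eq h _ (lt t)
      rw [e1, e3, map_smul, List.length_replicate, Pi.smul_apply, smul_eq_mul, smul_eq_mul] at this
      linear_combination this
  simp only [algd_c0, algd_pP, algd_pQ, algd_fc, algd_F6] at r1 r4 r5 r7 r8
  simp only [show hn.1 = 1 from rfl, show hn.2 = ζ from rfl, one_pow] at r4
  have hT : (ζ ^ T) ^ 16 = 1 := poly_z16 T
  have u13 : ζ ^ (13 * T) = (ζ ^ T) ^ 13 := by rw [← pow_mul, mul_comm]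
  have u2 : ζ ^ (2 * T) = (ζ ^ T) ^ 2 := by rw [← pow_mul, mul_comm]
  have n1 : dd hn aux ≠ 0 := by
    rw [dd_hn_aux]
    exact mul_ne_zero (mul_ne_zero two_ne_zero algd_c18_ne) zeta_ne
  have i1 : (dd hn aux)⁻¹ ^ T * dd hn aux ^ T = 1 := by
    rw [← mul_pow, inv_mul_cancel₀ n1, one_pow]
  have k0 : (ζ ^ (2 * T) • p 0).coeff 0 = g 0 zer := by
    rw [coeff_smul, coeff_zero_eq_eval_zero, r4, u13, u2, smul_eq_mul]
    linear_combination g 0 zer * hT
  refine ⟨g 0, ζ ^ (2 * T) • p 0, s0, c0, ?_, r2,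
    hne.imp id fun h1 => smul_ne_zero (pow_ne_zero _ zeta_ne) h1,
    ⟨(natDegree_smul_le _ _).trans hd, fun y hy => ?_, fun y => ?_⟩, k0, ?_, ?_⟩
  · rw [Ch, LinearMap.smul_apply, r1, smul_smul, i1, one_smul]
  · rw [eval_smul, eval_smul, r6 y hy, smul_eq_mul, smul_eq_mul]
    ring
  · have a : ∀ x : ℂ, ζ ^ T * PhiH T (ζ ^ (2 * T) • p 0) x = (x ^ 2 - 1) * (x ^ 2 - c18 * x + 1) *
        (ζ ^ 3 * (x ^ 2 - c18 * x + 1) ^ 2 * (x ^ 2 - c38 * x + 1)) ^ T * (p 0).eval x := fun x => by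
      rw [PhiH, eval_smul, smul_eq_mul, mul_pow, mul_pow, ← pow_mul _ 2 T]
      generalize x ^ 2 - c18 * x + 1 = A
      ring
    apply mul_left_cancel₀ (pow_ne_zero T zeta_ne)
    rw [I_eq, mul_sub, mul_add, mul_sub, a, a, a, a, mul_zero]
    exact r7 y
  · rw [k0, eval_smul, r5, dd_hn_aux, smul_eq_mul, mul_pow _ ζ, mul_pow _ (ζ ^ 3)]
    ring
  · rw [k0, derivative_smul, eval_smul, eval_smul, LH, LinearMap.smul_apply, I_eq]
    simp only [smul_eq_mul]
    rw [r5] at r8 ⊢
    have hW := algc_Wq T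
    generalize LP (List.replicate T hn) (g 0) = A at r8 ⊢
    generalize (p 0).derivative.eval (ζ ^ 3) = B at r8 ⊢
    linear_combination ζ ^ (2 * T) * g 0 zer * r8 + ζ ^ 14 * A * ζ ^ (2 * T) * g 0 zer * i1 -
      ζ ^ (2 * T) * g 0 zer ^ 2 / 2 * hW

end Pool.Agent.Lib.MP_4960b8_pr.PT
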