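import Mathlib

/-! Complex analysis: bounds across a line, three-term expansions (plan N4, N8). -/

namespace Pool.Agent.Lib.MP_4960b8_pr.PT

open Real Polynomial

noncomputable def yy (z : ℂ) : ℂ := Complex.exp (4 * Complex.I * z / 3)

lemma yy_ne (z : ℂ) : yy z ≠ 0 := Complex.exp_ne_zero _

lemma yy_norm (z : ℂ) : ‖yy z‖ = exp (-4 * z.im / 3) := by
  rw [yy, Complex.norm_exp]
  congr 1
  simp

/-- multiply by `(z - c) ^ 2 + ρ ^ 2` and use the maximum principle -/
theorem newman {f : ℂ → ℂ} {c : ℂ} {ρ M : ℝ} (hρ : 0 < ρ)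
    (hf : DifferentiableOn ℂ f (Metric.closedBall c ρ))
    (h : ∀ z ∈ Metric.sphere c ρ, ‖f z‖ * |(z - c).re| ≤ M) {z : ℂ} (hz : ‖z - c‖ ≤ ρ / 2) :
    ‖f z‖ ≤ 8 * M / (3 * ρ) := by
  have hg : DifferentiableOn ℂ (fun w => f w * ((w - c) ^ 2 + (ρ : ℂ) ^ 2))
      (closure (Metric.ball c ρ)) := by
    rw [closure_ball c hρ.ne']
    exact hf.mul (by fun_prop)
  have hzc : z ∈ closure (Metric.ball c ρ) := by
    rw [closure_ball c hρ.ne', Metric.mem_closedBall, dist_eq_norm]
    linarith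
  have key := Complex.norm_le_of_forall_mem_frontier_norm_le (C := 2 * ρ * M)
    Metric.isBounded_ball hg.diffContOnCl (fun w hw => by
      rw [frontier_ball c hρ.ne'] at hw
      have hw' : ‖w - c‖ = ρ := by rwa [Metric.mem_sphere, dist_eq_norm] at hw
      have e1 : (w - c) ^ 2 + (ρ : ℂ) ^ 2 = (w - c) * ((2 * (w - c).re : ℝ) : ℂ) := by
        rw [← Complex.add_conj, mul_add, Complex.mul_conj, Complex.normSq_eq_norm_sq, hw']
        push_cast
        ring
      have := h w hw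
      rw [norm_mul, e1, norm_mul, hw', Complex.norm_real, Real.norm_eq_abs, abs_mul, abs_two]
      nlinarith) hzc
  have h3 : 3 * ρ ^ 2 / 4 ≤ ‖(z - c) ^ 2 + (ρ : ℂ) ^ 2‖ := by
    have t1 : ‖(ρ : ℂ) ^ 2‖ ≤ ‖(z - c) ^ 2 + (ρ : ℂ) ^ 2‖ + ‖(z - c) ^ 2‖ := by
      have := norm_sub_le ((z - c) ^ 2 + (ρ : ℂ) ^ 2) ((z - c) ^ 2)
      rwa [add_sub_cancel_left] at this
    rw [norm_pow, norm_pow, Complex.norm_real, Real.norm_eq_abs, abs_of_pos hρ] at t1
    have t2 : ‖z - c‖ ^ 2 ≤ (ρ / 2) ^ 2 := pow_le_pow_left₀ (norm_nonneg _) hz 2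
    nlinarith
  rw [norm_mul] at key
  rw [le_div_iff₀ (by positivity)]
  have h4 : ‖f z‖ * (3 * ρ ^ 2 / 4) ≤ 2 * ρ * M :=
    (mul_le_mul_of_nonneg_left h3 (norm_nonneg _)).trans key
  have h5 : ρ * (‖f z‖ * (3 * ρ)) ≤ ρ * (8 * M) := by nlinarith
  exact le_of_mul_le_mul_left h5 hρ

lemma ana_cos {x : ℝ} (hx : |x| ≤ 3 * π / 4) : 2 / 5 * (3 * π / 4 - |x|) ≤ cos (2 * x / 3) := by
  have hp := pi_pos
  have hp4 := pi_lt_d2
  have e : cos (2 * x / 3) = sin (2 / 3 * (3 * π / 4 - |x|)) := by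
    rw [← Real.cos_abs, ← Real.sin_pi_div_two_sub]
    congr 1
    rw [abs_div, abs_mul, abs_two, abs_of_pos (by norm_num : (0 : ℝ) < 3)]
    ring
  have ha := abs_nonneg x
  have h1 := Real.mul_le_sin (x := 2 / 3 * (3 * π / 4 - |x|)) (by linarith) (by linarith)
  rw [e]
  refine le_trans ?_ h1
  have h2 : 3 / 5 ≤ 2 / π := by
    rw [le_div_iff₀ hp]
    linarith
  nlinarith

lemma ana_h1 {f : ℂ → ℂ} {τ M : ℝ}
    (h1 : ∀ z : ℂ, |z.re| < 3 * π / 4 → |z.im - τ| ≤ 1 / 2 → ‖f z‖ * cos (2 * z.re / 3) ≤ M)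
    {z : ℂ} (hz1 : |z.re| < 3 * π / 4) (hz2 : |z.im - τ| ≤ 1 / 2) :
    ‖f z‖ * (3 * π / 4 - |z.re|) ≤ 5 / 2 * M := by
  have a := h1 z hz1 hz2
  have b := mul_le_mul_of_nonneg_left (ana_cos hz1.le) (norm_nonneg (f z))
  nlinarith

lemma strip_pos {f : ℂ → ℂ} {τ M : ℝ} (hf : DifferentiableOn ℂ f {z | |z.im - τ| < 1})
    (h1 : ∀ z : ℂ, |z.re| < 3 * π / 4 → |z.im - τ| ≤ 1 / 2 → ‖f z‖ * cos (2 * z.re / 3) ≤ M)
    (h2 : ∀ z : ℂ, |z.re| ≤ 3 / 16 → |z.im - τ| ≤ 1 / 2 →
      ‖f (z + 3 * π / 4) - f (z - 3 * π / 4)‖ ≤ M)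
    {z : ℂ} (hz0 : 0 ≤ z.re) (hz1 : z.re ≤ 3 * π / 4 + 3 / 32) (hz2 : |z.im - τ| ≤ 1 / 4) :
    ‖f z‖ ≤ 100 * M := by
  have hp := pi_gt_three
  have hM : 0 ≤ M := (norm_nonneg _).trans (h2 ⟨0, τ⟩ (by norm_num) (by norm_num))
  have hre : ((3 * π / 4 : ℂ)).re = 3 * π / 4 := by
    have : (3 * π / 4 : ℂ) = ((3 * π / 4 : ℝ) : ℂ) := by push_cast; ring
    rw [this, Complex.ofReal_re]
  have him : ((3 * π / 4 : ℂ)).im = 0 := by
    have : (3 * π / 4 : ℂ) = ((3 * π / 4 : ℝ) : ℂ) := by push_cast; ring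
    rw [this, Complex.ofReal_im]
  rcases le_or_gt z.re (3 * π / 4 - 3 / 32) with hc | hc
  · have a := ana_h1 h1 (z := z) (by rw [abs_of_nonneg hz0]; linarith) (by linarith)
    rw [abs_of_nonneg hz0] at a
    have b := norm_nonneg (f z)
    nlinarith
  · set c : ℂ := ⟨3 * π / 4, z.im⟩ with hcdef
    have hball : ∀ w : ℂ, ‖w - c‖ ≤ 3 / 16 →
        |w.re - 3 * π / 4| ≤ 3 / 16 ∧ |w.im - τ| ≤ 7 / 16 := by
      intro w hw
      have a := (Complex.abs_re_le_norm (w - c)).trans hw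
      have b := (Complex.abs_im_le_norm (w - c)).trans hw
      rw [Complex.sub_re] at a
      rw [Complex.sub_im] at b
      refine ⟨a, ?_⟩
      have b' : |w.im - z.im| ≤ 3 / 16 := b
      rw [abs_le] at b' hz2 ⊢
      constructor <;> linarith [b'.1, b'.2, hz2.1, hz2.2]
    have key := newman (f := f) (c := c) (ρ := 3 / 16) (M := 3 * M) (by norm_num)
      (hf.mono fun w hw => by
        rw [Metric.mem_closedBall, dist_eq_norm] at hw
        have := (hball w hw).2
        show |w.im - τ| < 1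
        linarith)
      (fun w hw => by
        rw [Metric.mem_sphere, dist_eq_norm] at hw
        obtain ⟨a, b⟩ := hball w hw.le
        have e : (w - c).re = w.re - 3 * π / 4 := rfl
        rw [e]
        rw [abs_le] at a
        rcases lt_trichotomy w.re (3 * π / 4) with h | h | h
        · have hw0 : 0 ≤ w.re := by linarith [a.1]
          have k := ana_h1 h1 (z := w) (by rw [abs_of_nonneg hw0]; exact h) (by linarith)
          rw [abs_of_nonneg hw0] at k
          rw [abs_of_neg (by linarith)]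
          linarith
        · rw [h, sub_self, abs_zero, mul_zero]
          linarith
        · have j := h2 (w - 3 * π / 4) (by
            rw [Complex.sub_re, hre, abs_le]; exact a) (by
            rw [Complex.sub_im, him, sub_zero]; linarith)
          rw [sub_add_cancel] at j
          have r1 : (w - 3 * π / 4 - 3 * π / 4 : ℂ).re = w.re - 3 * π / 2 := by
            rw [Complex.sub_re, Complex.sub_re, hre]; ring
          have r2 : (w - 3 * π / 4 - 3 * π / 4 : ℂ).im = w.im := by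
            rw [Complex.sub_im, Complex.sub_im, him]; ring
          have r3 : |w.re - 3 * π / 2| = 3 * π / 2 - w.re := by
            rw [abs_of_neg (by linarith [a.2])]; ring
          have k := ana_h1 h1 (z := w - 3 * π / 4 - 3 * π / 4) (by rw [r1, r3]; linarith)
            (by rw [r2]; linarith)
          rw [r1, r3] at k
          have t : ‖f w‖ ≤ M + ‖f (w - 3 * π / 4 - 3 * π / 4)‖ := by
            have := norm_add_le (f w - f (w - 3 * π / 4 - 3 * π / 4))
              (f (w - 3 * π / 4 - 3 * π / 4))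
            rw [sub_add_cancel] at this
            linarith
          rw [abs_of_pos (by linarith)]
          have u0 : 0 ≤ w.re - 3 * π / 4 := by linarith
          have t2 := mul_le_mul_of_nonneg_right t u0
          have t3 := mul_le_mul_of_nonneg_left a.2 hM
          nlinarith)
      (z := z) (by
        have e : z - c = ((z.re - 3 * π / 4 : ℝ) : ℂ) := by
          apply Complex.ext
          · rw [Complex.ofReal_re]; rfl
          · rw [Complex.ofReal_im, Complex.sub_im]; exact sub_self _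
        rw [e, Complex.norm_real, Real.norm_eq_abs, abs_le]
        constructor <;> linarith)
    have e : 8 * (3 * M) / (3 * (3 / 16)) = 128 / 3 * M := by ring
    rw [e] at key
    linarith

/-- `newman` with radius `3 / 16` around `± 3 π / 4 + i z.im`;
`cos (2 x / 3) ≥ 0.4 (3 π / 4 - |x|)` -/
theorem strip {f : ℂ → ℂ} {τ M : ℝ} (hf : DifferentiableOn ℂ f {z | |z.im - τ| < 1})
    (h1 : ∀ z : ℂ, |z.re| < 3 * π / 4 → |z.im - τ| ≤ 1 / 2 → ‖f z‖ * cos (2 * z.re / 3) ≤ M)
    (h2 : ∀ z : ℂ, |z.re| ≤ 3 / 16 → |z.im - τ| ≤ 1 / 2 →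
      ‖f (z + 3 * π / 4) - f (z - 3 * π / 4)‖ ≤ M)
    {z : ℂ} (hz1 : |z.re| ≤ 3 * π / 4 + 3 / 32) (hz2 : |z.im - τ| ≤ 1 / 4) :
    ‖f z‖ ≤ 100 * M := by
  rcases le_total 0 z.re with h0 | h0
  · exact strip_pos hf h1 h2 h0 (by rwa [abs_of_nonneg h0] at hz1) hz2
  · have flip : ∀ w : ℂ, |(-w).im - τ| = |w.im - -τ| := fun w => by
      rw [Complex.neg_im, ← abs_neg]
      congr 1
      ring
    have := strip_pos (f := fun w => f (-w)) (τ := -τ) (M := M)
      (hf.comp (differentiable_neg.differentiableOn) fun w hw => by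
        show |(-w).im - τ| < 1
        rw [flip]
        exact hw)
      (fun w a b => by
        have k := h1 (-w) (by rwa [Complex.neg_re, abs_neg]) (by rwa [flip])
        rwa [Complex.neg_re, mul_neg, neg_div, cos_neg] at k)
      (fun w a b => by
        have k := h2 (-w) (by rwa [Complex.neg_re, abs_neg]) (by rwa [flip])
        rw [norm_sub_rev] at k
        have e1 : -(w + 3 * π / 4 : ℂ) = -w - 3 * π / 4 := by ring
        have e2 : -(w - 3 * π / 4 : ℂ) = -w + 3 * π / 4 := by ring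
        simp only [e1, e2]
        exact k)
      (z := -z) (by rw [Complex.neg_re]; linarith)
      (by rw [Complex.neg_re]; rwa [abs_of_nonpos h0] at hz1)
      (by rw [← flip, neg_neg]; exact hz2)
    simpa using this

/-- three-term expansion in `1 / t`, `t = R * yy z` -/
structure E3 (δ R : ℝ) (σ : ℂ → ℂ) (α β γ : ℂ) (η : ℝ) : Prop where
  hol : Differentiable ℂ σ
  bd : ∀ z : ℂ, |z.re| ≤ 3 * π / 4 + δ → |z.im| ≤ δ →
    ‖σ z - (α + β / (R * yy z) + γ / (R * yy z) ^ 2)‖ ≤ η / R ^ 2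

noncomputable def MM (m : ℂ) (R : ℝ) (σ : ℂ → ℂ) (z : ℂ) : ℂ :=
  (3 / (4 * Complex.I) * deriv σ z + m * σ z) / (R * yy z) - σ z

theorem E3.mono {δ δ' R η η' : ℝ} {σ : ℂ → ℂ} {α β γ : ℂ} (h : E3 δ R σ α β γ η) (hδ : δ' ≤ δ)
    (hη : η ≤ η') : E3 δ' R σ α β γ η' :=
  ⟨h.hol, fun z h1 h2 => (h.bd z (by linarith) (by linarith)).trans
    (div_le_div_of_nonneg_right hη (sq_nonneg R))⟩

lemma tt_deriv (R : ℝ) (z : ℂ) :
    HasDerivAt (fun w => (R : ℂ) * yy w) (4 * Complex.I / 3 * (R * yy z)) z := by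
  have h1 : HasDerivAt (fun w : ℂ => 4 * Complex.I * w / 3) (4 * Complex.I / 3) z := by
    simpa using ((hasDerivAt_id z).const_mul (4 * Complex.I)).div_const 3
  have h2 := (h1.cexp).const_mul (R : ℂ)
  refine h2.congr_deriv ?_
  rw [yy]
  ring

lemma tt_norm {R : ℝ} (hR : 1 ≤ R) {z : ℂ} (hz : |z.im| ≤ 1 / 8) :
    5 / 6 * R ≤ ‖(R : ℂ) * yy z‖ := by
  rw [norm_mul, yy_norm, Complex.norm_real, Real.norm_eq_abs, abs_of_pos (by linarith)]
  have a := Real.add_one_le_exp (-4 * z.im / 3)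
  have b := (abs_le.1 hz).2
  nlinarith

/-- Cauchy estimate on discs of radius `1 / 32` for the remainder -/
theorem E3.mm {δ R η : ℝ} {σ : ℂ → ℂ} {α β γ m : ℂ} (h : E3 (δ + 1 / 32) R σ α β γ η)
    (h0 : 0 ≤ δ) (h1 : δ ≤ 1 / 8) (hR : 1 ≤ R) (hm : ‖m‖ ≤ 2) :
    E3 δ R (MM m R σ) (-α) (m * α - β) ((m - 1) * β - γ) (40 * (η + ‖γ‖ / R)) := by
  have hR0 : (0 : ℝ) < R := by linarith
  have hRc : (R : ℂ) ≠ 0 := by exact_mod_cast hR0.ne'
  have htn : ∀ z, (R : ℂ) * yy z ≠ 0 := fun z => mul_ne_zero hRc (yy_ne z)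
  have htd : Differentiable ℂ fun w => (R : ℂ) * yy w := fun z => (tt_deriv R z).differentiableAt
  have hσ := h.hol
  have hσ' : Differentiable ℂ (deriv σ) :=
    differentiableOn_univ.1 (hσ.differentiableOn.deriv isOpen_univ)
  refine ⟨?_, fun z hz1 hz2 => ?_⟩
  · exact ((((hσ'.const_mul _).add (hσ.const_mul _)).div htd htn).sub hσ)
  · set e : ℂ → ℂ := fun w => σ w - (α + β / (R * yy w) + γ / (R * yy w) ^ 2) with he
    have hed : ∀ w, HasDerivAt e (deriv σ w + 4 * Complex.I / 3 *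
        (β / (R * yy w) + 2 * γ / (R * yy w) ^ 2)) w := fun w => by
      have a1 := (hasDerivAt_const w β).div (tt_deriv R w) (htn w)
      have a2 := (hasDerivAt_const w γ).div ((tt_deriv R w).pow 2) (pow_ne_zero 2 (htn w))
      have a3 := (hσ w).hasDerivAt.sub (((hasDerivAt_const w α).add a1).add a2)
      refine HasDerivAt.congr_deriv a3 ?_
      have := htn w
      simp only [Pi.pow_apply]
      generalize (R : ℂ) * yy w = t at this ⊢
      field_simp
      ring
    have hediff : Differentiable ℂ e := fun w => (hed w).differentiableAt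
    have hball : ∀ w : ℂ, ‖w - z‖ ≤ 1 / 32 → ‖e w‖ ≤ η / R ^ 2 := fun w hw => by
      have a := (Complex.abs_re_le_norm (w - z)).trans hw
      have b := (Complex.abs_im_le_norm (w - z)).trans hw
      rw [Complex.sub_re] at a
      rw [Complex.sub_im] at b
      refine h.bd w ?_ ?_
      · rw [abs_le] at a hz1 ⊢
        constructor <;> linarith [a.1, a.2, hz1.1, hz1.2]
      · rw [abs_le] at b hz2 ⊢
        constructor <;> linarith [b.1, b.2, hz2.1, hz2.2]
    have he0 : ‖e z‖ ≤ η / R ^ 2 := hball z (by simp)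
    have he1 : ‖deriv e z‖ ≤ η / R ^ 2 / (1 / 32) :=
      Complex.norm_deriv_le_of_forall_mem_sphere_norm_le (by norm_num) hediff.diffContOnCl
        fun w hw => hball w (by rw [Metric.mem_sphere, dist_eq_norm] at hw; exact hw.le)
    have hE : 0 ≤ η / R ^ 2 := (norm_nonneg _).trans he0
    have ht := tt_norm hR (z := z) (hz2.trans h1)
    have hid : MM m R σ z - (-α + (m * α - β) / (R * yy z) + ((m - 1) * β - γ) / (R * yy z) ^ 2)
        = (m - 2) * γ / (R * yy z) ^ 3
          + (3 / (4 * Complex.I) * deriv e z + m * e z) / (R * yy z) - e z := by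
      rw [(hed z).deriv, MM]
      simp only [he]
      have := htn z
      have hI := Complex.I_ne_zero
      generalize (R : ℂ) * yy z = t at this ⊢
      field_simp
      ring
    rw [hid]
    generalize (R : ℂ) * yy z = t at ht
    have ht0 : 0 < ‖t‖ := by linarith
    have b1 : ‖(m - 2) * γ / t ^ 3‖ ≤ 7 * (‖γ‖ / R / R ^ 2) := by
      have m2 : ‖m - 2‖ ≤ 4 := by
        have := norm_sub_le m 2
        rw [Complex.norm_two] at this
        linarith
      rw [norm_div, norm_mul, norm_pow, div_le_iff₀ (by positivity)]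
      have p3 : (5 / 6 * R) ^ 3 ≤ ‖t‖ ^ 3 := pow_le_pow_left₀ (by positivity) ht 3
      have g0 := norm_nonneg γ
      calc ‖m - 2‖ * ‖γ‖ ≤ 4 * ‖γ‖ := mul_le_mul_of_nonneg_right m2 g0
        _ ≤ 7 * (5 / 6) ^ 3 * ‖γ‖ := mul_le_mul_of_nonneg_right (by norm_num) g0
        _ = 7 * (‖γ‖ / R / R ^ 2) * (5 / 6 * R) ^ 3 := by field_simp
        _ ≤ _ := mul_le_mul_of_nonneg_left p3 (by positivity)
    have b2 : ‖(3 / (4 * Complex.I) * deriv e z + m * e z) / t‖ ≤ 32 * (η / R ^ 2) := by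
      rw [norm_div, div_le_iff₀ ht0]
      have n1 : ‖3 / (4 * Complex.I) * deriv e z‖ ≤ 24 * (η / R ^ 2) := by
        have : ‖(3 / (4 * Complex.I) : ℂ)‖ = 3 / 4 := by simp
        rw [norm_mul, this]
        linarith
      have n2 : ‖m * e z‖ ≤ 2 * (η / R ^ 2) := by
        rw [norm_mul]
        exact mul_le_mul hm he0 (norm_nonneg _) (by norm_num)
      have n3 := norm_add_le (3 / (4 * Complex.I) * deriv e z) (m * e z)
      have n4 : 5 / 6 ≤ ‖t‖ := by linarith
      have n5 := mul_le_mul_of_nonneg_left n4 hE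
      linarith
    have b3 := norm_sub_le ((m - 2) * γ / t ^ 3
      + (3 / (4 * Complex.I) * deriv e z + m * e z) / t) (e z)
    have b4 := norm_add_le ((m - 2) * γ / t ^ 3)
      ((3 / (4 * Complex.I) * deriv e z + m * e z) / t)
    have b5 : 40 * (η + ‖γ‖ / R) / R ^ 2 = 40 * (η / R ^ 2) + 40 * (‖γ‖ / R / R ^ 2) := by ring
    have b6 : 0 ≤ ‖γ‖ / R / R ^ 2 := by positivity
    rw [b5]
    linarith

/-- `(3 / 4) X d/dX - c` -/
noncomputable def Dp (c : ℂ) (A : ℂ[X]) : ℂ[X] := C (3 / 4) * (X * derivative A) - C c * A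

def Rep (ρ R : ℝ) (A : ℂ[X]) (k : ℕ) (σ : ℂ → ℂ) : Prop := ∀ z : ℂ,
  A.eval (ρ * Complex.exp (Complex.I * z)) = Complex.exp (-(R * yy z)) * (R * yy z) ^ k * σ z

/-- differentiate in `z` -/
theorem Rep.dp {ρ R : ℝ} {A : ℂ[X]} {k : ℕ} {σ : ℂ → ℂ} (h : Rep ρ R A k σ)
    (hσ : Differentiable ℂ σ) (hR : R ≠ 0) (c : ℂ) :
    Rep ρ R (Dp c A) (k + 1) (MM (k - c) R σ) := by
  intro z
  have hRc : (R : ℂ) ≠ 0 := by exact_mod_cast hR
  have htn : (R : ℂ) * yy z ≠ 0 := mul_ne_zero hRc (yy_ne z)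
  have x1 : HasDerivAt (fun w : ℂ => (ρ : ℂ) * Complex.exp (Complex.I * w))
      (Complex.I * (ρ * Complex.exp (Complex.I * z))) z := by
    have h1 : HasDerivAt (fun w : ℂ => Complex.I * w) Complex.I z := by
      simpa using (hasDerivAt_id z).const_mul Complex.I
    refine (h1.cexp.const_mul (ρ : ℂ)).congr_deriv ?_
    ring
  have l1 := (A.hasDerivAt (ρ * Complex.exp (Complex.I * z))).comp z x1
  have r1 := (((tt_deriv R z).neg.cexp).mul ((tt_deriv R z).pow k)).mul (hσ z).hasDerivAt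
  have e : ((fun x => A.eval x) ∘ fun w : ℂ => (ρ : ℂ) * Complex.exp (Complex.I * w)) =
      fun w => Complex.exp (-(R * yy w)) * (R * yy w) ^ k * σ w := funext fun w => h w
  rw [e] at l1
  have key := l1.unique r1
  have h0 := h z
  simp only [Pi.pow_apply, Pi.mul_apply, Pi.neg_apply] at key
  have hk : (k : ℂ) * ((R : ℂ) * yy z) ^ (k - 1) * ((R : ℂ) * yy z) = k * (R * yy z) ^ k := by
    cases k with
    | zero => simp
    | succ k => simp [pow_succ, mul_assoc]
  rw [Dp, MM]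
  simp only [eval_sub, eval_mul, eval_C, eval_X]
  rw [h0, pow_succ]
  have hI := Complex.I_ne_zero
  have hII := Complex.I_mul_I
  generalize (R : ℂ) * yy z = t at *
  generalize (ρ : ℂ) * Complex.exp (Complex.I * z) = x at *
  have e3 : (3 / (4 * Complex.I) : ℂ) = -(3 / 4) * Complex.I := by
    field_simp
    linear_combination hII
  have e4 : ∀ u v s : ℂ, u * (v * t) * (s / t - σ z) = u * v * (s - t * σ z) := by
    intro u v s
    field_simp
  rw [e4, e3]
  linear_combination (-(3 / 4) * Complex.I) * key + Complex.exp (-t) * σ z * hk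
    + (3 / 4 * (x * eval x (derivative A)) + Complex.exp (-t) * t * t ^ k * σ z
      - Complex.exp (-t) * σ z * (k * t ^ (k - 1) * t)) * hII

def FE0 (A : ℂ[X]) : Prop := ∀ x : ℂ,
  A.eval x - A.eval (Complex.I * x) + A.eval (-x) - A.eval (-(Complex.I * x)) = 0

lemma fe_deriv {A : ℂ[X]} {a b c d : ℂ} (h : ∀ x : ℂ, a * A.eval x + b * A.eval (Complex.I * x)
      + c * A.eval (-x) + d * A.eval (-(Complex.I * x)) = 0) (x : ℂ) :
    a * (derivative A).eval x + b * Complex.I * (derivative A).eval (Complex.I * x)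
      + -c * (derivative A).eval (-x)
      + -(d * Complex.I) * (derivative A).eval (-(Complex.I * x)) = 0 := by
  have i1 : HasDerivAt (fun w : ℂ => Complex.I * w) Complex.I x := by
    simpa using (hasDerivAt_id x).const_mul Complex.I
  have a1 := (A.hasDerivAt x).const_mul a
  have a2 := ((A.hasDerivAt (Complex.I * x)).comp x i1).const_mul b
  have a3 := ((A.hasDerivAt (-x)).comp x (hasDerivAt_neg x)).const_mul c
  have a4 := ((A.hasDerivAt (-(Complex.I * x))).comp x i1.neg).const_mul d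
  have s := ((a1.add a2).add a3).add a4
  have z0 : HasDerivAt (fun _ : ℂ => (0 : ℂ)) 0 x := hasDerivAt_const x 0
  have key := s.unique (z0.congr_of_eventuallyEq (Filter.Eventually.of_forall fun w => h w))
  linear_combination key

lemma FE0.d1 {A : ℂ[X]} (h : FE0 A) (x : ℂ) :
    1 * (derivative A).eval x + -1 * Complex.I * (derivative A).eval (Complex.I * x)
      + -1 * (derivative A).eval (-x)
      + -(-1 * Complex.I) * (derivative A).eval (-(Complex.I * x)) = 0 :=
  fe_deriv (fun x => by linear_combination h x) x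

theorem FE0.dp {A : ℂ[X]} (h : FE0 A) (c : ℂ) : FE0 (Dp c A) := by
  intro x
  simp only [Dp, eval_sub, eval_mul, eval_C, eval_X]
  linear_combination (3 / 4 * x) * h.d1 x - c * h x

/-- `Dp (3/4) (Dp 0 A) = (9/16) X^2 A''` and `A''(0) = 0` -/
theorem FE0.sq {A : ℂ[X]} (h : FE0 A) : ∃ A' B' : ℂ[X], Dp (3 / 4) (Dp 0 A) = X ^ 2 * A' ∧
    Dp 0 (Dp (3 / 4) (Dp 0 A)) = X ^ 2 * B' ∧ A'.eval 0 = 0 := by
  have e1 : Dp (3 / 4) (Dp 0 A) = X ^ 2 * (C (3 / 4) * C (3 / 4) * derivative (derivative A)) := by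
    simp only [Dp, map_zero, zero_mul, sub_zero, derivative_mul, derivative_C, derivative_X,
      zero_add, one_mul]
    ring
  refine ⟨_, C (3 / 4) * (2 * (C (3 / 4) * C (3 / 4) * derivative (derivative A))
    + X * derivative (C (3 / 4) * C (3 / 4) * derivative (derivative A))), e1, ?_, ?_⟩
  · rw [e1]
    generalize C (3 / 4 : ℂ) * C (3 / 4) * derivative (derivative A) = B
    simp only [Dp, map_zero, zero_mul, sub_zero, derivative_mul, derivative_X_pow]
    have : (C ((2 : ℕ) : ℂ) : ℂ[X]) = 2 := by simp [map_ofNat]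
    rw [this]
    ring
  · have k := fe_deriv h.d1 0
    simp only [mul_zero, neg_zero] at k
    have hII := Complex.I_mul_I
    have : (derivative (derivative A)).eval 0 = 0 := by
      linear_combination (1 / 4) * k + (1 / 2 * (derivative (derivative A)).eval 0) * hII
    simp [this]

end Pool.Agent.Lib.MP_4960b8_pr.PT
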