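import Pool.Agent.Lib.MP_4960b8_pr.PT.AnA

/-! Cauchy formula with a periodic kernel (plan N5). -/

namespace Pool.Agent.Lib.MP_4960b8_pr.PT

open Real

theorem anb_add (a b : ℂ) : yy (a + b) = yy a * yy b := by
  rw [yy, yy, yy, ← Complex.exp_add]
  congr 1
  ring

theorem anb_neg (g : ℂ) : yy (-g) = (yy g)⁻¹ := by
  rw [yy, yy, ← Complex.exp_neg]
  congr 1
  ring

theorem anb_der (g : ℂ) : HasDerivAt yy (4 * Complex.I / 3 * yy g) g := by
  have h : HasDerivAt (fun w : ℂ => 4 * Complex.I * w / 3) (4 * Complex.I * 1 / 3) g :=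
    ((hasDerivAt_id g).const_mul _).div_const _
  refine h.cexp.congr_deriv ?_
  unfold yy
  ring

@[fun_prop] theorem anb_diff : Differentiable ℂ yy := fun g => (anb_der g).differentiableAt

@[fun_prop] theorem anb_cont : Continuous yy := anb_diff.continuous

theorem anb_im (τ : ℝ) : yy (τ * Complex.I) = (exp (-4 * τ / 3) : ℝ) := by
  rw [yy, Complex.ofReal_exp]
  congr 1
  push_cast
  linear_combination (4 * τ / 3 : ℂ) * Complex.I_mul_I

theorem anb_real (x : ℝ) : yy x = cos (4 * x / 3) + sin (4 * x / 3) * Complex.I := by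
  rw [Complex.ofReal_cos, Complex.ofReal_sin, ← Complex.exp_mul_I, yy]
  congr 1
  push_cast
  ring

theorem anb_L : yy (3 * π / 4) = -1 := by
  rw [yy, show 4 * Complex.I * (3 * π / 4) / 3 = π * Complex.I by ring, Complex.exp_pi_mul_I]

theorem anb_L' : yy (-(3 * π / 4)) = -1 := by
  rw [anb_neg, anb_L]
  simp

theorem anb_inj {g w : ℂ} (hg : |g.re| < 3 * π / 4) (hw : |w.re| ≤ 3 * π / 4) (h : yy w = yy g) :
    w = g := by
  obtain ⟨n, hn⟩ := Complex.exp_eq_exp_iff_exists_int.1 h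
  have e : w = g + n * (3 * π / 2 : ℝ) := by
    push_cast
    linear_combination (-3 / 4 * Complex.I) * hn + (w - g - n * (3 * π / 2)) * Complex.I_mul_I
  have e2 : w.re = g.re + n * (3 * π / 2) := by
    rw [e, Complex.add_re, ← Complex.ofReal_intCast, ← Complex.ofReal_mul, Complex.ofReal_re]
  have hp := pi_pos
  rw [abs_lt] at hg
  rw [abs_le] at hw
  have n1 : (n : ℝ) < 1 := by nlinarith
  have n2 : (-1 : ℝ) < n := by nlinarith
  have : n = 0 := by
    have a : n < 1 := by exact_mod_cast n1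
    have b : -1 < n := by exact_mod_cast n2
    omega
  rw [e, this]
  simp

theorem anb_half {Y : ℝ} (hY : 0 < Y) (g : ℂ) : ‖yy g‖ * cos (2 * g.re / 3) ≤ ‖Y + yy g‖ := by
  refine le_trans (le_abs_self _) (abs_le_of_sq_le_sq' ?_ (norm_nonneg _)).2
  have e : yy g = (‖yy g‖ : ℝ) * yy g.re := by
    rw [yy_norm, ← anb_im, ← anb_add, add_comm, Complex.re_add_im]
  have r := norm_nonneg (yy g)
  rw [sq_abs, Complex.sq_norm, Complex.normSq_apply]
  generalize ‖yy g‖ = a at e r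
  rw [e, anb_real]
  simp only [Complex.add_re, Complex.add_im, Complex.mul_re, Complex.mul_im, Complex.ofReal_re,
    Complex.ofReal_im, Complex.I_re, Complex.I_im]
  have c1 := cos_sq_add_sin_sq (4 * g.re / 3)
  have c2 := cos_two_mul (2 * g.re / 3)
  rw [show 2 * (2 * g.re / 3) = 4 * g.re / 3 by ring] at c2
  have c3 := cos_sq_le_one (2 * g.re / 3)
  have c4 := sq_nonneg (cos (2 * g.re / 3))
  generalize cos (2 * g.re / 3) = c at *
  generalize cos (4 * g.re / 3) = C at *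
  generalize sin (4 * g.re / 3) = S at *
  have c5 : (a * c) ^ 2 ≤ (Y - a) ^ 2 + 4 * Y * a * c ^ 2 := by
    rcases le_total a (4 * Y) with h | h
    · nlinarith [mul_nonneg (mul_nonneg r c4) (sub_nonneg.2 h), sq_nonneg (Y - a)]
    · nlinarith [mul_nonneg (mul_nonneg r (sub_nonneg.2 c3)) (sub_nonneg.2 h), mul_nonneg r hY.le]
  refine c5.trans (le_of_eq ?_)
  linear_combination (-a ^ 2) * c1 - 2 * Y * a * c2

theorem anb_ne {c : ℂ} (hc : ‖c‖ < 1) : 1 - c ≠ 0 := fun e => by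
  rw [← sub_eq_zero.1 e, norm_one] at hc
  exact lt_irrefl _ hc

theorem anb_geo {c : ℂ} (hc : ‖c‖ < 1) :
    ∫ x in (-(3 * π / 4) : ℝ)..(3 * π / 4), (1 - c * yy x)⁻¹ = 3 * π / 2 := by
  have n : ∀ x : ℝ, ‖c * yy x‖ < 1 := fun x => by
    rw [norm_mul, yy_norm]
    simpa using hc
  have d : ∀ x : ℝ, HasDerivAt
      (fun x : ℝ => (x : ℂ) + 3 / 4 * Complex.I * Complex.log (1 - c * yy x))
      (1 - c * yy x)⁻¹ x := fun x => by
    have s : 1 - c * yy x ∈ Complex.slitPlane := by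
      rw [sub_eq_add_neg]
      exact Complex.mem_slitPlane_of_norm_lt_one (by rw [norm_neg]; exact n x)
    have h := (hasDerivAt_id (x : ℂ)).add
      (((((anb_der x).const_mul c).const_sub 1).clog s).const_mul (3 / 4 * Complex.I))
    refine h.comp_ofReal.congr_deriv ?_
    have := anb_ne (n x)
    field_simp
    linear_combination (-1 * c * yy x) * Complex.I_mul_I
  rw [intervalIntegral.integral_eq_sub_of_hasDerivAt (fun x _ => d x)
    (Continuous.intervalIntegrable (Continuous.inv₀ (by fun_prop) fun x => anb_ne (n x)) _ _)]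
  push_cast
  rw [anb_L, anb_L']
  ring

theorem anb_split {Θ : ℂ → ℂ} (hol : DifferentiableOn ℂ Θ {z | |z.re| < 13 * π / 16}) {g : ℂ}
    (h1 : |g.re| < 3 * π / 4) {p : ℝ → ℂ} (hp : Continuous p) {a b : ℝ}
    (h : ∀ t ∈ Set.uIcc a b, |(p t).re| ≤ 3 * π / 4 ∧ p t ≠ g) :
    IntervalIntegrable (fun t => Θ (p t) * (yy (p t) / (yy (p t) - yy g)))
      MeasureTheory.volume a b ∧
    ∫ t in a..b, dslope Θ g (p t) * yy (p t) / dslope yy g (p t) =
      (∫ t in a..b, Θ (p t) * (yy (p t) / (yy (p t) - yy g))) -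
        Θ g * ∫ t in a..b, yy (p t) / (yy (p t) - yy g) := by
  have ne : ∀ t ∈ Set.uIcc a b, yy (p t) - yy g ≠ 0 := fun t ht e =>
    (h t ht).2 (anb_inj h1 (h t ht).1 (sub_eq_zero.1 e))
  have c1 : ContinuousOn (fun t => yy (p t) / (yy (p t) - yy g)) (Set.uIcc a b) :=
    ContinuousOn.div (by fun_prop) (by fun_prop) ne
  have c2 : ContinuousOn (fun t => Θ (p t)) (Set.uIcc a b) :=
    hol.continuousOn.comp hp.continuousOn fun t ht => by
      show |(p t).re| < _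
      linarith [(h t ht).1, pi_pos]
  have i1 : IntervalIntegrable (fun t => Θ (p t) * (yy (p t) / (yy (p t) - yy g)))
    MeasureTheory.volume a b := (c2.mul c1).intervalIntegrable
  refine ⟨i1, ?_⟩
  rw [← intervalIntegral.integral_const_mul, ← intervalIntegral.integral_sub i1
    (c1.intervalIntegrable.const_mul _)]
  refine intervalIntegral.integral_congr fun t ht => ?_
  have n1 := ne t ht
  have n2 := sub_ne_zero.2 (h t ht).2
  simp only [dslope_of_ne _ (h t ht).2, slope_def_field]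
  field_simp

/-- Cauchy formula on the rectangle `[-3π/4, 3π/4] × [-τ₀, τ₀]`, kernel `y' / (y' - y)` -/
theorem cauchy_per {Θ : ℂ → ℂ} (hol : DifferentiableOn ℂ Θ {z | |z.re| < 13 * π / 16}) {τ₀ : ℝ}
    {g : ℂ} (h1 : |g.re| < 3 * π / 4) (h2 : |g.im| < τ₀) :
    (3 * π / 2 : ℂ) * Θ g =
      (∫ x in -(3 * π / 4)..(3 * π / 4), Θ (x - τ₀ * Complex.I) *
          (yy (x - τ₀ * Complex.I) / (yy (x - τ₀ * Complex.I) - yy g))) -
        (∫ x in -(3 * π / 4)..(3 * π / 4), Θ (x + τ₀ * Complex.I) *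
          (yy (x + τ₀ * Complex.I) / (yy (x + τ₀ * Complex.I) - yy g))) +
        Complex.I * ∫ τ in -τ₀..τ₀,
          (Θ (3 * π / 4 + τ * Complex.I) - Θ (-(3 * π / 4) + τ * Complex.I)) *
            ((exp (-4 * τ / 3) : ℝ) / ((exp (-4 * τ / 3) : ℝ) + yy g)) := by
  have hp := pi_pos
  have hL : -(3 * π / 4) ≤ 3 * π / 4 := by linarith
  have ho : IsOpen {z : ℂ | |z.re| < 13 * π / 16} := isOpen_lt (by fun_prop) continuous_const
  have hg : {z : ℂ | |z.re| < 13 * π / 16} ∈ nhds g := ho.mem_nhds (by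
    show |g.re| < _
    linarith)
  have z := Complex.integral_boundary_rect_eq_zero_of_differentiableOn
    (fun w => dslope Θ g w * yy w / dslope yy g w) ⟨-(3 * π / 4), -τ₀⟩ ⟨3 * π / 4, τ₀⟩ (by
      have hs : ∀ w ∈ Set.uIcc (-(3 * π / 4)) (3 * π / 4) ×ℂ Set.uIcc (-τ₀) τ₀,
          |w.re| ≤ 3 * π / 4 := fun w hw => by
        have := (Complex.mem_reProdIm.1 hw).1
        rwa [Set.uIcc_of_le hL, Set.mem_Icc, ← abs_le] at this
      refine DifferentiableOn.div ((((Complex.differentiableOn_dslope hg).2 hol).mono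
        fun w hw => ?_).mul anb_diff.differentiableOn)
        (((Complex.differentiableOn_dslope Filter.univ_mem).2 anb_diff.differentiableOn).mono
          (Set.subset_univ _)) fun w hw => ?_
      · show |w.re| < _
        linarith [hs w hw]
      · by_cases e : w = g
        · rw [e, dslope_same, (anb_der g).deriv]
          exact mul_ne_zero (by simp) (yy_ne g)
        · rw [dslope_of_ne _ e, slope_def_field]
          exact div_ne_zero (fun e' => e (anb_inj h1 (hs w hw) (sub_eq_zero.1 e')))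
            (sub_ne_zero.2 e))
  have h3 := abs_lt.1 h2
  have h4 := abs_lt.1 h1
  have hx : ∀ t ∈ Set.uIcc (-(3 * π / 4)) (3 * π / 4), |t| ≤ 3 * π / 4 := fun t ht => by
    rwa [Set.uIcc_of_le hL, Set.mem_Icc, ← abs_le] at ht
  obtain ⟨-, s1⟩ := anb_split hol h1 (p := fun x => x - τ₀ * Complex.I) (by fun_prop)
    (a := -(3 * π / 4)) (b := 3 * π / 4) fun t ht => ⟨by simpa using hx t ht, fun e => by
      have := congrArg Complex.im e
      simp at this
      linarith⟩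
  obtain ⟨-, s2⟩ := anb_split hol h1 (p := fun x => x + τ₀ * Complex.I) (by fun_prop)
    (a := -(3 * π / 4)) (b := 3 * π / 4) fun t ht => ⟨by simpa using hx t ht, fun e => by
      have := congrArg Complex.im e
      simp at this
      linarith⟩
  have r1 : ∀ t : ℝ, (3 * π / 4 + t * Complex.I : ℂ).re = 3 * π / 4 := fun t => by simp
  have r2 : ∀ t : ℝ, (-(3 * π / 4) + t * Complex.I : ℂ).re = -(3 * π / 4) := fun t => by simp
  obtain ⟨i3, s3⟩ := anb_split hol h1 (p := fun t => 3 * π / 4 + t * Complex.I) (by fun_prop)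
    (a := -τ₀) (b := τ₀) fun t _ => ⟨by rw [r1, abs_of_pos (by linarith)], fun e => by
      have := r1 t
      rw [e] at this
      linarith⟩
  obtain ⟨i4, s4⟩ := anb_split hol h1 (p := fun t => -(3 * π / 4) + t * Complex.I) (by fun_prop)
    (a := -τ₀) (b := τ₀) fun t _ => ⟨by rw [r2, abs_neg, abs_of_pos (by linarith)], fun e => by
      have := r2 t
      rw [e] at this
      linarith⟩
  have k : ∀ u : ℂ, -1 * u / (-1 * u - yy g) = u / (u + yy g) := fun u => by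
    rw [show -1 * u - yy g = -(u + yy g) by ring, neg_one_mul, neg_div_neg_eq]
  have k1 : ∀ t : ℝ, yy (3 * π / 4 + t * Complex.I) / (yy (3 * π / 4 + t * Complex.I) - yy g) =
      (exp (-4 * t / 3) : ℝ) / ((exp (-4 * t / 3) : ℝ) + yy g) := fun t => by
    rw [anb_add, anb_L, anb_im, k]
  have k2 : ∀ t : ℝ, yy (-(3 * π / 4) + t * Complex.I) /
      (yy (-(3 * π / 4) + t * Complex.I) - yy g) =
      (exp (-4 * t / 3) : ℝ) / ((exp (-4 * t / 3) : ℝ) + yy g) := fun t => by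
    rw [anb_add, anb_L', anb_im, k]
  simp only [k1, k2] at s3 s4 i3 i4
  have n1 : ‖yy g * yy (τ₀ * Complex.I)‖ < 1 := by
    rw [← anb_add, yy_norm, exp_lt_one_iff]
    simp
    linarith
  have n2 : ‖(yy g)⁻¹ * yy (τ₀ * Complex.I)‖ < 1 := by
    rw [← anb_neg, ← anb_add, yy_norm, exp_lt_one_iff]
    simp
    linarith
  have g1 : ∫ x in -(3 * π / 4)..(3 * π / 4),
      yy (x - τ₀ * Complex.I) / (yy (x - τ₀ * Complex.I) - yy g) = 3 * π / 2 := by
    have := intervalIntegral.integral_comp_neg (a := -(3 * π / 4)) (b := 3 * π / 4)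
      fun x : ℝ => (1 - yy g * yy (τ₀ * Complex.I) * yy x)⁻¹
    rw [neg_neg, anb_geo n1] at this
    rw [← this]
    refine intervalIntegral.integral_congr fun x _ => ?_
    have a1 := yy_ne x
    have a2 := yy_ne (τ₀ * Complex.I)
    simp only [sub_eq_add_neg (x : ℂ), anb_add, anb_neg, Complex.ofReal_neg]
    field_simp
  have g2 : ∫ x in -(3 * π / 4)..(3 * π / 4),
      yy (x + τ₀ * Complex.I) / (yy (x + τ₀ * Complex.I) - yy g) = 0 := by
    have n : ∀ x : ℝ, 1 - (yy g)⁻¹ * yy (τ₀ * Complex.I) * yy x ≠ 0 := fun x => anb_ne (by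
      rw [norm_mul, yy_norm x]
      simpa using n2)
    have : ∫ x in -(3 * π / 4)..(3 * π / 4),
        (1 - (1 - (yy g)⁻¹ * yy (τ₀ * Complex.I) * yy x)⁻¹) = 0 := by
      have c : Continuous fun x : ℝ => (1 - (yy g)⁻¹ * yy (τ₀ * Complex.I) * yy x)⁻¹ :=
        Continuous.inv₀ (by fun_prop) n
      rw [intervalIntegral.integral_sub intervalIntegrable_const (c.intervalIntegrable _ _),
        anb_geo n2]
      simp
      ring
    rw [← this]
    refine intervalIntegral.integral_congr fun x _ => ?_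
    have a1 := yy_ne g
    have a2 := n x
    have a3 : yy x * yy (τ₀ * Complex.I) - yy g ≠ 0 := fun e => a2 (by
      field_simp
      linear_combination -e)
    simp only [anb_add]
    rw [eq_sub_iff_add_eq, ← eq_sub_iff_add_eq', eq_comm]
    refine eq_inv_of_mul_eq_one_left ?_
    field_simp
    ring
  simp only [sub_mul]
  rw [intervalIntegral.integral_sub i3 i4]
  rw [g1] at s1
  rw [g2] at s2
  simp only [smul_eq_mul, Complex.ofReal_neg, neg_mul, ← sub_eq_add_neg] at z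
  push_cast at z
  rw [s1, s2, s3, s4] at z
  linear_combination -z

theorem anb_exp {u v : ℂ} (hu : ‖u‖ < 1) (hv : ‖v‖ < 1) :
    (1 - u)⁻¹ - (1 - (1 - v)⁻¹) =
      1 + (u + v) + (u ^ 2 + v ^ 2) + (u ^ 3 / (1 - u) + v ^ 3 / (1 - v)) := by
  have := anb_ne hu
  have := anb_ne hv
  field_simp
  ring

theorem anb_rem {u : ℂ} (hu : ‖u‖ ≤ 1 / 2) : ‖u ^ 3 / (1 - u)‖ ≤ 2 * ‖u‖ ^ 3 := by
  have := norm_sub_norm_le (1 : ℂ) u
  rw [norm_one] at this
  rw [norm_div, norm_pow, div_le_iff₀ (by linarith)]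
  nlinarith [pow_nonneg (norm_nonneg u) 3]

theorem anb_small {g : ℂ} {τ₀ : ℝ} (h : |g.im| ≤ τ₀ - 1) : ‖yy g‖ * exp (-4 * τ₀ / 3) ≤ 1 / 2 := by
  rw [yy_norm, ← exp_add]
  have h1 := abs_le.1 h
  refine (exp_le_exp.2 (show _ ≤ -1 by linarith)).trans ?_
  rw [exp_neg, inv_le_comm₀ (exp_pos _) (by norm_num)]
  linarith [add_one_le_exp (1 : ℝ)]

theorem anb_pos {g : ℂ} (h : |g.re| < 3 * π / 4) : 0 < cos (2 * g.re / 3) := by
  have := abs_lt.1 h
  exact cos_pos_of_mem_Ioo ⟨by linarith, by linarith⟩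

theorem anb_den {g : ℂ} (h : |g.re| < 3 * π / 4) (t : ℝ) :
    ((exp (-4 * t / 3) : ℝ) : ℂ) + yy g ≠ 0 := fun e => by
  have := anb_half (exp_pos (-4 * t / 3)) g
  rw [e, norm_zero] at this
  exact absurd this (not_le.2 (mul_pos (norm_pos_iff.2 (yy_ne g)) (anb_pos h)))

/-- the part of the formula on the two vertical sides -/
theorem anb_vert {D : ℝ → ℂ} (hD : Continuous D) (odd : ∀ t, D (-t) = -D t) {τ₀ J : ℝ}
    (h0 : 0 ≤ τ₀) (hJ0 : 0 ≤ J)
    (hJ : ∀ τ : ℝ, 0 < τ → τ ≤ τ₀ → ‖D τ‖ * exp (-4 * τ / 3) ≤ J * exp (4 * (τ - τ₀) / 3))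
    {g : ℂ} (h : |g.re| < 3 * π / 4) :
    ‖(∫ τ in -τ₀..τ₀, D τ * ((exp (-4 * τ / 3) : ℝ) / ((exp (-4 * τ / 3) : ℝ) + yy g))) +
      ∫ τ in (0 : ℝ)..τ₀, D τ‖ * cos (2 * g.re / 3) ≤ J * (‖yy g‖ + ‖yy g‖⁻¹) := by
  have h' : |(-g).re| < 3 * π / 4 := by rwa [Complex.neg_re, abs_neg]
  have c : ∀ {g : ℂ}, |g.re| < 3 * π / 4 → Continuous fun τ : ℝ =>
      D τ * ((exp (-4 * τ / 3) : ℝ) / ((exp (-4 * τ / 3) : ℝ) + yy g)) := fun h =>
    hD.mul (Continuous.div (by fun_prop) (by fun_prop) (anb_den h))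
  have e1 : ∫ τ in -τ₀..0, D τ * ((exp (-4 * τ / 3) : ℝ) / ((exp (-4 * τ / 3) : ℝ) + yy g)) =
      (∫ τ in (0 : ℝ)..τ₀, D τ * ((exp (-4 * τ / 3) : ℝ) / ((exp (-4 * τ / 3) : ℝ) + yy (-g)))) -
        ∫ τ in (0 : ℝ)..τ₀, D τ := by
    have := intervalIntegral.integral_comp_neg (a := 0) (b := τ₀) fun τ : ℝ =>
      D τ * ((exp (-4 * τ / 3) : ℝ) / ((exp (-4 * τ / 3) : ℝ) + yy g))
    rw [neg_zero] at this
    rw [← this, ← intervalIntegral.integral_sub ((c h').intervalIntegrable _ _)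
      (hD.intervalIntegrable _ _)]
    refine intervalIntegral.integral_congr fun t _ => ?_
    have a1 := anb_den h (-t)
    have a2 := anb_den h' t
    have a3 := yy_ne g
    have a4 : ((exp (-4 * t / 3) : ℝ) : ℂ) ≠ 0 := Complex.ofReal_ne_zero.2 (exp_pos _).ne'
    simp only [odd]
    rw [show -4 * -t / 3 = -(-4 * t / 3) by ring, exp_neg, Complex.ofReal_inv] at a1 ⊢
    rw [anb_neg] at a2 ⊢
    generalize ((exp (-4 * t / 3) : ℝ) : ℂ) = Y at *
    have a5 : 1 + Y * yy g ≠ 0 := fun e => a1 (by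
      field_simp
      linear_combination e)
    have a6 : Y * yy g + 1 ≠ 0 := by rwa [add_comm]
    field_simp
    ring
  rw [← intervalIntegral.integral_add_adjacent_intervals (b := 0) ((c h).intervalIntegrable _ _)
    ((c h).intervalIntegrable _ _), e1, sub_add_eq_add_sub, sub_add_cancel,
    ← intervalIntegral.integral_add ((c h').intervalIntegrable _ _)
    ((c h).intervalIntegrable _ _)]
  have cp := anb_pos h
  have n := norm_pos_iff.2 (yy_ne g)
  have b : ∀ {g : ℂ}, |g.re| < 3 * π / 4 → ∀ t : ℝ, 0 < t → t ≤ τ₀ →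
      ‖D t * ((exp (-4 * t / 3) : ℝ) / ((exp (-4 * t / 3) : ℝ) + yy g))‖ ≤
        J * ‖yy g‖⁻¹ / cos (2 * g.re / 3) * exp (4 * (t - τ₀) / 3) := fun {g} h t t1 t2 => by
    have n := norm_pos_iff.2 (yy_ne g)
    have cp := anb_pos h
    rw [norm_mul, norm_div, Complex.norm_real, Real.norm_of_nonneg (exp_pos _).le, ← mul_div_assoc]
    refine (div_le_div₀ (by positivity) (hJ t t1 t2) (mul_pos n cp)
      (anb_half (exp_pos _) g)).trans (le_of_eq ?_)
    field_simp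
  have d : ∀ t : ℝ, HasDerivAt (fun t : ℝ => 3 / 4 * exp (4 * (t - τ₀) / 3))
      (exp (4 * (t - τ₀) / 3)) t := fun t => by
    refine (((((hasDerivAt_id t).sub_const τ₀).const_mul 4).div_const 3).exp.const_mul
      (3 / 4)).congr_deriv ?_
    simp only [id]
    ring
  have i : ∫ t in (0 : ℝ)..τ₀, exp (4 * (t - τ₀) / 3) ≤ 1 := by
    rw [intervalIntegral.integral_eq_sub_of_hasDerivAt (fun t _ => d t)
      (Continuous.intervalIntegrable (by fun_prop) _ _), sub_self, mul_zero, zero_div, exp_zero]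
    linarith [exp_pos (4 * (0 - τ₀) / 3)]
  rw [← le_div_iff₀ cp]
  refine (intervalIntegral.norm_integral_le_of_norm_le h0 (g := fun t =>
    J * (‖yy g‖ + ‖yy g‖⁻¹) / cos (2 * g.re / 3) * exp (4 * (t - τ₀) / 3))
    (Filter.Eventually.of_forall fun t ht => ?_)
    (Continuous.intervalIntegrable (by fun_prop) _ _)).trans ?_
  · have b1 := b h' t ht.1 ht.2
    rw [anb_neg, norm_inv, inv_inv, Complex.neg_re, mul_neg, neg_div, cos_neg, ← anb_neg] at b1
    refine (norm_add_le_of_le b1 (b h t ht.1 ht.2)).trans (le_of_eq ?_)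
    ring
  · rw [intervalIntegral.integral_const_mul]
    exact mul_le_of_le_one_right (by positivity) i

theorem rep {Θ : ℂ → ℂ} (hol : DifferentiableOn ℂ Θ {z | |z.re| < 13 * π / 16})
    (hev : ∀ z : ℂ, |z.re| < 13 * π / 16 → Θ (-z) = Θ z) {τ₀ M J : ℝ} (h0 : 1 ≤ τ₀)
    (hM : ∀ x : ℝ, |x| ≤ 3 * π / 4 → ‖Θ (x + τ₀ * Complex.I)‖ ≤ M)
    (hJ : ∀ τ : ℝ, 0 < τ → τ ≤ τ₀ →
      ‖Θ (3 * π / 4 + τ * Complex.I) - Θ (-(3 * π / 4) + τ * Complex.I)‖ * exp (-4 * τ / 3) ≤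
        J * exp (4 * (τ - τ₀) / 3)) :
    ∃ a₀ α₁ α₂ : ℂ, ‖α₁‖ ≤ M * exp (-4 * τ₀ / 3) ∧ ‖α₂‖ ≤ M * exp (-4 * τ₀ / 3) ^ 2 ∧
      ∀ g : ℂ, |g.re| < 3 * π / 4 → |g.im| ≤ τ₀ - 1 →
        ‖Θ g - (a₀ + α₁ * (yy g + (yy g)⁻¹) + α₂ * (yy g ^ 2 + (yy g)⁻¹ ^ 2))‖ *
            cos (2 * g.re / 3) ≤
          2 * M * exp (-4 * τ₀ / 3) ^ 3 * (‖yy g‖ ^ 3 + ‖yy g‖⁻¹ ^ 3) +
            J * (‖yy g‖ + ‖yy g‖⁻¹) := by
  have hp := pi_gt_three
  have hL : -(3 * π / 4) ≤ 3 * π / 4 := by linarith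
  have hx : ∀ t ∈ Set.uIcc (-(3 * π / 4)) (3 * π / 4), |t| ≤ 3 * π / 4 := fun t ht => by
    rwa [Set.uIcc_of_le hL, Set.mem_Icc, ← abs_le] at ht
  have hM0 : 0 ≤ M := (norm_nonneg _).trans (hM 0 (by rw [abs_zero]; linarith))
  have hJ0 : 0 ≤ J := by
    have := hJ τ₀ (by linarith) le_rfl
    rw [sub_self, mul_zero, zero_div, exp_zero, mul_one] at this
    exact le_trans (by positivity) this
  have r1 : ∀ t : ℝ, |(3 * π / 4 + t * Complex.I : ℂ).re| < 13 * π / 16 := fun t => by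
    rw [show (3 * π / 4 + t * Complex.I : ℂ).re = 3 * π / 4 by simp, abs_of_pos (by linarith)]
    linarith
  have r2 : ∀ t : ℝ, |(-(3 * π / 4) + t * Complex.I : ℂ).re| < 13 * π / 16 := fun t => by
    rw [show (-(3 * π / 4) + t * Complex.I : ℂ).re = -(3 * π / 4) by simp, abs_neg,
      abs_of_pos (by linarith)]
    linarith
  have cθ : ContinuousOn (fun x : ℝ => Θ (x + τ₀ * Complex.I))
      (Set.uIcc (-(3 * π / 4)) (3 * π / 4)) :=
    hol.continuousOn.comp (by fun_prop) fun t ht => by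
      show |(t + τ₀ * Complex.I : ℂ).re| < _
      rw [show (t + τ₀ * Complex.I : ℂ).re = t by simp]
      linarith [hx t ht]
  have nw : ∀ x : ℝ, ‖yy (x + τ₀ * Complex.I)‖ = exp (-4 * τ₀ / 3) := fun x => by
    rw [yy_norm]
    simp
  have bd : ∀ {f : ℝ → ℂ} {B : ℝ}, (∀ x, ‖f x‖ ≤ B) → ‖2 / (3 * π) *
      ∫ x in -(3 * π / 4)..(3 * π / 4), Θ (x + τ₀ * Complex.I) * f x‖ ≤ M * B :=
    fun {f B} hf => by
      have := intervalIntegral.norm_integral_le_of_norm_le_const (a := -(3 * π / 4))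
        (b := 3 * π / 4) (C := M * B) (f := fun x => Θ (x + τ₀ * Complex.I) * f x) fun x h => by
          rw [norm_mul]
          exact mul_le_mul (hM x (hx x (Set.uIoc_subset_uIcc h))) (hf x) (norm_nonneg _) hM0
      rw [abs_of_pos (by linarith)] at this
      rw [norm_mul, show (2 / (3 * π) : ℂ) = (2 / (3 * π) : ℝ) by push_cast; rfl,
        Complex.norm_real, Real.norm_of_nonneg (by positivity), div_mul_eq_mul_div,
        div_le_iff₀ (by positivity)]
      linarith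
  refine ⟨2 / (3 * π) * ((∫ x in -(3 * π / 4)..(3 * π / 4), Θ (x + τ₀ * Complex.I)) -
      Complex.I * ∫ τ in (0 : ℝ)..τ₀,
        (Θ (3 * π / 4 + τ * Complex.I) - Θ (-(3 * π / 4) + τ * Complex.I))), _, _,
    bd (f := fun x => yy (x + τ₀ * Complex.I)) fun x => (nw x).le,
    bd (f := fun x => yy (x + τ₀ * Complex.I) ^ 2) fun x => by rw [norm_pow, nw],
    fun g h1 h2 => ?_⟩
  have cf := cauchy_per hol (τ₀ := τ₀) h1 (by linarith)
  have v := anb_vert (D := fun τ => Θ (3 * π / 4 + τ * Complex.I) -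
      Θ (-(3 * π / 4) + τ * Complex.I))
    ((hol.continuousOn.comp_continuous (by fun_prop) r1).sub
      (hol.continuousOn.comp_continuous (by fun_prop) r2))
    (fun t => by
      rw [← hev _ (r1 t), ← hev _ (r2 t), neg_sub]
      congr 2 <;> push_cast <;> ring) (by linarith) hJ0 hJ h1
  have s1 := anb_small h2
  have s2 := anb_small (g := -g) (by rwa [Complex.neg_im, abs_neg])
  rw [anb_neg, norm_inv] at s2
  have u1 : ∀ x : ℝ, ‖yy g * yy (x + τ₀ * Complex.I)‖ = ‖yy g‖ * exp (-4 * τ₀ / 3) :=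
    fun x => by rw [norm_mul, nw]
  have u2 : ∀ x : ℝ, ‖(yy g)⁻¹ * yy (x + τ₀ * Complex.I)‖ = ‖yy g‖⁻¹ * exp (-4 * τ₀ / 3) :=
    fun x => by rw [norm_mul, nw, norm_inv]
  have w1 : ∀ x : ℝ, ‖yy g * yy (x + τ₀ * Complex.I)‖ < 1 := fun x => by linarith [u1 x]
  have w2 : ∀ x : ℝ, ‖(yy g)⁻¹ * yy (x + τ₀ * Complex.I)‖ < 1 := fun x => by linarith [u2 x]
  have b := bd (f := fun x => (yy g * yy (x + τ₀ * Complex.I)) ^ 3 /
      (1 - yy g * yy (x + τ₀ * Complex.I)) + ((yy g)⁻¹ * yy (x + τ₀ * Complex.I)) ^ 3 /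
      (1 - (yy g)⁻¹ * yy (x + τ₀ * Complex.I)))
    fun x => norm_add_le_of_le ((anb_rem ((u1 x).trans_le s1)).trans (by rw [u1]))
      ((anb_rem ((u2 x).trans_le s2)).trans (by rw [u2]))
  have ii : ∀ {f : ℝ → ℂ}, Continuous f → IntervalIntegrable
      (fun x : ℝ => Θ (x + τ₀ * Complex.I) * f x) MeasureTheory.volume (-(3 * π / 4))
      (3 * π / 4) := fun hf => (cθ.mul hf.continuousOn).intervalIntegrable
  have c1 : Continuous fun x : ℝ => (1 - yy g * yy (x + τ₀ * Complex.I))⁻¹ :=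
    Continuous.inv₀ (by fun_prop) fun x => anb_ne (w1 x)
  have c2 : Continuous fun x : ℝ => (1 - (yy g)⁻¹ * yy (x + τ₀ * Complex.I))⁻¹ :=
    Continuous.inv₀ (by fun_prop) fun x => anb_ne (w2 x)
  have e1 : ∫ x in -(3 * π / 4)..(3 * π / 4), Θ (x - τ₀ * Complex.I) *
      (yy (x - τ₀ * Complex.I) / (yy (x - τ₀ * Complex.I) - yy g)) =
      ∫ x in -(3 * π / 4)..(3 * π / 4), Θ (x + τ₀ * Complex.I) *
        (1 - yy g * yy (x + τ₀ * Complex.I))⁻¹ := by
    have := intervalIntegral.integral_comp_neg (a := -(3 * π / 4)) (b := 3 * π / 4)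
      fun x : ℝ => Θ (x + τ₀ * Complex.I) * (1 - yy g * yy (x + τ₀ * Complex.I))⁻¹
    rw [neg_neg] at this
    rw [← this]
    refine intervalIntegral.integral_congr fun x h => ?_
    have a1 := yy_ne (x - τ₀ * Complex.I)
    rw [show ((-x : ℝ) : ℂ) + τ₀ * Complex.I = -(x - τ₀ * Complex.I) by push_cast; ring, anb_neg,
      hev _ (by rw [show (x - τ₀ * Complex.I : ℂ).re = x by simp]; linarith [hx x h])]
    field_simp
  have e2 : ∫ x in -(3 * π / 4)..(3 * π / 4), Θ (x + τ₀ * Complex.I) *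
      (yy (x + τ₀ * Complex.I) / (yy (x + τ₀ * Complex.I) - yy g)) =
      ∫ x in -(3 * π / 4)..(3 * π / 4), Θ (x + τ₀ * Complex.I) *
        (1 - (1 - (yy g)⁻¹ * yy (x + τ₀ * Complex.I))⁻¹) := by
    refine intervalIntegral.integral_congr fun x _ => ?_
    have a1 := yy_ne g
    have a2 := anb_ne (w2 x)
    have a3 : yy (x + τ₀ * Complex.I) - yy g ≠ 0 := fun e => a2 (by
      field_simp
      linear_combination -e)
    congr 1
    rw [eq_sub_iff_add_eq, ← eq_sub_iff_add_eq', eq_comm]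
    refine eq_inv_of_mul_eq_one_left ?_
    field_simp
    ring
  have c3 : Continuous fun x : ℝ => (yy g * yy (x + τ₀ * Complex.I)) ^ 3 /
      (1 - yy g * yy (x + τ₀ * Complex.I)) + ((yy g)⁻¹ * yy (x + τ₀ * Complex.I)) ^ 3 /
      (1 - (yy g)⁻¹ * yy (x + τ₀ * Complex.I)) :=
    (Continuous.div (by fun_prop) (by fun_prop) fun x => anb_ne (w1 x)).add
      (Continuous.div (by fun_prop) (by fun_prop) fun x => anb_ne (w2 x))
  have i0 := cθ.intervalIntegrable (μ := MeasureTheory.volume)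
  have i1 := (ii (f := fun x => yy (x + τ₀ * Complex.I)) (by fun_prop)).mul_const
    (yy g + (yy g)⁻¹)
  have i2 := (ii (f := fun x => yy (x + τ₀ * Complex.I) ^ 2) (by fun_prop)).mul_const
    (yy g ^ 2 + (yy g)⁻¹ ^ 2)
  have e3 := intervalIntegral.integral_congr (μ := MeasureTheory.volume) (a := -(3 * π / 4))
    (b := 3 * π / 4) (f := fun x : ℝ => Θ (x + τ₀ * Complex.I) *
      (1 - yy g * yy (x + τ₀ * Complex.I))⁻¹ - Θ (x + τ₀ * Complex.I) *
        (1 - (1 - (yy g)⁻¹ * yy (x + τ₀ * Complex.I))⁻¹))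
    (g := fun x : ℝ => Θ (x + τ₀ * Complex.I) +
      Θ (x + τ₀ * Complex.I) * yy (x + τ₀ * Complex.I) * (yy g + (yy g)⁻¹) +
      Θ (x + τ₀ * Complex.I) * yy (x + τ₀ * Complex.I) ^ 2 * (yy g ^ 2 + (yy g)⁻¹ ^ 2) +
      Θ (x + τ₀ * Complex.I) * ((yy g * yy (x + τ₀ * Complex.I)) ^ 3 /
      (1 - yy g * yy (x + τ₀ * Complex.I)) + ((yy g)⁻¹ * yy (x + τ₀ * Complex.I)) ^ 3 /
      (1 - (yy g)⁻¹ * yy (x + τ₀ * Complex.I)))) fun x _ => by
        simp only
        rw [← mul_sub, anb_exp (w1 x) (w2 x)]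
        ring
  rw [intervalIntegral.integral_sub (ii c1) (ii (f := fun x => 1 - (1 - (yy g)⁻¹ * yy (x + τ₀ * Complex.I))⁻¹)
      (continuous_const.sub c2)),
    intervalIntegral.integral_add ((i0.add i1).add i2) (ii c3),
    intervalIntegral.integral_add (i0.add i1) i2, intervalIntegral.integral_add i0 i1,
    intervalIntegral.integral_mul_const, intervalIntegral.integral_mul_const] at e3
  rw [e1, e2, e3] at cf
  generalize (∫ x in -(3 * π / 4)..(3 * π / 4), Θ (x + τ₀ * Complex.I) *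
    ((yy g * yy (x + τ₀ * Complex.I)) ^ 3 / (1 - yy g * yy (x + τ₀ * Complex.I)) +
    ((yy g)⁻¹ * yy (x + τ₀ * Complex.I)) ^ 3 / (1 - (yy g)⁻¹ * yy (x + τ₀ * Complex.I)))) = A
    at cf b
  have hπ : (π : ℂ) ≠ 0 := Complex.ofReal_ne_zero.2 pi_pos.ne'
  have n3 : ‖(2 / (3 * π) * Complex.I : ℂ)‖ ≤ 1 := by
    rw [norm_mul, Complex.norm_I, mul_one, show (2 / (3 * π) : ℂ) = (2 / (3 * π) : ℝ) by
      push_cast; rfl, Complex.norm_real, Real.norm_of_nonneg (by positivity),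
      div_le_one (by positivity)]
    linarith
  have cp := anb_pos h1
  have key := mul_le_mul_of_nonneg_right (norm_add_le_of_le b ((norm_mul_le _ _).trans
    (mul_le_of_le_one_left (norm_nonneg ((∫ τ in -τ₀..τ₀,
      (Θ (3 * π / 4 + τ * Complex.I) - Θ (-(3 * π / 4) + τ * Complex.I)) *
        ((exp (-4 * τ / 3) : ℝ) / ((exp (-4 * τ / 3) : ℝ) + yy g))) + ∫ τ in (0 : ℝ)..τ₀,
      (Θ (3 * π / 4 + τ * Complex.I) - Θ (-(3 * π / 4) + τ * Complex.I)))) n3))) cp.le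
  refine le_trans (le_of_eq ?_) (key.trans ?_)
  · congr 2
    linear_combination 2 / (3 * π) * cf - Θ g * mul_inv_cancel₀ hπ
  · rw [add_mul]
    refine add_le_add ((mul_le_of_le_one_right (by positivity) (cos_le_one _)).trans
      (le_of_eq (by ring))) v

end Pool.Agent.Lib.MP_4960b8_pr.PT
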