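import Pool.Agent.Lib.MP_4960b8_pr.PT.St
import Pool.Agent.Lib.MP_4960b8_pr.PT.AnA
import Pool.Agent.Lib.MP_4960b8_pr.QK.CombB
import Pool.Agent.Lib.MP_4960b8_pr.QK.AnaE

/-! Bounds on the solution of the boundary value problem (plan N0, N1, N6). -/

namespace Pool.Agent.Lib.MP_4960b8_pr.PT

open QK Real Polynomial

noncomputable def WW (T : ℕ) (y : ℂ) : ℂ :=
  (1 - y) * (1 + y ^ 2) ^ T * (1 - √3 * y + y ^ 2) ^ (2 * T + 1)

/-- the polynomial `-PhiH` -/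
noncomputable def FP (T : ℕ) (Pl : ℂ[X]) : ℂ[X] :=
  -((X ^ 2 - 1) * (X ^ 2 - C (c18 : ℂ) * X + 1) ^ (2 * T + 1) *
    (X ^ 2 - C (c38 : ℂ) * X + 1) ^ T * Pl)

variable {T : ℕ} {Pl : ℂ[X]}

lemma anc_phi (T : ℕ) (Pl : ℂ[X]) (x : ℂ) : (FP T Pl).eval x = -PhiH T Pl x := by
  simp [FP, PhiH]

lemma anc_yy (g : ℂ) : yy g = ev 0 g ^ 4 := by
  unfold yy ev
  rw [← Complex.exp_nat_mul]
  congr 1
  push_cast
  ring

theorem fp_fe0 (h : FE T Pl) : FE0 (FP T Pl) := fun x => by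
  simp only [anc_phi]
  linear_combination -h.2.2 x

theorem ww_ne (T : ℕ) {y : ℂ} (hy : ‖y‖ < 1) : WW T y ≠ 0 := by
  have h1 := anac_one_sub_ne (v := -y ^ 2) (by rw [norm_neg]; exact anac_pow_lt hy 1)
  rw [sub_neg_eq_add] at h1
  exact mul_ne_zero (mul_ne_zero (anac_one_sub_ne hy) (pow_ne_zero _ h1))
    (pow_ne_zero _ (anac_ne4 hy))

/-- `anac_prod`, `anac_phi`, `1 + x ^ 8 = 1 + y ^ 6` -/
theorem fp_eval (T : ℕ) (Pl : ℂ[X]) {g : ℂ} (hg : 0 < g.im) :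
    (FP T Pl).eval (Complex.exp (Complex.I * g)) = Th T Pl g * WW T (yy g) := by
  have hu := anac_ev_lt 0 hg
  have n1 := anac_one_sub_ne (anac_pow_lt hu 3)
  have n4 := anac_ne4 (anac_pow_lt hu 3)
  have s3 : ((√3 : ℝ) : ℂ) ^ 2 = 3 := by
    rw [← Complex.ofReal_pow, Real.sq_sqrt (by norm_num)]; norm_num
  rw [anc_phi, ← anac_ev0_cube, anac_phi T Pl (anac_pow_lt hu 2), anac_prod T Pl hg, anc_yy,
    show (ev 0 g ^ 3) ^ 8 = (ev 0 g ^ 4) ^ 6 by ring]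
  norm_num only at n1 n4
  generalize ev 0 g ^ 4 = y at *
  have e : 1 + y ^ 6 = (1 + y ^ 2) * (1 - √3 * y + y ^ 2) * (1 + √3 * y + y ^ 2) := by
    linear_combination (1 + y ^ 2) * y ^ 2 * s3
  unfold anacH WW
  rw [e, mul_pow, mul_pow]
  generalize 1 - (√3 : ℝ) * y + y ^ 2 = A at *
  field_simp
  ring

lemma anc_yy_lt {g : ℂ} (hg : 0 < g.im) : ‖yy g‖ < 1 := by
  rw [yy_norm, Real.exp_lt_one_iff]
  linarith

theorem th_hol (T : ℕ) (Pl : ℂ[X]) : DifferentiableOn ℂ (Th T Pl) {z | 0 < z.im} := by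
  have d1 : Differentiable ℂ fun g : ℂ => (FP T Pl).eval (Complex.exp (Complex.I * g)) :=
    (FP T Pl).differentiable.comp (by fun_prop)
  have d2 : Differentiable ℂ fun g : ℂ => WW T (yy g) := by
    unfold WW yy
    fun_prop
  refine (d1.differentiableOn.div d2.differentiableOn fun g hg =>
    ww_ne T (anc_yy_lt hg)).congr fun g hg => ?_
  rw [Pi.div_apply, fp_eval T Pl hg, mul_div_cancel_right₀ _ (ww_ne T (anc_yy_lt hg))]

lemma anc_rh (h : Hyp T Pl) : ∃ b, RH T 1 b (Th T Pl) := by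
  have k := th_rh h.fe h.real
  rw [h.one, Complex.one_re] at k
  exact ⟨_, k⟩

lemma anc_bd {b : ℝ} {Θ : ℂ → ℂ} (hT : 1000 ≤ T) (h : RH T 1 b Θ) {x τ : ℝ} (h0 : 0 ≤ x)
    (h1 : x ≤ 3 * π / 4) (hτ : 0 ≤ τ) :
    ‖Θ (pt x τ) - 1‖ * cos (2 * x / 3) ≤ 4 * √(2 * T * exp (-4 * τ / 3)) := by
  have a := (h.apriori hT zero_le_one).1 x τ (anad_abs h0 h1)
  obtain ⟨b1, b2⟩ := h.stepA hT h0 h1 hτ
  obtain ⟨s0, s1⟩ := anae_sin h0 h1
  have c0 : 0 ≤ cos (2 * x / 3) :=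
    cos_nonneg_of_neg_pi_div_two_le_of_le (by linarith [pi_pos]) (by linarith)
  have c1 := cos_le_one (2 * x / 3)
  have e1 := anad_sqrt T τ
  have e2 := anae_sqrt T τ
  rw [show -2 * τ / 3 = -(2 * τ / 3) by ring] at e2 b1 b2
  rw [anad_cos, one_mul, Complex.mul_re] at a
  simp only [Complex.sub_re, Complex.sub_im, Complex.ofReal_re, Complex.ofReal_im] at a
  have n := Complex.norm_le_abs_re_add_abs_im (Θ (pt x τ) - 1)
  simp only [Complex.sub_re, Complex.sub_im, Complex.one_re, Complex.one_im, sub_zero] at n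
  have hE := exp_pos (-(2 * τ / 3))
  have k1 : 1 / 2 ≤ cosh (2 * τ / 3) * exp (-(2 * τ / 3)) := by
    rw [cosh_eq]
    have e : exp (2 * τ / 3) * exp (-(2 * τ / 3)) = 1 := by rw [← exp_add]; simp
    nlinarith
  have k2 : 0 ≤ sinh (2 * τ / 3) := sinh_nonneg_iff.2 (by linarith)
  have k3 := (sinh_lt_cosh (2 * τ / 3)).le
  have k4 := cosh_pos (2 * τ / 3)
  have hR : 0 ≤ √((T : ℝ) / 2) := sqrt_nonneg _
  have hS : 0 ≤ √(2 * (T : ℝ)) := sqrt_nonneg _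
  generalize √(2 * T * exp (-4 * τ / 3)) = W at *
  generalize exp (-(2 * τ / 3)) = E at *
  generalize √((T : ℝ) / 2) = R at *
  generalize √(2 * (T : ℝ)) = S at *
  generalize cosh (2 * τ / 3) = ch at *
  generalize sinh (2 * τ / 3) = sh at *
  generalize cos (2 * x / 3) = c at *
  generalize sin (2 * x / 3) = s at *
  generalize ‖Θ (pt x τ) - 1‖ = N at *
  generalize (Θ (pt x τ)).re = p at *
  generalize (Θ (pt x τ)).im = q at *
  have W0 : 0 ≤ W := by rw [e2]; positivity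
  have q1 : |q| ≤ 1.5 * W := by
    have : S * (E * s) ≤ W := by rw [e2]; exact mul_le_mul_of_nonneg_left (by nlinarith) hS
    have : 0 ≤ S * (E * s) := by positivity
    rw [abs_le]
    constructor <;> linarith
  have q2 : |q * (s * sh)| ≤ |q| * ch := by
    rw [abs_mul, abs_of_nonneg (mul_nonneg s0 k2)]
    exact mul_le_mul_of_nonneg_left (by nlinarith) (abs_nonneg _)
  have p1 : |p - 1| * c * ch ≤ R + |q| * ch := by
    have e : |p - 1| * c * ch = |(1 - p) * (c * ch)| := by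
      rw [abs_mul, abs_of_nonneg (mul_nonneg c0 k4.le), abs_sub_comm, mul_assoc]
    have := abs_add_le ((1 - p) * (c * ch) - (0 - q) * -(s * sh)) (q * (s * sh))
    rw [show (1 - p) * (c * ch) - (0 - q) * -(s * sh) + q * (s * sh) = (1 - p) * (c * ch) by ring]
      at this
    linarith
  have p2 : |p - 1| * c ≤ W + |q| := by
    refine le_of_mul_le_mul_right ?_ k4
    have : R ≤ W * ch := by rw [e1]; nlinarith
    linarith
  have := mul_le_mul_of_nonneg_right n c0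
  have := mul_le_of_le_one_right (abs_nonneg q) c1
  linarith

/-- `RH.apriori.1`, `RH.stepA`, `anad_refl`, `anad_cos` -/
theorem th_bd (hT : 1000 ≤ T) (h : Hyp T Pl) {z : ℂ} (h1 : |z.re| ≤ 3 * π / 4) (h2 : 0 ≤ z.im) :
    ‖Th T Pl z - 1‖ * cos (2 * z.re / 3) ≤ 4 * √(2 * T * ‖yy z‖) := by
  obtain ⟨b, k⟩ := anc_rh h
  rw [yy_norm]
  rcases le_total 0 z.re with h0 | h0
  · have := anc_bd hT k h0 (le_of_abs_le h1) h2
    rwa [anaa_pt_eq] at this
  · have := anc_bd hT k (x := -z.re) (by linarith) (by linarith [(abs_le.1 h1).1]) h2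
    rw [anad_refl k h1, anaa_pt_eq, show 2 * -z.re / 3 = -(2 * z.re / 3) by ring, cos_neg,
      ← Complex.norm_conj, map_sub, Complex.conj_conj, map_one] at this
    exact this

lemma anc_lam (T : ℕ) {Y : ℝ} (h0 : 0 < Y) (h1 : Y ≤ 1) : ‖Lam T Y‖ ≤ exp (-(0.9 * (T * Y))) := by
  have a : lf0 Y ≤ exp (-(0.9 * Y)) := by
    refine le_trans ?_ (add_one_le_exp _)
    have s1 := anab_s3_lo
    have s2 := anab_s3_hi
    have : 0.9 * Y ≤ 2 * √3 * Y / (1 + √3 * Y + Y ^ 2) := by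
      rw [le_div_iff₀ (anab_D_pos h0)]
      have : 0.9 * (1 + √3 * Y + Y ^ 2) ≤ 2 * √3 := by nlinarith
      nlinarith
    rw [anab_lf0_eq h0]
    linarith
  have b : ‖(lf0 Y : ℂ) * lfp Y‖ ≤ exp (-(0.9 * Y)) := by
    rw [norm_mul, Complex.norm_real, Real.norm_eq_abs, abs_of_nonneg (anab_lf0_nonneg h0)]
    exact (mul_le_of_le_one_right (anab_lf0_nonneg h0) (anab_lfp_le h0)).trans a
  rw [Lam, norm_mul, norm_pow, show -(0.9 * (T * Y)) = T * -(0.9 * Y) by ring, exp_nat_mul]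
  exact (mul_le_of_le_one_right (by positivity) (anab_lla_le h0 h1)).trans
    (pow_le_pow_left₀ (norm_nonneg _) b T)

/-- `RH.bd`, `lf0 Y ≤ exp (-0.9 Y)`, `RH.apriori.2`, `anad_refl` -/
theorem th_line (hT : 1000 ≤ T) (h : Hyp T Pl) {τ : ℝ} (hτ : 0 < τ) :
    ‖Th T Pl (3 * π / 4 + τ * Complex.I) - Th T Pl (-(3 * π / 4) + τ * Complex.I)‖ ≤
      2 * exp (-(0.9 * (T * exp (-4 * τ / 3)))) * (1 + √(2 * (T * exp (-4 * τ / 3)))) := by
  obtain ⟨b, k⟩ := anc_rh h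
  have e1 : (3 * π / 4 + τ * Complex.I : ℂ) = pt (3 * π / 4) τ := by rw [pt]; push_cast; ring
  have e2 : (-(3 * π / 4) + τ * Complex.I : ℂ) = pt (-(3 * π / 4)) τ := by
    rw [pt]; push_cast; ring
  have a := (k.apriori hT zero_le_one).2 τ hτ
  rw [one_mul, Complex.ofReal_one, mul_assoc] at a
  have a2 : ‖Th T Pl (pt (π / 4) τ)‖ ≤ 1 + √(2 * (T * exp (-4 * τ / 3))) := by
    have := norm_sub_le (1 : ℂ) (1 - Th T Pl (pt (π / 4) τ))
    rw [sub_sub_cancel, norm_one] at this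
    linarith
  rw [e1, e2, anad_refl k anad_r, Complex.sub_conj, norm_mul, Complex.norm_I, mul_one,
    Complex.norm_real, Real.norm_eq_abs, abs_mul, abs_two, k.bd τ hτ, mul_assoc]
  refine mul_le_mul_of_nonneg_left ((Complex.abs_im_le_norm _).trans ?_) zero_le_two
  rw [norm_mul]
  exact mul_le_mul (anc_lam T (exp_pos _) (anae_Y hτ.le)) a2 (norm_nonneg _) (exp_pos _).le

end Pool.Agent.Lib.MP_4960b8_pr.PT
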