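import Pool.Agent.Lib.MP_4960b8_pr.PT.AnC

/-! The jump across the boundary of the strip (plan N2, N3). -/

namespace Pool.Agent.Lib.MP_4960b8_pr.PT

open QK Real Polynomial

lemma anj_pow (a b : ℂ) (n : ℕ) :
    ‖(1 + a) * (1 + b) ^ n - 1‖ ≤ exp (‖a‖ + n * ‖b‖) - 1 := by
  induction n with
  | zero => simpa using by linarith [add_one_le_exp ‖a‖]
  | succ n ih =>
    have e : (1 + a) * (1 + b) ^ (n + 1) - 1 =
        ((1 + a) * (1 + b) ^ n - 1) * (1 + b) + b := by ring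
    have h1 : ‖1 + b‖ ≤ 1 + ‖b‖ := by simpa using norm_add_le 1 b
    have h2 := add_one_le_exp ‖b‖
    have h3 := exp_pos (‖a‖ + n * ‖b‖)
    have h4 : exp (‖a‖ + (n + 1 : ℕ) * ‖b‖) = exp (‖a‖ + n * ‖b‖) * exp ‖b‖ := by
      rw [← exp_add]; congr 1; push_cast; ring
    have h5 := mul_le_mul ih h1 (norm_nonneg _) ((norm_nonneg _).trans ih)
    rw [e, h4]
    refine (norm_add_le _ _).trans ?_
    rw [norm_mul]
    nlinarith

lemma anj_s3 : (√3 : ℝ) ≤ 7 / 4 := by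
  rw [sqrt_le_iff]; norm_num

lemma anj_s3' : (3 / 2 : ℝ) ≤ √3 := by
  rw [le_sqrt'] <;> norm_num

lemma anj_loc : ∃ K : ℝ, 0 < K ∧ ∀ y : ℂ, ‖y‖ ≤ 1 / 4 →
    ‖(1 - y) * (1 - √3 * y + y ^ 2) - 1‖ ≤ K * ‖y‖ ∧
    ‖(1 + y ^ 2) * (1 - √3 * y + y ^ 2) ^ 2 * Complex.exp (2 * √3 * y) - 1‖ ≤ K * ‖y‖ ^ 2 := by
  have s3 : ((√3 : ℝ) : ℂ) ^ 2 = 3 := by
    rw [← Complex.ofReal_pow, sq_sqrt (by norm_num)]; norm_num
  have bd : ∀ f : ℂ → ℂ, Continuous f → ∃ K : ℝ, 0 < K ∧ ∀ y : ℂ, ‖y‖ ≤ 1 / 4 → ‖f y‖ ≤ K := by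
    intro f hf
    obtain ⟨K, hK⟩ := (isCompact_closedBall (0 : ℂ) (1 / 4)).exists_bound_of_continuousOn
      hf.continuousOn
    exact ⟨max K 1, by positivity, fun y hy => (hK y (by simpa using hy)).trans (le_max_left _ _)⟩
  obtain ⟨K1, p1, h1⟩ := bd (fun y => -1 - √3 + (1 + √3) * y - y ^ 2) (by fun_prop)
  obtain ⟨K2, p2, h2⟩ := bd (fun y => (1 + y ^ 2) * (1 - √3 * y + y ^ 2) ^ 2) (by fun_prop)
  obtain ⟨K3, p3, h3⟩ := bd (fun y => -12 + (6 - 4 * √3 * y + 6 * y ^ 2 - 2 * √3 * y ^ 3 + y ^ 4) *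
    (1 + 2 * √3 * y)) (by fun_prop)
  refine ⟨K1 + K3 + 13 * K2, by positivity, fun y hy => ⟨?_, ?_⟩⟩
  · have e : (1 - y) * (1 - √3 * y + y ^ 2) - 1 = (-1 - √3 + (1 + √3) * y - y ^ 2) * y := by ring
    rw [e, norm_mul]
    exact mul_le_mul_of_nonneg_right ((h1 y hy).trans (by linarith)) (norm_nonneg _)
  · have n1 : ‖(2 * √3 * y : ℂ)‖ = 2 * √3 * ‖y‖ := by
      simp [abs_of_nonneg (sqrt_nonneg 3)]
    have n0 := norm_nonneg y
    have n2 := Complex.norm_exp_sub_one_sub_id_le (x := 2 * √3 * y)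
      (by rw [n1]; nlinarith [anj_s3])
    have n3 : (2 * √3 * ‖y‖) ^ 2 = 12 * ‖y‖ ^ 2 := by
      rw [mul_pow, mul_pow, sq_sqrt (by norm_num)]; ring
    rw [n1, n3] at n2
    have e : (1 + y ^ 2) * (1 - √3 * y + y ^ 2) ^ 2 * Complex.exp (2 * √3 * y) - 1 =
        (-12 + (6 - 4 * √3 * y + 6 * y ^ 2 - 2 * √3 * y ^ 3 + y ^ 4) * (1 + 2 * √3 * y)) * y ^ 2 +
        (1 + y ^ 2) * (1 - √3 * y + y ^ 2) ^ 2 *
          (Complex.exp (2 * √3 * y) - 1 - 2 * √3 * y) := by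
      linear_combination (-3 * y ^ 2 + y ^ 4 + 2 * √3 * y ^ 3 + 2 * √3 * y ^ 5) * s3
    rw [e]
    refine (norm_add_le _ _).trans ?_
    rw [norm_mul, norm_mul _ (_ - _ - _), norm_pow]
    have a1 := mul_le_mul_of_nonneg_right (h3 y hy) (sq_nonneg ‖y‖)
    have a2 := mul_le_mul (h2 y hy) n2 (norm_nonneg _) p2.le
    nlinarith [sq_nonneg ‖y‖]

theorem ww_lim (ρ : ℝ) {η : ℝ} (hη : 0 < η) : ∃ T₀ : ℕ, ∀ T : ℕ, T₀ ≤ T → ∀ y : ℂ,
    T * ‖y‖ ≤ ρ → ‖WW T y * Complex.exp (2 * √3 * T * y) - 1‖ ≤ η := by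
  obtain ⟨K, hK, h⟩ := anj_loc
  have hl : 0 < log (1 + η) := log_pos (by linarith)
  obtain ⟨T₀, hT⟩ := exists_nat_ge (max (4 * |ρ| + 1) (K * (|ρ| + ρ ^ 2) / log (1 + η)))
  refine ⟨T₀, fun T hT' y hy => ?_⟩
  have t0 : (T₀ : ℝ) ≤ T := by exact_mod_cast hT'
  have t1 : 4 * |ρ| + 1 ≤ T := ((le_max_left _ _).trans hT).trans t0
  have t2 := (div_le_iff₀ hl).1 (((le_max_right _ _).trans hT).trans t0)
  have n0 := norm_nonneg y
  have r0 := abs_nonneg ρ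
  have r1 := le_abs_self ρ
  have tp : (0 : ℝ) < T := by linarith
  obtain ⟨h1, h2⟩ := h y (by nlinarith)
  have e : WW T y * Complex.exp (2 * √3 * T * y) = (1 + ((1 - y) * (1 - √3 * y + y ^ 2) - 1)) *
      (1 + ((1 + y ^ 2) * (1 - √3 * y + y ^ 2) ^ 2 * Complex.exp (2 * √3 * y) - 1)) ^ T := by
    rw [add_sub_cancel, add_sub_cancel, mul_pow, mul_pow, ← Complex.exp_nat_mul, WW, ← pow_mul,
      show (T : ℂ) * (2 * √3 * y) = 2 * √3 * T * y by ring]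
    ring
  rw [e]
  refine (anj_pow _ _ T).trans ?_
  rw [sub_le_iff_le_add, add_comm η, ← le_log_iff_exp_le (by linarith)]
  refine le_of_mul_le_mul_left ?_ tp
  have a1 : (T * ‖y‖) ^ 2 ≤ ρ ^ 2 := pow_le_pow_left₀ (by positivity) hy 2
  have a2 := mul_le_mul_of_nonneg_left h1 tp.le
  have a3 := mul_le_mul_of_nonneg_left h2 (sq_nonneg (T : ℝ))
  have a4 := mul_le_mul_of_nonneg_left a1 hK.le
  have a5 := mul_le_mul_of_nonneg_left (hy.trans r1) hK.le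
  nlinarith

lemma anj_add (z w : ℂ) : yy (z + w) = yy z * yy w := by
  rw [yy, yy, yy, ← Complex.exp_add]; congr 1; ring

lemma anj_real (x : ℝ) : yy x = ⟨cos (4 * x / 3), sin (4 * x / 3)⟩ := by
  rw [yy, show 4 * Complex.I * x / 3 = ((4 * x / 3 : ℝ) : ℂ) * Complex.I by push_cast; ring]
  exact Complex.ext (Complex.exp_ofReal_mul_I_re _) (Complex.exp_ofReal_mul_I_im _)

lemma anj_p3 (z : ℂ) : yy (z + 3 * π / 4) = -yy z := by
  rw [anj_add, yy.eq_def (3 * π / 4), show 4 * Complex.I * (3 * π / 4) / 3 = π * Complex.I by ring,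
    Complex.exp_pi_mul_I, mul_neg_one]

lemma anj_m3 (z : ℂ) : yy (z - 3 * π / 4) = -yy z := by
  rw [← neg_eq_iff_eq_neg, ← anj_p3, sub_add_cancel]

lemma anj_re {z : ℂ} (hz : |z.re| ≤ 3 / 16) :
    31 / 32 * ‖yy z‖ ≤ (yy z).re ∧ |(yy z).im| ≤ ‖yy z‖ / 4 := by
  have h0 := norm_nonneg (yy z)
  have e : (4 * Complex.I * z / 3).im = 4 * z.re / 3 := by simp
  have e1 : (yy z).re = ‖yy z‖ * cos (4 * z.re / 3) := by
    rw [yy, Complex.exp_re, Complex.norm_exp, e]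
  have e2 : (yy z).im = ‖yy z‖ * sin (4 * z.re / 3) := by
    rw [yy, Complex.exp_im, Complex.norm_exp, e]
  obtain ⟨a1, a2⟩ := abs_le.1 hz
  have c1 := one_sub_sq_div_two_le_cos (x := 4 * z.re / 3)
  have c2 : |sin (4 * z.re / 3)| ≤ 1 / 4 :=
    abs_sin_le_abs.trans (abs_le.2 ⟨by linarith, by linarith⟩)
  refine ⟨?_, ?_⟩
  · rw [e1, mul_comm]
    exact mul_le_mul_of_nonneg_left (by nlinarith) h0
  · rw [e2, abs_mul, abs_of_nonneg h0]
    linarith [mul_le_mul_of_nonneg_left c2 h0]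

lemma anj_side {T : ℕ} {Pl : ℂ[X]} (hT : 1000 ≤ T) (h : Hyp T Pl) {z : ℂ} (hz : |z.re| ≤ 3 / 16)
    (hi : 0 < z.im) {x : ℝ} (hx : |x| = π / 4)
    (hW : ‖WW T (yy (z + x)) * Complex.exp (2 * √3 * T * yy (z + x)) - 1‖ ≤ 1 / 2) :
    ‖Th T Pl (z + x) * WW T (yy (z + x))‖ ≤ 12 * (1 + √(T * ‖yy z‖)) *
      exp (-(2 * √3 * T * ‖yy z‖)) * exp (2 * √3 * T * (yy z).re) := by
  have hn : ‖yy (z + x)‖ = ‖yy z‖ := by simp [yy_norm]
  have hp := pi_lt_d2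
  have hp' := pi_gt_three
  have hr : |(z + x).re| ≤ 3 / 16 + π / 4 := by
    rw [Complex.add_re, Complex.ofReal_re, ← hx]; exact (abs_add_le _ _).trans (by linarith)
  have b1 := th_bd hT h (z := z + x) (hr.trans (by linarith)) (by simpa using hi.le)
  obtain ⟨a1, a2⟩ := abs_le.1 hr
  have c1 := one_sub_sq_div_two_le_cos (x := 2 * (z + x).re / 3)
  have c2 : 3 / 4 ≤ cos (2 * (z + x).re / 3) := by nlinarith
  have s0 := sqrt_nonneg (T * ‖yy z‖)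
  have s1 : √(2 * T * ‖yy (z + x)‖) ≤ 3 / 2 * √(T * ‖yy z‖) := by
    rw [hn, sqrt_le_iff, mul_pow, sq_sqrt (by positivity)]
    exact ⟨by positivity, by nlinarith [mul_nonneg (Nat.cast_nonneg (α := ℝ) T) (norm_nonneg (yy z))]⟩
  have b2 : ‖Th T Pl (z + x)‖ ≤ 8 * (1 + √(T * ‖yy z‖)) := by
    have := norm_le_insert' (Th T Pl (z + x)) 1
    have := mul_le_mul_of_nonneg_left c2 (norm_nonneg (Th T Pl (z + x) - 1))
    rw [norm_one] at *
    linarith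
  have b3 : ‖WW T (yy (z + x))‖ * exp (2 * √3 * T * (yy (z + x)).re) ≤ 3 / 2 := by
    have := norm_le_insert' (WW T (yy (z + x)) * Complex.exp (2 * √3 * T * yy (z + x))) 1
    rw [norm_one, norm_mul, Complex.norm_exp] at this
    have e : (2 * √3 * T * yy (z + x) : ℂ).re = 2 * √3 * T * (yy (z + x)).re := by simp
    rw [e] at this
    linarith
  obtain ⟨d1, d2⟩ := anj_re hz
  have d3 : ‖yy z‖ ≤ (yy z).re + (yy (z + x)).re := by
    have e1 : cos (4 * x / 3) = 1 / 2 := by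
      rw [← cos_abs, abs_div, abs_mul, hx, ← cos_pi_div_three]; congr 1; norm_num; ring
    have e2 := mul_le_mul d2 (abs_sin_le_one (4 * x / 3)) (abs_nonneg _) (by positivity)
    rw [← abs_mul] at e2
    rw [anj_add, anj_real, Complex.mul_re, e1]
    linarith [le_abs_self ((yy z).im * sin (4 * x / 3)), norm_nonneg (yy z)]
  have d4 : exp (-(2 * √3 * T * (yy (z + x)).re)) ≤
      exp (-(2 * √3 * T * ‖yy z‖)) * exp (2 * √3 * T * (yy z).re) := by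
    rw [← exp_add, exp_le_exp]
    linarith [mul_le_mul_of_nonneg_left d3 (by positivity : 0 ≤ 2 * √3 * (T : ℝ))]
  have d5 : ‖WW T (yy (z + x))‖ ≤ 3 / 2 * exp (-(2 * √3 * T * (yy (z + x)).re)) := by
    rw [exp_neg, ← div_eq_mul_inv, le_div_iff₀ (exp_pos _)]; exact b3
  rw [norm_mul]
  refine (mul_le_mul b2 (d5.trans (mul_le_mul_of_nonneg_left d4 (by norm_num))) (norm_nonneg _)
    (by positivity)).trans_eq (by ring)

theorem th_jump (ρ : ℝ) : ∃ T₀ : ℕ, ∀ T : ℕ, T₀ ≤ T → ∀ Pl : ℂ[X], Hyp T Pl → ∀ z : ℂ,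
    |z.re| ≤ 3 / 16 → 0 < z.im → T * ‖yy z‖ ≤ ρ →
    ‖Th T Pl (z + 3 * π / 4) - Th T Pl (z - 3 * π / 4)‖ ≤
      100 * (1 + √(T * ‖yy z‖)) * exp (-(2 * √3 * T * ‖yy z‖)) := by
  obtain ⟨T₀, hW⟩ := ww_lim ρ (η := 1 / 2) (by norm_num)
  refine ⟨max T₀ 1000, fun T hT Pl h z hz hi hy => ?_⟩
  replace hW := hW T ((le_max_left _ _).trans hT)
  replace hT := (le_max_right _ _).trans hT
  have hn : ∀ x : ℝ, ‖yy (z + x)‖ = ‖yy z‖ := fun x => by simp [yy_norm]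
  have hp := pi_pos
  have s1 := anj_side hT h hz hi (x := π / 4) (abs_of_pos (by linarith))
    (hW _ (by rw [hn]; exact hy))
  have s2 := anj_side hT h hz hi (x := -(π / 4)) (by rw [abs_neg, abs_of_pos (by linarith)])
    (hW _ (by rw [hn]; exact hy))
  have f := fp_fe0 h.fe (Complex.exp (Complex.I * (z - 3 * π / 4)))
  have hI : ∀ w : ℂ, Complex.exp (Complex.I * (w + π / 2)) = Complex.I * Complex.exp (Complex.I * w) :=
    fun w => by
      rw [mul_add, Complex.exp_add, mul_comm Complex.I (π / 2), Complex.exp_pi_div_two_mul_I, mul_comm]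
  have e1 := hI (z - 3 * π / 4)
  have e2 := hI (z - 3 * π / 4 + π / 2)
  have e3 := hI (z - 3 * π / 4 + π / 2 + π / 2)
  rw [e1, ← mul_assoc, Complex.I_mul_I, neg_one_mul] at e2
  rw [e2, mul_neg] at e3
  rw [← e3, ← e2, ← e1, show z - 3 * π / 4 + π / 2 + π / 2 + π / 2 = z + 3 * π / 4 by ring,
    show z - 3 * π / 4 + π / 2 + π / 2 = z + (π / 4 : ℝ) by push_cast; ring,
    show z - 3 * π / 4 + π / 2 = z + (-(π / 4) : ℝ) by push_cast; ring,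
    fp_eval _ _ (by simpa using hi), fp_eval _ _ (by simpa using hi),
    fp_eval _ _ (by simpa using hi), fp_eval _ _ (by simpa using hi), anj_p3, anj_m3] at f
  have w1 := hW (-yy z) (by rwa [norm_neg])
  have w2 : exp (2 * √3 * T * (yy z).re) ≤ 2 * ‖WW T (-yy z)‖ := by
    have := norm_le_insert (WW T (-yy z) * Complex.exp (2 * √3 * T * -yy z)) 1
    have e : (2 * √3 * T * -yy z : ℂ).re = -(2 * √3 * T * (yy z).re) := by simp
    rw [norm_one, norm_mul, Complex.norm_exp, e, exp_neg] at this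
    have h2 : 1 / 2 ≤ ‖WW T (-yy z)‖ / exp (2 * √3 * T * (yy z).re) := by
      rw [div_eq_mul_inv ‖_‖]; linarith
    rw [le_div_iff₀ (exp_pos _)] at h2
    linarith
  have g : (Th T Pl (z + 3 * π / 4) - Th T Pl (z - 3 * π / 4)) * WW T (-yy z) =
      Th T Pl (z + (π / 4 : ℝ)) * WW T (yy (z + (π / 4 : ℝ))) -
        Th T Pl (z + (-(π / 4) : ℝ)) * WW T (yy (z + (-(π / 4) : ℝ))) := by
    linear_combination -f
  have g1 := congrArg norm g
  rw [norm_mul] at g1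
  have g2 := g1.trans_le (norm_sub_le _ _)
  refine le_of_mul_le_mul_right ?_ (exp_pos (2 * √3 * T * (yy z).re))
  have g3 := mul_le_mul_of_nonneg_left w2
    (norm_nonneg (Th T Pl (z + 3 * π / 4) - Th T Pl (z - 3 * π / 4)))
  have g4 : 0 ≤ (1 + √(T * ‖yy z‖)) * exp (-(2 * √3 * T * ‖yy z‖)) *
    exp (2 * √3 * T * (yy z).re) := by positivity
  linarith

end Pool.Agent.Lib.MP_4960b8_pr.PT
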