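import Pool.Agent.Lib.MP_4960b8_pr.PT.AnE
import Pool.Agent.Lib.MP_4960b8_pr.PT.AnJ

/-! The expansion at the large scale (plan N7). -/

namespace Pool.Agent.Lib.MP_4960b8_pr.PT

open QK Real Polynomial

lemma ang_norm {l R s : ℝ} (hl : 0 < l) (hR : 0 < R) (hs : exp (-4 * s / 3) = R / l) {g : ℂ}
    (hg : |g.im - s| ≤ 1 / 2) : R / 2 ≤ l * ‖yy g‖ ∧ l * ‖yy g‖ ≤ 2 * R := by
  obtain ⟨a1, a2⟩ := abs_le.1 hg
  have e : l * ‖yy g‖ = R * exp (-4 * (g.im - s) / 3) := by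
    rw [yy_norm, show -4 * g.im / 3 = -4 * s / 3 + -4 * (g.im - s) / 3 by ring, exp_add, hs]
    field_simp
  have l2 := log_two_gt_d9
  have b1 : exp (-4 * (g.im - s) / 3) ≤ 2 := by
    rw [← le_log_iff_exp_le (by norm_num)]; linarith
  have b2 : 2⁻¹ ≤ exp (-4 * (g.im - s) / 3) := by
    rw [← log_le_iff_le_exp (by norm_num), log_inv]; linarith
  rw [e]
  constructor <;> nlinarith

lemma ang_h1 {l r n : ℝ} (hl : 0 < l) (hr : 0 < r) (h0 : 0 < n) (h1 : n ≤ 1)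
    (h2 : r ^ 8 / 2 ≤ l * n) :
    r ^ 4 / l ^ 3 * (n ^ 3 + n⁻¹ ^ 3) + (n + n⁻¹) / (l * r ^ 12) ≤ 20 / r ^ 20 := by
  have a1 : n ≤ n⁻¹ := h1.trans (one_le_inv_iff₀.2 ⟨h0, h1⟩)
  have a2 : n⁻¹ / l ≤ 2 / r ^ 8 := by
    rw [div_le_div_iff₀ hl (by positivity), inv_mul_le_iff₀ h0]; linarith
  calc _ ≤ r ^ 4 / l ^ 3 * (n⁻¹ ^ 3 + n⁻¹ ^ 3) + (n⁻¹ + n⁻¹) / (l * r ^ 12) := by gcongr
    _ = 2 * r ^ 4 * (n⁻¹ / l) ^ 3 + 2 / r ^ 12 * (n⁻¹ / l) := by field_simp; ring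
    _ ≤ 2 * r ^ 4 * (2 / r ^ 8) ^ 3 + 2 / r ^ 12 * (2 / r ^ 8) := by gcongr
    _ = _ := by field_simp; ring

lemma ang_h2 {r u q : ℝ} (hr : 2 ≤ r) (h1 : u ≤ q) (h2 : r ^ 8 / 2 ≤ q) :
    100 * (1 + √u) * exp (-q) ≤ 38400 / r ^ 20 := by
  have r8 : 2 ^ 8 ≤ r ^ 8 := by gcongr
  have q1 : 1 ≤ q := by linarith
  have a1 : √u ≤ q := by
    rw [sqrt_le_iff]; exact ⟨by linarith, by nlinarith⟩
  have a2 := pow_div_factorial_le_exp q (by linarith) 4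
  have a3 : (r ^ 8 / 2) ^ 3 ≤ q ^ 3 := by gcongr
  have a4 : r ^ 20 ≤ r ^ 24 := pow_le_pow_right₀ (by linarith) (by norm_num)
  rw [show ((Nat.factorial 4 : ℕ) : ℝ) = 24 by norm_num [Nat.factorial]] at a2
  rw [exp_neg, ← div_eq_mul_inv, div_le_div_iff₀ (exp_pos _) (by positivity)]
  calc _ ≤ 100 * (q + q) * (8 * q ^ 3) := by
        gcongr
        linarith [show (r ^ 8 / 2) ^ 3 = r ^ 24 / 8 by ring]
    _ ≤ _ := by linarith [show 100 * (q + q) * (8 * q ^ 3) = 1600 * q ^ 4 by ring]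

lemma ang_hol : Differentiable ℂ yy := by
  change Differentiable ℂ fun z : ℂ => Complex.exp (4 * Complex.I * z / 3)
  fun_prop

/-- level `R = r ^ 8`: `ρ = exp (-s)`, `2 √3 T exp (-4 s / 3) = R`,
`σ z = FP (ρ exp (i z)) exp (R yy z)`; `strip` for the remainder, `th_jump`, `ww_lim` -/
theorem scale {c : ℝ} (hc : 0 < c) : ∃ c' : ℝ, 0 < c' ∧ ∀ r : ℝ, 2 ≤ r → ∃ T₀ : ℕ, ∀ T : ℕ,
    T₀ ≤ T → ∀ (Pl : ℂ[X]) (a₀ a₁ a₂ : ℂ), Hyp T Pl → Expa c r T (Th T Pl) a₀ a₁ a₂ →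
    ‖a₀‖ ≤ c → ∃ (ρ : ℝ) (σ : ℂ → ℂ), 0 < ρ ∧ Rep ρ (r ^ 8) (FP T Pl) 0 σ ∧
      E3 (3 / 32) (r ^ 8) σ a₀ a₁ a₂ (c' / r ^ 4) := by
  refine ⟨100 * (20 * c + 38400) + 3, by positivity, fun r hr => ?_⟩
  have r0 : 0 < r := by linarith
  have r1 : 1 ≤ r := by linarith
  obtain ⟨M, hM⟩ : ∃ M, M = (20 * c + 38400) / r ^ 20 := ⟨_, rfl⟩
  have M0 : 0 < M := by rw [hM]; positivity
  obtain ⟨B, hB⟩ : ∃ B, B = 100 * M + c + 2 * (c * r ^ 2) + 2 * (c * r ^ 3) := ⟨_, rfl⟩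
  have B0 : 0 < B := by rw [hB]; positivity
  obtain ⟨T₁, hJ⟩ := th_jump (2 * r ^ 8)
  obtain ⟨T₂, hW⟩ := ww_lim (2 * r ^ 8) (η := 1 / r ^ 20 / B) (by positivity)
  obtain ⟨T₃, h3⟩ := exists_nat_ge (c * r ^ 23 + 4 * r ^ 8)
  refine ⟨max T₁ (max T₂ T₃), fun T hT Pl a₀ a₁ a₂ h ⟨e1, e2, e3⟩ e0 => ?_⟩
  replace hJ := hJ T ((le_max_left _ _).trans hT) Pl h
  replace hW := hW T (((le_max_left _ _).trans (le_max_right _ _)).trans hT)
  have t3 : (T₃ : ℝ) ≤ T := by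
    exact_mod_cast ((le_max_right _ _).trans (le_max_right _ _)).trans hT
  obtain ⟨l, hl⟩ : ∃ l : ℝ, l = 2 * √3 * T := ⟨_, rfl⟩
  have hlc : (2 * √3 * T : ℂ) = l := by rw [hl]; push_cast; ring
  have lT : (T : ℝ) ≤ l := by
    rw [hl]; nlinarith [anj_s3', Nat.cast_nonneg (α := ℝ) T]
  have R0 : 0 < r ^ 8 := by positivity
  have r8 : 8 * r ≤ r ^ 8 := by
    have : 2 ^ 7 ≤ r ^ 7 := by gcongr
    nlinarith
  have c23 : 0 < c * r ^ 23 := by positivity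
  have l0 : 0 < l := by linarith
  rw [hlc, ← hl] at e3
  rw [hlc] at hW
  rw [← hl] at hJ
  obtain ⟨s, hs'⟩ : ∃ s, s = 3 / 4 * log (l / r ^ 8) := ⟨_, rfl⟩
  have hs : exp (-4 * s / 3) = r ^ 8 / l := by
    rw [hs', show -4 * (3 / 4 * log (l / r ^ 8)) / 3 = -log (l / r ^ 8) by ring, exp_neg,
      exp_log (by positivity), inv_div]
  have s1 : 1 ≤ s := by
    have a1 : log 4 ≤ log (l / r ^ 8) :=
      log_le_log (by norm_num) (by rw [le_div_iff₀ R0]; linarith)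
    rw [show (4 : ℝ) = 2 ^ 2 by norm_num, log_pow] at a1
    have := log_two_gt_d9
    push_cast at a1
    linarith
  have n1 : ∀ g : ℂ, |g.im - s| ≤ 1 / 2 → 0 < g.im ∧ ‖yy g‖ ≤ 1 ∧ T * ‖yy g‖ ≤ l * ‖yy g‖ :=
    fun g hg => by
      have := (abs_le.1 hg).1
      exact ⟨by linarith, by rw [yy_norm, exp_le_one_iff]; linarith, by gcongr⟩
  have np : ∀ g : ℂ, 0 < ‖yy g‖ := fun g => norm_pos_iff.2 (yy_ne g)
  have key : ∀ g : ℂ, |g.re| ≤ 3 * π / 4 + 3 / 32 → |g.im - s| ≤ 1 / 4 →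
      ‖Th T Pl g - (a₀ + a₁ / l * (yy g + (yy g)⁻¹) +
        a₂ / l ^ 2 * (yy g ^ 2 + (yy g)⁻¹ ^ 2))‖ ≤ 100 * M := fun g g1 g2 => by
    refine strip (f := fun g => Th T Pl g - (a₀ + a₁ / l * (yy g + (yy g)⁻¹) +
      a₂ / l ^ 2 * (yy g ^ 2 + (yy g)⁻¹ ^ 2))) (τ := s) ?_ (fun z z1 z2 => ?_)
      (fun z z1 z2 => ?_) g1 g2
    · refine ((th_hol T Pl).mono fun z hz => ?_).sub (Differentiable.differentiableOn ?_)
      · have := (abs_lt.1 (show |z.im - s| < 1 from hz)).1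
        change 0 < z.im
        linarith
      · have := ang_hol
        have := ang_hol.fun_inv yy_ne
        fun_prop
    · obtain ⟨b1, b2⟩ := ang_norm l0 R0 hs z2
      obtain ⟨-, b3, -⟩ := n1 z z2
      have b4 : l * 1 ≤ l * ‖yy z‖⁻¹ := by gcongr; exact one_le_inv_iff₀.2 ⟨np z, b3⟩
      refine (e3 z z1 (by linarith) (by linarith)).trans ?_
      refine (mul_le_mul_of_nonneg_left (ang_h1 l0 r0 (np z) b3 b1) hc.le).trans ?_
      rw [hM, ← mul_div_assoc]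
      gcongr
      linarith
    · obtain ⟨b1, b2⟩ := ang_norm l0 R0 hs z2
      obtain ⟨b0, -, b3⟩ := n1 z z2
      simp only [anj_p3, anj_m3, sub_sub_sub_cancel_right]
      refine (hJ z z1 b0 (by linarith)).trans ((ang_h2 hr b3 b1).trans ?_)
      rw [hM]
      gcongr
      linarith
  refine ⟨exp (-s), fun z => (FP T Pl).eval (exp (-s) * Complex.exp (Complex.I * z)) *
    Complex.exp ((r ^ 8 : ℝ) * yy z), exp_pos _, fun z => ?_, ?_, fun z z1 z2 => ?_⟩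
  · rw [Complex.exp_neg, pow_zero]
    field_simp
  · have := ang_hol
    have := (FP T Pl).differentiable
    fun_prop
  obtain ⟨g, hg⟩ : ∃ g : ℂ, g = z + s * Complex.I := ⟨_, rfl⟩
  have g1 : g.re = z.re := by simp [hg]
  have g2 : g.im - s = z.im := by simp [hg]
  have g3 : |g.im - s| ≤ 1 / 2 := by rw [g2]; linarith
  have g4 : (exp (-s) : ℝ) * Complex.exp (Complex.I * z) = Complex.exp (Complex.I * g) := by
    rw [Complex.ofReal_exp, ← Complex.exp_add, hg]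
    congr 1
    push_cast
    linear_combination (-s : ℂ) * Complex.I_mul_I
  have lc : (l : ℂ) ≠ 0 := by exact_mod_cast l0.ne'
  have g5 : (r ^ 8 : ℝ) * yy z = l * yy g := by
    have : yy (s * Complex.I) = (r ^ 8 / l : ℝ) := by
      rw [← hs, Complex.ofReal_exp, yy]
      congr 1
      push_cast
      linear_combination (4 * s / 3 : ℂ) * Complex.I_mul_I
    rw [hg, anj_add, this]
    push_cast
    field_simp
  obtain ⟨b1, b2⟩ := ang_norm l0 R0 hs g3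
  obtain ⟨b0, b3, b4⟩ := n1 g g3
  have k1 := key g (by rwa [g1]) (by rw [g2]; linarith)
  have k2 := hW (yy g) (by linarith)
  have y0 := yy_ne g
  have y1 := np g
  have l1 : 1 ≤ l := by linarith
  have u1 : ‖yy g / l‖ ≤ 1 / l := by
    rw [norm_div, Complex.norm_real, norm_of_nonneg l0.le]; gcongr
  have u2 : 1 / l ≤ 1 := by rwa [div_le_one l0]
  have u3 : ‖(yy g)⁻¹ / l‖ ≤ 1 := by
    rw [norm_div, norm_inv, Complex.norm_real, norm_of_nonneg l0.le, div_le_one l0,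
      inv_le_iff_one_le_mul₀ y1]
    linarith
  have v : ∀ (a w : ℂ) (A W : ℝ) (k : ℕ), ‖a‖ ≤ A → ‖w‖ ≤ W → ‖a * w ^ k‖ ≤ A * W ^ k :=
    fun a w A W k h1 h2 => by
      rw [norm_mul, norm_pow]
      exact mul_le_mul h1 (by gcongr) (by positivity) ((norm_nonneg _).trans h1)
  have v1 := v _ _ _ _ 1 e1 u1
  have v2 := v _ _ _ _ 2 e2 u1
  have v3 := v _ _ _ _ 1 e1 u3
  have v4 := v _ _ _ _ 2 e2 u3
  have w1 : c * r ^ 2 * (1 / l) ^ 1 ≤ 1 / r ^ 20 := by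
    have : c * r ^ 22 ≤ c * r ^ 23 := by gcongr; norm_num
    rw [pow_one, mul_one_div, div_le_div_iff₀ l0 (by positivity)]
    linarith [show c * r ^ 2 * r ^ 20 = c * r ^ 22 by ring]
  have w2 : c * r ^ 3 * (1 / l) ^ 2 ≤ 1 / r ^ 20 := by
    have : l ≤ l ^ 2 := by nlinarith
    rw [one_div_pow, mul_one_div, div_le_div_iff₀ (by positivity) (by positivity)]
    linarith [show c * r ^ 3 * r ^ 20 = c * r ^ 23 by ring]
  have w3 : c * r ^ 2 * (1 / l) ^ 1 ≤ c * r ^ 2 :=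
    mul_le_of_le_one_right (by positivity) (pow_le_one₀ (by positivity) u2)
  have w4 : c * r ^ 3 * (1 / l) ^ 2 ≤ c * r ^ 3 :=
    mul_le_of_le_one_right (by positivity) (pow_le_one₀ (by positivity) u2)
  obtain ⟨E, hE⟩ : ∃ E, E = Th T Pl g - (a₀ + a₁ / l * (yy g + (yy g)⁻¹) +
    a₂ / l ^ 2 * (yy g ^ 2 + (yy g)⁻¹ ^ 2)) := ⟨_, rfl⟩
  rw [← hE] at k1
  have k3 : ‖Th T Pl g‖ ≤ B := by
    have : Th T Pl g = E + a₀ + a₁ * (yy g / l) ^ 1 + a₁ * ((yy g)⁻¹ / l) ^ 1 +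
        a₂ * (yy g / l) ^ 2 + a₂ * ((yy g)⁻¹ / l) ^ 2 := by rw [hE]; ring
    rw [this, hB]
    refine (norm_add_le_of_le (norm_add_le_of_le (norm_add_le_of_le (norm_add_le_of_le
      (norm_add_le_of_le k1 e0) v1) v3) v2) v4).trans ?_
    linarith
  have k4 : ‖Th T Pl g * (WW T (yy g) * Complex.exp (l * yy g) - 1)‖ ≤ 1 / r ^ 20 := by
    rw [norm_mul]
    exact (mul_le_mul k3 k2 (norm_nonneg _) B0.le).trans_eq (by field_simp)
  have k5 : Th T Pl g * WW T (yy g) * Complex.exp (l * yy g) -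
      (a₀ + a₁ / (l * yy g) + a₂ / (l * yy g) ^ 2) =
      Th T Pl g * (WW T (yy g) * Complex.exp (l * yy g) - 1) + E + a₁ * (yy g / l) ^ 1 +
        a₂ * (yy g / l) ^ 2 := by
    rw [hE]; field_simp; ring
  simp only [g4, g5]
  rw [fp_eval _ _ b0, k5]
  refine (norm_add_le_of_le (norm_add_le_of_le (norm_add_le_of_le k4 k1) (v1.trans w1))
    (v2.trans w2)).trans_eq ?_
  rw [hM]
  field_simp
  ring

end Pool.Agent.Lib.MP_4960b8_pr.PT
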