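import Pool.Agent.Lib.MP_4960b8_pr.PT.AnA

/-! The bilinear identities (plan N9). -/

namespace Pool.Agent.Lib.MP_4960b8_pr.PT

open Real Polynomial

lemma pr_prod {s α β γ α' β' γ' a b : ℂ} {R η M : ℝ} (hs : ‖s‖ = R) (hR : 1 ≤ R)
    (h1 : ‖α‖ ≤ M) (h2 : ‖β‖ ≤ M) (h3 : ‖γ‖ ≤ M) (h4 : ‖α'‖ ≤ M) (h5 : ‖β'‖ ≤ M)
    (h6 : ‖γ'‖ ≤ M) (h7 : η ≤ M) (ha : ‖a - (α + β / s + γ / s ^ 2)‖ ≤ η / R ^ 2)
    (hb : ‖b - (α' + β' / (-s) + γ' / (-s) ^ 2)‖ ≤ η / R ^ 2) :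
    ‖s ^ 2 * a * b - (α * α' * s ^ 2 + (β * α' - α * β') * s + (γ * α' - β * β' + α * γ'))‖ ≤
      7 * (M * η) + 3 * (M ^ 2 / R) := by
  have hR0 : 0 < R := by linarith
  have hM : 0 ≤ M := (norm_nonneg _).trans h1
  have hs0 : s ≠ 0 := by
    rintro rfl
    rw [norm_zero] at hs
    linarith
  obtain ⟨E, hE⟩ : ∃ E, E = s ^ 2 * (a - (α + β / s + γ / s ^ 2)) := ⟨_, rfl⟩
  obtain ⟨E', hE'⟩ : ∃ E', E' = s ^ 2 * (b - (α' + β' / (-s) + γ' / (-s) ^ 2)) := ⟨_, rfl⟩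
  have nE : ‖E‖ ≤ η := by
    rw [hE, norm_mul, norm_pow, hs, mul_comm, ← le_div_iff₀ (by positivity)]
    exact ha
  have nE' : ‖E'‖ ≤ η := by
    rw [hE', norm_mul, norm_pow, hs, mul_comm, ← le_div_iff₀ (by positivity)]
    exact hb
  have hη : 0 ≤ η := (norm_nonneg _).trans nE
  have id1 : s ^ 2 * a * b -
      (α * α' * s ^ 2 + (β * α' - α * β') * s + (γ * α' - β * β' + α * γ')) =
      (β * γ' - γ * β' + γ * γ' * s⁻¹) * s⁻¹ + E * (α' - β' * s⁻¹ + γ' * s⁻¹ * s⁻¹)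
        + E' * (α + β * s⁻¹ + γ * s⁻¹ * s⁻¹) + E * (E' * s⁻¹ * s⁻¹) := by
    rw [hE, hE']
    field_simp
    ring
  have hw : ‖s⁻¹‖ = R⁻¹ := by rw [norm_inv, hs]
  have hw1 : ‖s⁻¹‖ ≤ 1 := by rw [hw]; exact inv_le_one_of_one_le₀ hR
  rw [id1]
  generalize s⁻¹ = w at hw hw1
  have sm : ∀ {p : ℂ} {c : ℝ}, ‖p‖ ≤ c → ‖p * w‖ ≤ c := fun {p c} h => by
    rw [norm_mul]
    exact (mul_le_of_le_one_right (norm_nonneg _) hw1).trans h
  have mm : ∀ {p q : ℂ} {c d : ℝ}, ‖p‖ ≤ c → ‖q‖ ≤ d → ‖p * q‖ ≤ c * d := fun {p q c d} h h' => by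
    rw [norm_mul]
    exact mul_le_mul h h' (norm_nonneg _) ((norm_nonneg _).trans h)
  have t1 : ‖(β * γ' - γ * β' + γ * γ' * w) * w‖ ≤ (M * M + M * M + M * M) * R⁻¹ :=
    mm (norm_add_le_of_le (norm_sub_le_of_le (mm h2 h6) (mm h3 h5)) (sm (mm h3 h6))) hw.le
  have t2 : ‖E * (α' - β' * w + γ' * w * w)‖ ≤ η * (M + M + M) :=
    mm nE (norm_add_le_of_le (norm_sub_le_of_le h4 (sm h5)) (sm (sm h6)))
  have t3 : ‖E' * (α + β * w + γ * w * w)‖ ≤ η * (M + M + M) :=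
    mm nE' (norm_add_le_of_le (norm_add_le_of_le h1 (sm h2)) (sm (sm h3)))
  have t4 : ‖E * (E' * w * w)‖ ≤ η * M := mm nE (sm (sm (nE'.trans h7)))
  refine (norm_add_le_of_le (norm_add_le_of_le (norm_add_le_of_le t1 t2) t3) t4).trans (le_of_eq ?_)
  ring

lemma pr_norm {R : ℝ} (hR : 1 ≤ R) (x : ℝ) : ‖(R : ℂ) * yy x‖ = R := by
  rw [norm_mul, yy_norm, Complex.norm_real, Real.norm_eq_abs, abs_of_pos (by linarith)]
  simp

lemma E3.pr_real {R η : ℝ} {σ : ℂ → ℂ} {α β γ : ℂ} (h : E3 0 R σ α β γ η) {x : ℝ}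
    (hx : |x| ≤ 3 * π / 4) :
    ‖σ x - (α + β / (R * yy x) + γ / (R * yy x) ^ 2)‖ ≤ η / R ^ 2 :=
  h.bd x (by simpa using hx) (by simp)

lemma E3.pr_four {R η M : ℝ} {σ : ℂ → ℂ} {α β γ : ℂ} (h : E3 0 R σ α β γ η) (hR : 1 ≤ R)
    (h1 : ‖α‖ ≤ M) (h2 : ‖β‖ ≤ M) (h3 : ‖γ‖ ≤ M) (h7 : η ≤ M) {x : ℝ}
    (hx : |x| ≤ 3 * π / 4) : ‖σ x‖ ≤ 4 * M := by
  have a := h.pr_real hx
  have hM : 0 ≤ M := (norm_nonneg _).trans h1
  have hR2 : 1 ≤ R ^ 2 := one_le_pow₀ hR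
  have b1 : ‖β / (R * yy x)‖ ≤ M := by
    rw [norm_div, pr_norm hR]
    exact (div_le_self (norm_nonneg _) hR).trans h2
  have b2 : ‖γ / (R * yy x) ^ 2‖ ≤ M := by
    rw [norm_div, norm_pow, pr_norm hR]
    exact (div_le_self (norm_nonneg _) hR2).trans h3
  have b3 : η / R ^ 2 ≤ M := by
    rw [div_le_iff₀ (by linarith)]
    nlinarith
  have b4 := norm_add_le_of_le (a.trans b3) (norm_add_le_of_le (norm_add_le_of_le h1 b1) b2)
  rw [sub_add_cancel] at b4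
  linarith

lemma pr_exp {R : ℝ} (hR : 1 ≤ R) {x : ℝ} (hx : |x| ≤ π / 4) :
    ‖Complex.exp (-(R * yy x))‖ ≤ exp (-R / 2) := by
  rw [Complex.norm_exp, exp_le_exp]
  have e : yy x = Complex.exp ((4 * x / 3 : ℝ) * Complex.I) := by
    rw [yy]
    congr 1
    push_cast
    ring
  rw [Complex.neg_re, Complex.re_ofReal_mul, e, Complex.exp_ofReal_mul_I_re]
  have hp := pi_pos
  have c : cos (π / 3) ≤ cos |4 * x / 3| := by
    apply Real.cos_le_cos_of_nonneg_of_le_pi (abs_nonneg _) (by linarith)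
    rw [abs_le] at hx ⊢
    constructor <;> linarith [hx.1, hx.2]
  rw [cos_pi_div_three, Real.cos_abs] at c
  nlinarith

noncomputable def prv : ℂ := yy (π / 4)

lemma pr_yy_add (z w : ℂ) : yy (z + w) = yy z * yy w := by
  rw [yy, yy, yy, ← Complex.exp_add]
  congr 1
  ring

lemma prv_cube : prv ^ 3 = -1 := by
  rw [prv, yy, ← Complex.exp_nat_mul, ← Complex.exp_pi_mul_I]
  congr 1
  push_cast
  ring

lemma prv_quad : prv ^ 2 - prv + 1 = 0 := by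
  have h : prv + 1 ≠ 0 := by
    intro h
    have e : prv = Complex.exp ((π / 3 : ℝ) * Complex.I) := by
      rw [prv, yy]
      congr 1
      push_cast
      ring
    have := congrArg Complex.re h
    rw [Complex.add_re, e, Complex.exp_ofReal_mul_I_re, cos_pi_div_three] at this
    norm_num at this
  apply mul_left_cancel₀ h
  linear_combination prv_cube

lemma pr_yy_q (z : ℂ) : yy (z + π / 4) = prv * yy z := by rw [pr_yy_add, prv, mul_comm]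

lemma pr_yy_h (z : ℂ) : yy (z + π / 2) = prv ^ 2 * yy z := by
  have : z + π / 2 = z + π / 4 + π / 4 := by ring
  rw [this, pr_yy_q, pr_yy_q]
  ring

lemma pr_yy_h' (z : ℂ) : yy (z - π / 2) = -prv * yy z := by
  have h := pr_yy_h (z - π / 2)
  rw [sub_add_cancel] at h
  rw [h]
  linear_combination (yy (z - π / 2)) * prv_cube

lemma pr_ee_h (ρ z : ℂ) : ρ * Complex.exp (Complex.I * (z + π / 2)) =
    Complex.I * (ρ * Complex.exp (Complex.I * z)) := by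
  rw [mul_add, Complex.exp_add, mul_comm Complex.I (π / 2 : ℂ), Complex.exp_pi_div_two_mul_I]
  ring

lemma pr_ee_h' (ρ z : ℂ) : ρ * Complex.exp (Complex.I * (z - π / 2)) =
    -(Complex.I * (ρ * Complex.exp (Complex.I * z))) := by
  have h := pr_ee_h ρ (z - π / 2)
  rw [sub_add_cancel] at h
  rw [h]
  linear_combination (ρ * Complex.exp (Complex.I * (z - π / 2))) * Complex.I_mul_I

lemma pr_ee_q (ρ z : ℂ) : ρ * Complex.exp (Complex.I * (z + π / 4)) =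
    Complex.exp (Complex.I * (π / 4)) * (ρ * Complex.exp (Complex.I * z)) := by
  rw [mul_add, Complex.exp_add]
  ring

/-- the bilinear form that is invariant under the quarter turn -/
noncomputable def prC (A B : ℂ[X]) (ξ : ℂ) : ℂ :=
  A.eval (-(Complex.I * ξ)) * B.eval (Complex.exp (Complex.I * (π / 4)) * ξ)
    + A.eval (Complex.I * ξ) * B.eval (-(Complex.I * (Complex.exp (Complex.I * (π / 4)) * ξ)))
    + A.eval ξ * (B.eval (Complex.I * (Complex.exp (Complex.I * (π / 4)) * ξ))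
      - B.eval (Complex.exp (Complex.I * (π / 4)) * ξ))

lemma prC_turn {A B : ℂ[X]} (hA : FE0 A) (hB : FE0 B) (ξ : ℂ) :
    prC A B (Complex.I * ξ) = prC A B ξ := by
  rw [prC, prC]
  generalize Complex.exp (Complex.I * (π / 4)) = u
  have e1 : -(Complex.I * (Complex.I * ξ)) = ξ := by linear_combination (-ξ) * Complex.I_mul_I
  have e2 : Complex.I * (Complex.I * ξ) = -ξ := by linear_combination ξ * Complex.I_mul_I
  have e3 : u * (Complex.I * ξ) = Complex.I * (u * ξ) := by ring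
  have e4 : Complex.I * (Complex.I * (u * ξ)) = -(u * ξ) := by
    linear_combination (u * ξ) * Complex.I_mul_I
  rw [e1, e2, e3, e4, neg_neg]
  linear_combination (B.eval (u * ξ)) * hA ξ + (A.eval (Complex.I * ξ)) * hB (u * ξ)

lemma prC_fac {A' B' : ℂ[X]} (n : ℕ) (h0 : A'.eval 0 = 0) : ∃ d : ℂ → ℂ, Differentiable ℂ d ∧
    d 0 = 0 ∧ ∀ ξ, prC (X ^ (2 * n) * A') (X ^ (2 * n) * B') ξ = ξ ^ (4 * n) * d ξ := by
  obtain ⟨u, hu⟩ : ∃ u, u = Complex.exp (Complex.I * (π / 4)) := ⟨_, rfl⟩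
  have hA := A'.differentiable
  have hB := B'.differentiable
  have hc : ∀ (P : ℂ[X]) (c : ℂ), Differentiable ℂ fun ξ => P.eval (c * ξ) := fun P c =>
    P.differentiable.comp (differentiable_id.const_mul c)
  refine ⟨fun ξ => (-Complex.I) ^ (2 * n) * u ^ (2 * n) *
      (A'.eval (-Complex.I * ξ) * B'.eval (u * ξ))
    + Complex.I ^ (2 * n) * (-(Complex.I * u)) ^ (2 * n) *
      (A'.eval (Complex.I * ξ) * B'.eval (-(Complex.I * u) * ξ))
    + A'.eval ξ * ((Complex.I * u) ^ (2 * n) * B'.eval (Complex.I * u * ξ)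
      - u ^ (2 * n) * B'.eval (u * ξ)), ?_, ?_, fun ξ => ?_⟩
  · exact ((((hc _ _).mul (hc _ _)).const_mul _).add (((hc _ _).mul (hc _ _)).const_mul _)).add
      (hA.mul (((hc _ _).const_mul _).sub ((hc _ _).const_mul _)))
  · simp [h0]
  · rw [prC, ← hu]
    have e1 : -(Complex.I * ξ) = -Complex.I * ξ := by ring
    have e2 : -(Complex.I * (u * ξ)) = -(Complex.I * u) * ξ := by ring
    have e3 : Complex.I * (u * ξ) = Complex.I * u * ξ := by ring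
    have e4 : ξ ^ (4 * n) = ξ ^ (2 * n) * ξ ^ (2 * n) := by rw [← pow_add]; congr 1; ring
    rw [e1, e2, e3, e4]
    simp only [eval_mul, eval_pow, eval_X]
    rw [mul_pow (-Complex.I) ξ, mul_pow (-(Complex.I * u)) ξ, mul_pow (Complex.I * u) ξ,
      mul_pow u ξ, mul_pow Complex.I ξ]
    generalize (-Complex.I) ^ (2 * n) = p1
    generalize (-(Complex.I * u)) ^ (2 * n) = p2
    generalize (Complex.I * u) ^ (2 * n) = p3
    generalize Complex.I ^ (2 * n) = p4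
    generalize u ^ (2 * n) = p5
    generalize ξ ^ (2 * n) = p6
    ring

section
variable {A B : ℂ[X]} {ρ R η M : ℝ} {k k' n : ℕ} {σ σ' : ℂ → ℂ} {α β γ α' β' γ' : ℂ}

lemma pr_term (rA : Rep ρ R A k σ) (rB : Rep ρ R B k' σ')
    (hk : k + k' = 3 * n + 2) (eA : E3 0 R σ α β γ η) (eB : E3 0 R σ' α' β' γ' η)
    (hR : 1 ≤ R) (h1 : ‖α‖ ≤ M) (h2 : ‖β‖ ≤ M) (h3 : ‖γ‖ ≤ M) (h4 : ‖α'‖ ≤ M) (h5 : ‖β'‖ ≤ M)
    (h6 : ‖γ'‖ ≤ M) (h7 : η ≤ M) {x y : ℝ} (hx : |x| ≤ 3 * π / 4) (hy : |y| ≤ 3 * π / 4)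
    (hxy : yy y = -yy x) :
    ‖A.eval (ρ * Complex.exp (Complex.I * x)) * B.eval (ρ * Complex.exp (Complex.I * y)) -
      (-1) ^ k' * (R * yy x) ^ (3 * n) * (α * α' * (R * yy x) ^ 2 + (β * α' - α * β') * (R * yy x)
        + (γ * α' - β * β' + α * γ'))‖ ≤ R ^ (3 * n) * (7 * (M * η) + 3 * (M ^ 2 / R)) := by
  have hb := eB.pr_real hy
  have e : (R : ℂ) * yy y = -(R * yy x) := by rw [hxy]; ring
  rw [e] at hb
  have key := pr_prod (pr_norm hR x) hR h1 h2 h3 h4 h5 h6 h7 (eA.pr_real hx) hb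
  rw [rA, rB, e, neg_neg]
  have hn := pr_norm hR x
  generalize (R : ℂ) * yy x = s at *
  have e1 : Complex.exp (-s) * Complex.exp s = 1 := by rw [← Complex.exp_add]; simp
  have e2 : s ^ k * s ^ k' = s ^ (3 * n) * s ^ 2 := by rw [← pow_add, ← pow_add, hk]
  have e3 : Complex.exp (-s) * s ^ k * σ x * (Complex.exp s * (-s) ^ k' * σ' y) =
      (-1) ^ k' * s ^ (3 * n) * (s ^ 2 * σ x * σ' y) := by
    rw [neg_pow s]
    calc _ = (-1) ^ k' * (Complex.exp (-s) * Complex.exp s) * (s ^ k * s ^ k') * (σ x * σ' y) := by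
          ring
      _ = _ := by rw [e1, e2]; ring
  rw [e3, ← mul_sub, norm_mul, norm_mul, norm_pow, norm_pow, hn, norm_neg, norm_one, one_pow,
    one_mul]
  exact mul_le_mul_of_nonneg_left key (by positivity)

lemma pr_small (rA : Rep ρ R A k σ) (rB : Rep ρ R B k' σ')
    (hk : k + k' = 3 * n + 2) (eA : E3 0 R σ α β γ η) (eB : E3 0 R σ' α' β' γ' η)
    (hR : 1 ≤ R) (h1 : ‖α‖ ≤ M) (h2 : ‖β‖ ≤ M) (h3 : ‖γ‖ ≤ M) (h4 : ‖α'‖ ≤ M) (h5 : ‖β'‖ ≤ M)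
    (h6 : ‖γ'‖ ≤ M) (h7 : η ≤ M) {x y : ℝ} (hx : |x| ≤ π / 4) (hy : |y| ≤ π / 4) :
    ‖A.eval (ρ * Complex.exp (Complex.I * x)) * B.eval (ρ * Complex.exp (Complex.I * y))‖ ≤
      R ^ (3 * n) * (16 * (M ^ 2 * R ^ 2 * exp (-R))) := by
  have hp := pi_pos
  have hM : 0 ≤ M := (norm_nonneg _).trans h1
  have hR0 : 0 ≤ R := by linarith
  have a1 := eA.pr_four hR h1 h2 h3 h7 (x := x) (by linarith)
  have a2 := eB.pr_four hR h4 h5 h6 h7 (x := y) (by linarith)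
  have b1 := pr_exp hR hx
  have b2 := pr_exp hR hy
  rw [rA, rB, norm_mul, norm_mul, norm_mul, norm_mul, norm_mul, norm_pow, norm_pow, pr_norm hR,
    pr_norm hR]
  have e1 : exp (-R / 2) * exp (-R / 2) = exp (-R) := by rw [← exp_add]; congr 1; ring
  have e2 : R ^ k * R ^ k' = R ^ (3 * n) * R ^ 2 := by rw [← pow_add, ← pow_add, hk]
  calc _ ≤ exp (-R / 2) * R ^ k * (4 * M) * (exp (-R / 2) * R ^ k' * (4 * M)) := by gcongr
    _ = (exp (-R / 2) * exp (-R / 2)) * (R ^ k * R ^ k') * (16 * M ^ 2) := by ring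
    _ = _ := by rw [e1, e2]; ring

lemma pr_arc (hB : FE0 B) (rA : Rep ρ R A k σ) (rB : Rep ρ R B k' σ')
    (hk : k + k' = 3 * n + 2) (eA : E3 0 R σ α β γ η) (eB : E3 0 R σ' α' β' γ' η)
    (hR : 1 ≤ R) (h1 : ‖α‖ ≤ M) (h2 : ‖β‖ ≤ M) (h3 : ‖γ‖ ≤ M) (h4 : ‖α'‖ ≤ M) (h5 : ‖β'‖ ≤ M)
    (h6 : ‖γ'‖ ≤ M) (h7 : η ≤ M) {x : ℝ} (hx : |x| ≤ π / 4) :
    ‖prC A B (ρ * Complex.exp (Complex.I * x)) -
      (-1) ^ k' * (R * yy x) ^ (3 * n) * (3 * (γ * α' - β * β' + α * γ'))‖ ≤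
      R ^ (3 * n) * (21 * (M * η) + 9 * (M ^ 2 / R) + 16 * (M ^ 2 * R ^ 2 * exp (-R))) := by
  have hp := pi_pos
  obtain ⟨x1, x2⟩ := abs_le.1 hx
  have T := fun {x y : ℝ} => pr_term rA rB hk eA eB hR h1 h2 h3 h4 h5 h6 h7 (x := x) (y := y)
  have S := fun {x y : ℝ} => pr_small rA rB hk eA eB hR h1 h2 h3 h4 h5 h6 h7 (x := x) (y := y)
  have v3 := prv_cube
  have t1 := T (x := x - π / 2) (y := x + π / 4) (abs_le.2 ⟨by linarith, by linarith⟩)
    (abs_le.2 ⟨by linarith, by linarith⟩) (by push_cast; rw [pr_yy_q, pr_yy_h']; ring)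
  have t2 := T (x := x + π / 2) (y := x + π / 4 - π / 2) (abs_le.2 ⟨by linarith, by linarith⟩)
    (abs_le.2 ⟨by linarith, by linarith⟩) (by push_cast; rw [pr_yy_h', pr_yy_q, pr_yy_h]; ring)
  push_cast at t1 t2
  rw [pr_ee_h', pr_ee_q, pr_yy_h'] at t1
  rw [pr_ee_h, pr_ee_h', pr_ee_q, pr_yy_h] at t2
  have p1 : ((R : ℂ) * (-prv * yy x)) ^ (3 * n) = (R * yy x) ^ (3 * n) := by
    rw [pow_mul, pow_mul]
    congr 1
    linear_combination (-(R * yy x) ^ 3) * v3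
  have p2 : ((R : ℂ) * (prv ^ 2 * yy x)) ^ (3 * n) = (R * yy x) ^ (3 * n) := by
    rw [pow_mul, pow_mul]
    congr 1
    linear_combination ((R * yy x) ^ 3 * (prv ^ 3 - 1)) * v3
  rw [p1] at t1
  rw [p2] at t2
  have t34 : ∃ b3 b4 : ℂ,
      B.eval (Complex.I * (Complex.exp (Complex.I * (π / 4)) * (ρ * Complex.exp (Complex.I * x))))
        - B.eval (Complex.exp (Complex.I * (π / 4)) * (ρ * Complex.exp (Complex.I * x)))
        = b3 - b4 ∧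
      ‖A.eval (ρ * Complex.exp (Complex.I * x)) * b3 -
        (-1) ^ k' * (R * yy x) ^ (3 * n) * (α * α' * (R * yy x) ^ 2
          + (β * α' - α * β') * (R * yy x) + (γ * α' - β * β' + α * γ'))‖ ≤
          R ^ (3 * n) * (7 * (M * η) + 3 * (M ^ 2 / R)) ∧
      ‖A.eval (ρ * Complex.exp (Complex.I * x)) * b4‖ ≤
        R ^ (3 * n) * (16 * (M ^ 2 * R ^ 2 * exp (-R))) := by
    rcases le_total x 0 with h | h
    · have t3 := T (x := x) (y := x + π / 4 + π / 2) (abs_le.2 ⟨by linarith, by linarith⟩)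
        (abs_le.2 ⟨by linarith, by linarith⟩)
        (by push_cast; rw [pr_yy_h, pr_yy_q]; linear_combination (yy x) * v3)
      have t4 := S (x := x) (y := x + π / 4) hx (abs_le.2 ⟨by linarith, by linarith⟩)
      push_cast at t3 t4
      rw [pr_ee_h, pr_ee_q] at t3
      rw [pr_ee_q] at t4
      exact ⟨_, _, rfl, t3, t4⟩
    · have t3 := T (x := x) (y := x + π / 4 - π / 2 - π / 2) (abs_le.2 ⟨by linarith, by linarith⟩)
        (abs_le.2 ⟨by linarith, by linarith⟩)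
        (by push_cast; rw [pr_yy_h', pr_yy_h', pr_yy_q]; linear_combination (yy x) * v3)
      have t4 := S (x := x) (y := x + π / 4 - π / 2) hx (abs_le.2 ⟨by linarith, by linarith⟩)
      push_cast at t3 t4
      rw [pr_ee_h', pr_ee_h', pr_ee_q] at t3
      rw [pr_ee_h', pr_ee_q] at t4
      refine ⟨_, _, ?_, t3, t4⟩
      generalize Complex.exp (Complex.I * (π / 4)) * (ρ * Complex.exp (Complex.I * x)) = w
      have e : -(Complex.I * -(Complex.I * w)) = -w := by linear_combination w * Complex.I_mul_I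
      rw [e]
      linear_combination (-1) * hB w
  obtain ⟨b3, b4, e, t3, t4⟩ := t34
  rw [prC, e]
  have fin := norm_sub_le_of_le (norm_add_le_of_le (norm_add_le_of_le t1 t2) t3) t4
  refine le_trans (le_of_eq ?_) (fin.trans (le_of_eq (by ring)))
  congr 1
  linear_combination ((-1) ^ k' * (R * yy x) ^ (3 * n) * (α * α' * (R * yy x) ^ 2 *
    (prv ^ 2 + prv + 1) + (β * α' - α * β') * (R * yy x))) * prv_quad

end

theorem pair {A B A' B' : ℂ[X]} {ρ R η M : ℝ} {k k' n : ℕ} {σ σ' : ℂ → ℂ} {α β γ α' β' γ' : ℂ}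
    (hA : FE0 A) (hB : FE0 B) (rA : Rep ρ R A k σ) (rB : Rep ρ R B k' σ')
    (hk : k + k' = 3 * n + 2) (eA : E3 0 R σ α β γ η) (eB : E3 0 R σ' α' β' γ' η) (hρ : 0 < ρ)
    (hR : 1 ≤ R) (h1 : ‖α‖ ≤ M) (h2 : ‖β‖ ≤ M) (h3 : ‖γ‖ ≤ M) (h4 : ‖α'‖ ≤ M) (h5 : ‖β'‖ ≤ M)
    (h6 : ‖γ'‖ ≤ M) (h7 : η ≤ M) (hA' : A = X ^ (2 * n) * A') (hB' : B = X ^ (2 * n) * B')
    (h0 : A'.eval 0 = 0) :
    ‖γ * α' - β * β' + α * γ'‖ ≤ 100 * (M * η + M ^ 2 / R + M ^ 2 * R ^ 2 * exp (-R)) := by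
  have hp := pi_pos
  have hR0 : 0 < R := by linarith
  have hM : 0 ≤ M := (norm_nonneg _).trans h1
  have hη : 0 ≤ η := by
    have := (norm_nonneg _).trans (eA.pr_real (x := 0) (by rw [abs_zero]; linarith))
    rwa [le_div_iff₀ (by positivity), zero_mul] at this
  obtain ⟨d, hd, d0, hC⟩ := prC_fac (A' := A') (B' := B') n h0
  rw [← hA', ← hB'] at hC
  obtain ⟨Q, hQ⟩ : ∃ Q, Q = γ * α' - β * β' + α * γ' := ⟨_, rfl⟩
  obtain ⟨E, hE⟩ : ∃ E, E = 21 * (M * η) + 9 * (M ^ 2 / R) + 16 * (M ^ 2 * R ^ 2 * exp (-R)) :=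
    ⟨_, rfl⟩
  have hρc : (ρ : ℂ) ≠ 0 := by exact_mod_cast hρ.ne'
  obtain ⟨c, hc⟩ : ∃ c : ℂ, c = (-1) ^ k' * (R : ℂ) ^ (3 * n) * (3 * Q) / (ρ : ℂ) ^ (4 * n) :=
    ⟨_, rfl⟩
  have nee : ∀ x : ℝ, ‖(ρ : ℂ) * Complex.exp (Complex.I * x)‖ = ρ := fun x => by
    rw [norm_mul, Complex.norm_exp_I_mul_ofReal, mul_one, Complex.norm_real, Real.norm_eq_abs,
      abs_of_pos hρ]
  have arc : ∀ x : ℝ, |x| ≤ π / 4 →
      ‖d (ρ * Complex.exp (Complex.I * x)) - c‖ ≤ R ^ (3 * n) * E / ρ ^ (4 * n) := fun x hx => by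
    have a := pr_arc hB rA rB hk eA eB hR h1 h2 h3 h4 h5 h6 h7 hx
    rw [← hQ, ← hE, hC] at a
    have e1 : yy x ^ (3 * n) = Complex.exp (Complex.I * x) ^ (4 * n) := by
      rw [yy, ← Complex.exp_nat_mul, ← Complex.exp_nat_mul]
      congr 1
      push_cast
      ring
    have e2 : (-1) ^ k' * ((R : ℂ) * yy x) ^ (3 * n) * (3 * Q) =
        (ρ * Complex.exp (Complex.I * x)) ^ (4 * n) * c := by
      rw [hc, mul_pow, mul_pow, e1]
      field_simp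
    rw [e2, ← mul_sub, norm_mul, norm_pow, nee] at a
    rw [le_div_iff₀ (by positivity), mul_comm]
    exact a
  have per : Function.Periodic (fun x : ℝ => d (ρ * Complex.exp (Complex.I * x))) (π / 2) := by
    intro x
    have ne : ((ρ : ℂ) * Complex.exp (Complex.I * x)) ^ (4 * n) ≠ 0 :=
      pow_ne_zero _ (mul_ne_zero hρc (Complex.exp_ne_zero _))
    apply mul_left_cancel₀ ne
    have t := prC_turn hA hB (ρ * Complex.exp (Complex.I * x))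
    rw [hC, hC, mul_pow Complex.I, pow_mul Complex.I, Complex.I_pow_four, one_pow, one_mul] at t
    push_cast
    rw [pr_ee_h]
    exact t
  have key := Complex.norm_le_of_forall_mem_frontier_norm_le (U := Metric.ball (0 : ℂ) ρ)
    (f := fun ξ => d ξ - c) (C := R ^ (3 * n) * E / ρ ^ (4 * n)) Metric.isBounded_ball
    (hd.sub_const c).diffContOnCl (fun w hw => by
      rw [frontier_ball _ hρ.ne', mem_sphere_zero_iff_norm] at hw
      have e : w = ρ * Complex.exp (Complex.I * (Complex.arg w : ℝ)) := by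
        rw [mul_comm Complex.I, ← hw, Complex.norm_mul_exp_arg_mul_I]
      obtain ⟨y, hy, hy'⟩ := per.exists_mem_Ico (by linarith) (Complex.arg w) (-(π / 4))
      have := arc y (abs_le.2 ⟨hy.1, by linarith [hy.2]⟩)
      show ‖d w - c‖ ≤ _
      rw [e]
      exact le_trans (le_of_eq (by rw [← hy'])) this)
    (z := 0) (subset_closure (Metric.mem_ball_self hρ))
  simp only [d0, zero_sub, norm_neg] at key
  rw [hc, norm_div, norm_mul, norm_mul, norm_pow, norm_pow, norm_pow, norm_neg, norm_one, one_pow,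
    one_mul, Complex.norm_real, Complex.norm_real, Real.norm_eq_abs, Real.norm_eq_abs,
    abs_of_pos hρ, abs_of_pos hR0, div_le_div_iff_of_pos_right (by positivity)] at key
  have k2 := le_of_mul_le_mul_left key (by positivity)
  rw [norm_mul] at k2
  have n3 : ‖(3 : ℂ)‖ = 3 := by simp
  rw [n3, hE] at k2
  rw [← hQ]
  have q1 : 0 ≤ M * η := by positivity
  have q2 : 0 ≤ M ^ 2 / R := by positivity
  have q3 : 0 ≤ M ^ 2 * R ^ 2 * exp (-R) := by positivity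
  linarith

/-- `pair` for `(DF, DF)` and for `(K, DK)` -/
theorem ident : ∃ c : ℝ, 0 < c ∧ ∀ (F : ℂ[X]) (ρ R η M : ℝ) (σ : ℂ → ℂ) (a₀ a₁ a₂ : ℂ), FE0 F →
    Rep ρ R F 0 σ → E3 (3 / 32) R σ a₀ a₁ a₂ η → 0 < ρ → 1 ≤ R → ‖a₀‖ ≤ M → ‖a₁‖ ≤ M →
    ‖a₂‖ ≤ M → η ≤ M →
    ‖3 * a₀ * a₁ - 5 / 16 * a₀ ^ 2‖ ≤ c * (M * η + M ^ 2 / R + M ^ 2 * R ^ 2 * exp (-R)) := by
  refine ⟨10 ^ 16, by norm_num, fun F ρ R η M σ a₀ a₁ a₂ hF r0 e0 hρ hR h0 h1 h2 h7 => ?_⟩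
  have hp := pi_pos
  have hR0 : 0 < R := by linarith
  have hM : 0 ≤ M := (norm_nonneg _).trans h0
  have hη : 0 ≤ η := by
    have := (norm_nonneg _).trans (e0.bd 0 (by simp; linarith) (by norm_num))
    rwa [le_div_iff₀ (by positivity), zero_mul] at this
  have lin : ∀ p q r : ℝ, |p| ≤ 3 → |q| ≤ 3 → |r| ≤ 3 → ‖p * a₀ + q * a₁ + r * a₂‖ ≤ 9 * M := by
    intro p q r a b c
    have t : ∀ (p : ℝ) (a : ℂ), |p| ≤ 3 → ‖a‖ ≤ M → ‖p * a‖ ≤ 3 * M := fun p a u v => by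
      rw [norm_mul, Complex.norm_real, Real.norm_eq_abs]
      exact mul_le_mul u v (norm_nonneg _) (by norm_num)
    have := norm_add_le_of_le (norm_add_le_of_le (t p _ a h0) (t q _ b h1)) (t r _ c h2)
    linarith
  have lin' : ∀ (p q r : ℝ) (a : ℂ), a = p * a₀ + q * a₁ + r * a₂ → |p| ≤ 3 → |q| ≤ 3 → |r| ≤ 3 →
      ‖a‖ ≤ 9 * M := fun p q r a e a1 a2 a3 => e ▸ lin p q r a1 a2 a3
  have hMR : M / R ≤ M := div_le_self hM hR
  have hMR0 : 0 ≤ M / R := by positivity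
  have dv : ∀ {a : ℂ}, ‖a‖ ≤ 9 * M → ‖a‖ / R ≤ 9 * (M / R) := fun {a} h => by
    rw [← mul_div_assoc]
    exact div_le_div_of_nonneg_right h hR0.le
  have r1 := r0.dp e0.hol hR0.ne' 0
  have e1 : E3 (1 / 16) R (MM (((0 : ℕ) : ℂ) - 0) R σ) (-a₀) (-a₁) (-a₁ - a₂)
      (40 * η + 360 * (M / R)) := by
    have := E3.mm (δ := 1 / 16) (m := ((0 : ℕ) : ℂ) - 0) (e0.mono (by norm_num) le_rfl)
      (by norm_num) (by norm_num) hR (by simp)
    have d := dv (a := a₂) (by linarith)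
    have := this.mono (le_refl _) (η' := 40 * η + 360 * (M / R)) (by linarith)
    convert this using 1 <;> simp
  have r2 := r1.dp e1.hol hR0.ne' (3 / 4)
  have g1 : ‖-a₁ - a₂‖ ≤ 9 * M :=
    lin' 0 (-1) (-1) _ (by push_cast; ring) (by norm_num) (by norm_num) (by norm_num)
  have e2 : E3 (1 / 32) R (MM (((0 + 1 : ℕ) : ℂ) - 3 / 4) R (MM (((0 : ℕ) : ℂ) - 0) R σ))
      a₀ (a₁ - a₀ / 4) (a₂ + 7 / 4 * a₁) (1600 * η + 15000 * (M / R)) := by
    have := E3.mm (δ := 1 / 32) (m := ((0 + 1 : ℕ) : ℂ) - 3 / 4) (e1.mono (by norm_num) le_rfl)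
      (by norm_num) (by norm_num) hR (by norm_num)
    have d := dv g1
    have := this.mono (le_refl _) (η' := 1600 * η + 15000 * (M / R)) (by linarith)
    convert this using 1 <;> push_cast <;> ring
  have r3 := r2.dp e2.hol hR0.ne' 0
  have g2 : ‖a₂ + 7 / 4 * a₁‖ ≤ 9 * M :=
    lin' 0 (7 / 4) 1 _ (by push_cast; ring) (by norm_num) (by norm_num [abs_le]) (by norm_num)
  have e3 : E3 0 R (MM (((0 + 1 + 1 : ℕ) : ℂ) - 0) R
      (MM (((0 + 1 : ℕ) : ℂ) - 3 / 4) R (MM (((0 : ℕ) : ℂ) - 0) R σ)))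
      (-a₀) (9 / 4 * a₀ - a₁) (-a₀ / 4 - 3 / 4 * a₁ - a₂) (10 ^ 6 * (η + M / R)) := by
    have := E3.mm (δ := 0) (m := ((0 + 1 + 1 : ℕ) : ℂ) - 0) (e2.mono (by norm_num) le_rfl)
      (by norm_num) (by norm_num) hR (by norm_num)
    have d := dv g2
    have := this.mono (le_refl _) (η' := 10 ^ 6 * (η + M / R)) (by linarith)
    convert this using 1 <;> push_cast <;> ring
  obtain ⟨η', hη'⟩ : ∃ η', η' = 10 ^ 6 * (η + M / R) := ⟨_, rfl⟩
  obtain ⟨M', hM'⟩ : ∃ M', M' = 2 * 10 ^ 6 * M := ⟨_, rfl⟩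
  have up : ∀ {a : ℂ}, ‖a‖ ≤ 9 * M → ‖a‖ ≤ M' := fun {a} h => by rw [hM']; linarith
  have h7' : η' ≤ M' := by rw [hη', hM']; linarith
  have f1 := e1.mono (δ' := 0) (η' := η') (by norm_num) (by rw [hη']; linarith)
  have f2 := e2.mono (δ' := 0) (η' := η') (by norm_num) (by rw [hη']; linarith)
  rw [← hη'] at e3
  have n0 : ‖-a₀‖ ≤ M' := up (by rw [norm_neg]; linarith)
  have n1 : ‖-a₁‖ ≤ M' := up (by rw [norm_neg]; linarith)
  have PA := pair (A' := Dp 0 F) (B' := Dp 0 F) (n := 0) (hF.dp 0) (hF.dp 0) r1 r1 rfl f1 f1 hρ hR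
    n0 n1 (up g1) n0 n1 (up g1) h7' (by simp) (by simp) (by simp [Dp])
  obtain ⟨A', B', s1, s2, s3⟩ := hF.sq
  have PB := pair (A' := A') (B' := B') (n := 1) ((hF.dp 0).dp (3 / 4))
    (((hF.dp 0).dp (3 / 4)).dp 0) r2 r3 rfl f2 e3 hρ hR (up (by linarith))
    (up (lin' (-1 / 4) 1 0 _ (by push_cast; ring) (by norm_num [abs_le]) (by norm_num)
      (by norm_num))) (up g2) n0
    (up (lin' (9 / 4) (-1) 0 _ (by push_cast; ring) (by norm_num [abs_le]) (by norm_num)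
      (by norm_num)))
    (up (lin' (-1 / 4) (-3 / 4) (-1) _ (by push_cast; ring) (by norm_num [abs_le])
      (by norm_num [abs_le]) (by norm_num))) h7' s1 s2 s3
  have fin := norm_add_le_of_le PA PB
  rw [← norm_neg] at fin
  refine le_trans (le_of_eq ?_) (fin.trans ?_)
  · congr 1
    ring
  · have q1 : 0 ≤ M * η := by positivity
    have q2 : 0 ≤ M ^ 2 / R := by positivity
    have q3 : 0 ≤ M ^ 2 * R ^ 2 * exp (-R) := by positivity
    have u1 : M' * η' = 2 * 10 ^ 12 * (M * η) + 2 * 10 ^ 12 * (M ^ 2 / R) := by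
      rw [hM', hη']; ring
    have u2 : M' ^ 2 / R = 4 * 10 ^ 12 * (M ^ 2 / R) := by rw [hM']; ring
    have u3 : M' ^ 2 * R ^ 2 * exp (-R) = 4 * 10 ^ 12 * (M ^ 2 * R ^ 2 * exp (-R)) := by
      rw [hM']; ring
    rw [u1, u2, u3]
    linarith

end Pool.Agent.Lib.MP_4960b8_pr.PT
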