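import Pool.Agent.Lib.MP_4960b8_pr.QK.CombB
import Pool.Agent.Lib.MP_4960b8_pr.QK.AlgD

/-! Value and logarithmic derivative at `3 π / 8`. -/

namespace Pool.Agent.Lib.MP_4960b8_pr.PT

open QK Real Polynomial

lemma anv_mem : (3 * π / 8 : ℂ) ∈ Ust := by
  have := pi_pos
  have e : (3 * π / 8 : ℂ).re = 3 * π / 8 := by
    rw [show (3 * π / 8 : ℂ) = ((3 * π / 8 : ℝ) : ℂ) by push_cast; ring, Complex.ofReal_re]
  change |(3 * π / 8 : ℂ).re| < 13 * π / 16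
  rw [e, abs_of_pos (by positivity)]
  linarith

noncomputable def anvV : ℂ := Complex.exp (Complex.I * (π / 24))

lemma anv_ev (j : ℤ) (n : ℕ) (h : (n : ℤ) = 3 + j) : ev j (3 * π / 8) = anvV ^ n := by
  have h' : (n : ℂ) = 3 + j := by exact_mod_cast h
  unfold ev anvV
  rw [← Complex.exp_nat_mul, h']
  congr 1
  ring

lemma anv_z : ζ = anvV ^ 3 := by
  unfold ζ anvV
  rw [← Complex.exp_nat_mul]
  congr 1
  push_cast
  ring

lemma anv_cube : ev 0 (3 * π / 8) ^ 3 = ζ ^ 3 := by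
  rw [anv_ev 0 3 (by norm_num), anv_z]

noncomputable def anvA (g : ℂ) : ℂ := q3 (ev 0 g ^ 2) / (1 + ev 0 g ^ 2) *
  (q3 (ev 1 g) * q3 (ev (-1) g) / (q4 (ev 1 g) * q4 (ev (-1) g)))

noncomputable def anvB (g : ℂ) : ℂ :=
  (q3 (ev 1 g) * q3 (ev (-1) g) / (q4 (ev 1 g) * q4 (ev (-1) g))) *
    (q4 (ev 5 g) * q4 (ev (-5) g) /
      (q3 (ev 5 g) * q3 (ev (-5) g) * (1 + c18 * ev 0 g ^ 3 + ev 0 g ^ 6)))

lemma anv_th (T : ℕ) (Pl : ℂ[X]) :
    Th T Pl = fun g => anvA g * anvB g ^ T * Pl.eval (ev 0 g ^ 3) := by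
  funext g
  unfold Th anvA anvB
  rw [mul_pow, pow_succ]
  ring

lemma anv_re (j : ℤ) (a : -5 ≤ j) (b : j ≤ 5) : 0 < (ev j (3 * π / 8)).re :=
  anac_ev_re_pos anv_mem a b

lemma anv_A_ne : anvA (3 * π / 8) ≠ 0 := by
  have r0 : 0 < (ev 0 (3 * π / 8) ^ 2).re := by
    rw [anv_ev 0 3 (by norm_num), ← pow_mul, ← anv_ev 3 (3 * 2) (by norm_num)]
    exact anv_re 3 (by norm_num) (by norm_num)
  have r1 := anv_re 1 (by norm_num) (by norm_num)
  have r2 := anv_re (-1) (by norm_num) (by norm_num)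
  exact mul_ne_zero (div_ne_zero (anac_q3_ne r0) (anac_sq_ne (anv_re 0 (by norm_num) (by norm_num))))
    (div_ne_zero (mul_ne_zero (anac_q3_ne r1) (anac_q3_ne r2))
      (mul_ne_zero (anac_q4_ne r1) (anac_q4_ne r2)))

lemma anv_B : anvB (3 * π / 8) * (2 * c18 * ζ ^ 3) = 1 := by
  have r1 := anv_re 1 (by norm_num) (by norm_num)
  have r2 := anv_re (-1) (by norm_num) (by norm_num)
  have r5 := anv_re 5 (by norm_num) (by norm_num)
  have dn := anac_den_ne anv_mem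
  have v0 : anvV ≠ 0 := Complex.exp_ne_zero _
  have e5 : ev (-5) (3 * π / 8) = (anvV ^ 2)⁻¹ := by
    have := anac_ev_mul 5 (3 * π / 8)
    rw [anv_ev 5 8 (by norm_num), anv_ev 0 3 (by norm_num)] at this
    refine eq_inv_of_mul_eq_one_left (mul_left_cancel₀ (pow_ne_zero 6 v0) ?_)
    linear_combination this
  unfold anvB
  rw [e5, anac_q3_inv (pow_ne_zero 2 v0), anac_q4_inv (pow_ne_zero 2 v0)]
  rw [anv_ev 1 4 (by norm_num)] at r1 ⊢
  rw [anv_ev (-1) 2 (by norm_num)] at r2 ⊢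
  rw [anv_ev 5 8 (by norm_num)] at r5 ⊢
  rw [anv_ev 0 3 (by norm_num)] at dn ⊢
  have a1 := anac_q4_ne r1
  have a2 := anac_q4_ne r2
  have a3 := anac_q3_ne r2
  have a4 := anac_q3_ne r5
  have p8 : anvV ^ 8 + 1 ≠ 0 := fun e => by
    rw [eq_neg_of_add_eq_zero_left e] at r5
    norm_num at r5
  have p : anvV ^ 16 - anvV ^ 8 + 1 = 0 := by
    refine mul_left_cancel₀ p8 ?_
    have := h8
    rw [anv_z] at this
    linear_combination this
  have key : 2 * c18 * ζ ^ 3 * q3 (anvV ^ 4) * q4 (anvV ^ 8) = anvV ^ 2 * q4 (anvV ^ 4) *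
      q3 (anvV ^ 8) * (1 + c18 * (anvV ^ 3) ^ 3 + (anvV ^ 3) ^ 6) := by
    rw [c18_eq, anv_z]
    unfold q3 q4
    generalize anvV = v at p
    linear_combination (-v ^ 2 - v ^ 6 - 3 * v ^ 10 + 2 * v ^ 12 - 4 * v ^ 14 + 2 * v ^ 16 -
      5 * v ^ 18 + 5 * v ^ 20 - 7 * v ^ 22 + 3 * v ^ 24 - 5 * v ^ 26 + 5 * v ^ 28 - 8 * v ^ 30 +
      2 * v ^ 32 - 4 * v ^ 34 + 3 * v ^ 36 - 6 * v ^ 38 + v ^ 40 - 2 * v ^ 42 + v ^ 44 -
      2 * v ^ 46) * p
  generalize 1 + c18 * (anvV ^ 3) ^ 3 + (anvV ^ 3) ^ 6 = d at *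
  generalize 2 * c18 * ζ ^ 3 = k at *
  generalize q3 (anvV ^ 4) = x1 at *
  generalize q4 (anvV ^ 4) = x2 at *
  generalize q3 (anvV ^ 2) = x3 at *
  generalize q4 (anvV ^ 2) = x4 at *
  generalize q3 (anvV ^ 8) = x5 at *
  generalize q4 (anvV ^ 8) = x6 at *
  field_simp
  linear_combination key

lemma anv_diff : DifferentiableAt ℂ anvA (3 * π / 8) ∧ DifferentiableAt ℂ anvB (3 * π / 8) := by
  have h : ∀ T, DifferentiableAt ℂ (fun g => anvA g * anvB g ^ T) (3 * π / 8) := fun T => by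
    have := (anac_hol T 1).differentiableAt (anaa_open.mem_nhds anv_mem)
    simpa only [anv_th, eval_one, mul_one] using this
  have h0 : DifferentiableAt ℂ anvA (3 * π / 8) := by simpa only [pow_zero, mul_one] using h 0
  refine ⟨h0, ((h 1).div h0 anv_A_ne).congr_of_eventuallyEq ?_⟩
  filter_upwards [h0.continuousAt.eventually_ne anv_A_ne] with g hg
  simp only [Pi.div_apply, pow_one]
  rw [mul_div_cancel_left₀ _ hg]

/-- `Th T Pl g = A g * B g ^ T * Pl (exp (i g))` with `B (3π/8) * (2 c18 ζ^3) = 1` -/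
theorem th_val : ∃ θ a b : ℂ, θ ≠ 0 ∧ ∀ (T : ℕ) (Pl : ℂ[X]),
    Pl.eval (ζ ^ 3) = (2 * c18 * ζ ^ 3) ^ T → Th T Pl (3 * π / 8) = θ ∧
      deriv (Th T Pl) (3 * π / 8) * Pl.eval (ζ ^ 3) = θ * ((a * T + b) * Pl.eval (ζ ^ 3) +
        Complex.I * ζ ^ 3 * Pl.derivative.eval (ζ ^ 3)) := by
  have hA := anv_diff.1.hasDerivAt
  have hB := anv_diff.2.hasDerivAt
  have A0 := anv_A_ne
  have B0 : anvB (3 * π / 8) ≠ 0 := left_ne_zero_of_mul_eq_one anv_B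
  refine ⟨anvA (3 * π / 8), deriv anvB (3 * π / 8) / anvB (3 * π / 8),
    deriv anvA (3 * π / 8) / anvA (3 * π / 8), A0, fun T Pl h => ?_⟩
  have k : anvB (3 * π / 8) ^ T * Pl.eval (ζ ^ 3) = 1 := by rw [h, ← mul_pow, anv_B, one_pow]
  have hx : HasDerivAt (fun g : ℂ => ev 0 g ^ 3) (ζ ^ 3 * Complex.I) (3 * π / 8) := by
    have := ((hasDerivAt_id' (3 * π / 8 : ℂ)).const_mul Complex.I).cexp
    rw [← anac_ev0_cube, anv_cube, mul_one] at this
    simpa only [anac_ev0_cube] using this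
  have hP : HasDerivAt (fun g : ℂ => Pl.eval (ev 0 g ^ 3))
      (Pl.derivative.eval (ζ ^ 3) * (ζ ^ 3 * Complex.I)) (3 * π / 8) := by
    have := (Pl.hasDerivAt (ev 0 (3 * π / 8) ^ 3)).comp (3 * π / 8 : ℂ) hx
    rwa [anv_cube] at this
  have hD := ((hA.fun_mul (hB.fun_pow T)).fun_mul hP).deriv
  rw [anv_th, hD]
  simp only [anv_cube]
  refine ⟨by rw [mul_assoc, k, mul_one], ?_⟩
  have k2 : (T : ℂ) * anvB (3 * π / 8) ^ (T - 1) = T * anvB (3 * π / 8) ^ T / anvB (3 * π / 8) := by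
    rw [eq_div_iff B0]
    rcases T with _ | n
    · simp
    · rw [Nat.add_sub_cancel, pow_succ, mul_assoc]
  rw [k2]
  generalize anvB (3 * π / 8) ^ T = Q at *
  generalize Pl.eval (ζ ^ 3) = P at *
  obtain rfl : Q = P⁻¹ := eq_inv_of_mul_eq_one_left k
  have P0 : P ≠ 0 := right_ne_zero_of_mul_eq_one k
  field_simp
  ring

end Pool.Agent.Lib.MP_4960b8_pr.PT
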