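import Pool.Agent.Lib.MP_4960b8_pr.PT.AnF
import Pool.Agent.Lib.MP_4960b8_pr.PT.AnG
import Pool.Agent.Lib.MP_4960b8_pr.PT.AnP
import Pool.Agent.Lib.MP_4960b8_pr.PT.AnV

/-! The two scales (plan N7) and the limit of the logarithmic derivative. -/

namespace Pool.Agent.Lib.MP_4960b8_pr.PT

open QK Real Polynomial

lemma and_exp {r : ℝ} (hr : 1 ≤ r) : r ^ 22 * exp (-r ^ 8) ≤ 6 / r := by
  have r0 : 0 < r := by linarith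
  have h := Real.pow_div_factorial_le_exp (r ^ 8) (by positivity) 3
  have h1 : r ^ 23 ≤ (r ^ 8) ^ 3 := by
    rw [← pow_mul]
    exact pow_le_pow_right₀ hr (by norm_num)
  rw [div_le_iff₀ (by positivity)] at h
  norm_num [Nat.factorial] at h
  rw [Real.exp_neg, ← div_eq_mul_inv, div_le_div_iff₀ (Real.exp_pos _) r0]
  linarith [pow_succ r 22]

/-- the two scales together -/
lemma and_two {θ : ℂ} (hv : ∀ (T : ℕ) (Pl : ℂ[X]), Hyp T Pl → Th T Pl (3 * π / 8) = θ) :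
    ∃ C : ℝ, 0 < C ∧ ∀ r : ℝ, 2 ≤ r → ∃ T₀ : ℕ, ∀ T : ℕ, T₀ ≤ T → ∀ Pl : ℂ[X], Hyp T Pl →
      ∃ a₀ a₁ : ℂ, ‖θ - a₀‖ ≤ C / r ∧
        ‖T * deriv (Th T Pl) (3 * π / 8) + 4 / (3 * √3) * a₁‖ ≤ C / r ∧
        ‖3 * a₀ * a₁ - 5 / 16 * a₀ ^ 2‖ ≤ C / r := by
  obtain ⟨c, hc, hexp⟩ := expand
  obtain ⟨c₁, hc₁, hb⟩ := bulk hc
  have n0 := norm_nonneg θ
  obtain ⟨c₂, h₂⟩ : ∃ c₂ : ℝ, c₂ = c + ‖θ‖ + c₁ := ⟨_, rfl⟩
  have hc₂ : 0 < c₂ := by linarith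
  obtain ⟨c₃, hc₃, hs⟩ := scale hc₂
  obtain ⟨c₄, hc₄, hi⟩ := ident
  obtain ⟨m, hm⟩ : ∃ m : ℝ, m = c₂ + c₃ := ⟨_, rfl⟩
  have m0 : 0 < m := by linarith
  refine ⟨c₁ + c₄ * (8 * m ^ 2), by positivity, fun r hr => ?_⟩
  have r1 : 1 ≤ r := by linarith
  have r0 : 0 < r := by linarith
  obtain ⟨T₁, e1⟩ := hexp r r1
  obtain ⟨T₂, e2⟩ := hb r r1
  obtain ⟨T₃, e3⟩ := hs r hr
  refine ⟨max (max T₁ T₂) T₃, fun T hT Pl h => ?_⟩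
  obtain ⟨a₀, a₁, a₂, x1⟩ := e1 T (le_of_max_le_left (le_of_max_le_left hT)) Pl h
  obtain ⟨b1, b2⟩ := e2 T (le_of_max_le_right (le_of_max_le_left hT)) _ a₀ a₁ a₂
    (anac_hol T Pl) x1
  rw [hv T Pl h] at b1
  have x2 := x1.mono (show c ≤ c₂ by linarith) r1
  have n1 : ‖a₀‖ ≤ c₂ := by
    have k1 := norm_sub_norm_le a₀ θ
    rw [norm_sub_rev] at k1
    have k2 : c₁ / r ≤ c₁ := div_le_self hc₁.le r1
    linarith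
  obtain ⟨ρ, σ, p0, p1, p2⟩ := e3 T (le_of_max_le_right hT) Pl a₀ a₁ a₂ h x2 n1
  have r3 : 1 ≤ r ^ 3 := one_le_pow₀ r1
  have r23 : r ^ 2 ≤ r ^ 3 := pow_le_pow_right₀ r1 (by norm_num)
  have q0 : c₂ ≤ m := by linarith
  have q1 : c₃ ≤ m := by linarith
  have q2 : m ≤ m * r ^ 3 := le_mul_of_one_le_right m0.le r3
  have k := hi (FP T Pl) ρ (r ^ 8) (c₃ / r ^ 4) (m * r ^ 3) σ a₀ a₁ a₂ (fp_fe0 h.fe) p1 p2 p0
    (one_le_pow₀ r1) (by linarith) (x2.1.trans (by gcongr)) (x2.2.1.trans (by gcongr))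
    ((div_le_self hc₃.le (one_le_pow₀ r1)).trans (by linarith))
  have w : c₁ / r ≤ (c₁ + c₄ * (8 * m ^ 2)) / r := by
    gcongr
    linarith [show 0 < c₄ * (8 * m ^ 2) by positivity]
  refine ⟨a₀, a₁, b1.trans w, b2.trans w, k.trans ?_⟩
  have k1 : m * r ^ 3 * (c₃ / r ^ 4) ≤ m ^ 2 / r := by
    calc _ ≤ m * r ^ 3 * (m / r ^ 4) := by gcongr
      _ = _ := by field_simp
  have k2 : (m * r ^ 3) ^ 2 / r ^ 8 ≤ m ^ 2 / r := by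
    calc _ = m ^ 2 / r ^ 2 := by field_simp
      _ ≤ _ := by
        gcongr
        exact le_self_pow₀ r1 (by norm_num)
  have k3 : (m * r ^ 3) ^ 2 * (r ^ 8) ^ 2 * exp (-r ^ 8) ≤ 6 * (m ^ 2 / r) := by
    calc _ = m ^ 2 * (r ^ 22 * exp (-r ^ 8)) := by ring
      _ ≤ m ^ 2 * (6 / r) := by gcongr; exact and_exp r1
      _ = _ := by ring
  calc _ ≤ c₄ * (8 * (m ^ 2 / r)) := by gcongr; linarith
    _ = c₄ * (8 * m ^ 2) / r := by ring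
    _ ≤ _ := by gcongr; linarith

theorem ana_lim {ε : ℝ} (hε : 0 < ε) : ∃ T₀ : ℕ, ∀ T : ℕ, T₀ ≤ T → ∀ Pl : ℂ[X], Hyp T Pl →
    ‖T * deriv (Th T Pl) (3 * π / 8) / Th T Pl (3 * π / 8) + 5 / (36 * √3)‖ ≤ ε := by
  obtain ⟨θ, a, b, hθ, hv⟩ := th_val
  have hv' : ∀ (T : ℕ) (Pl : ℂ[X]), Hyp T Pl → Th T Pl (3 * π / 8) = θ :=
    fun T Pl h => (hv T Pl h.val).1
  obtain ⟨C, hC, h2⟩ := and_two hv'
  have n0 : 0 < ‖θ‖ := norm_pos_iff.2 hθ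
  obtain ⟨δ, d0, d1, d2, d3⟩ : ∃ δ : ℝ, 0 < δ ∧ δ ≤ ‖θ‖ / 2 ∧ δ ≤ ε * ‖θ‖ / 4 ∧
      δ ≤ ε * ‖θ‖ ^ 2 / 4 :=
    ⟨min (‖θ‖ / 2) (min (ε * ‖θ‖ / 4) (ε * ‖θ‖ ^ 2 / 4)), by positivity, min_le_left _ _,
      (min_le_right _ _).trans (min_le_left _ _), (min_le_right _ _).trans (min_le_right _ _)⟩
  have d4 : C / (2 + C / δ) ≤ δ := by
    rw [div_le_iff₀ (by positivity), mul_add, mul_div_cancel₀ _ d0.ne']
    linarith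
  obtain ⟨T₀, h3⟩ := h2 (2 + C / δ) (by linarith [show 0 < C / δ by positivity])
  refine ⟨T₀, fun T hT Pl h => ?_⟩
  obtain ⟨a₀, a₁, b1, b2, b3⟩ := h3 T hT Pl h
  replace b1 := b1.trans d4
  replace b2 := b2.trans d4
  replace b3 := b3.trans d4
  rw [hv' T Pl h]
  generalize (T : ℂ) * deriv (Th T Pl) (3 * π / 8) = w at b2
  have n1 : ‖θ‖ / 2 ≤ ‖a₀‖ := by linarith [norm_sub_norm_le θ a₀]
  have n2 : ‖3 * a₁ - 5 / 16 * a₀‖ ≤ ε * ‖θ‖ / 2 := by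
    rw [show 3 * a₀ * a₁ - 5 / 16 * a₀ ^ 2 = a₀ * (3 * a₁ - 5 / 16 * a₀) by ring, norm_mul] at b3
    have k := (mul_le_mul_of_nonneg_right n1 (norm_nonneg _)).trans (b3.trans d3)
    refine le_of_mul_le_mul_left (k.trans_eq (by ring)) (half_pos n0)
  obtain ⟨s1, -⟩ := ane_sqrt
  have s0 : ((√3 : ℝ) : ℂ) ≠ 0 := Complex.ofReal_ne_zero.2 (by linarith)
  have e : w / θ + 5 / (36 * √3) = ((w + 4 / (3 * √3) * a₁) -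
      (√3 : ℂ)⁻¹ * (4 / 9 * (3 * a₁ - 5 / 16 * a₀) - 5 / 36 * (θ - a₀))) / θ := by
    field_simp
    ring
  have n3 : ‖(√3 : ℂ)⁻¹‖ ≤ 1 := by
    rw [norm_inv, Complex.norm_real, Real.norm_of_nonneg (by linarith)]
    exact inv_le_one_of_one_le₀ s1
  have n4 : ‖4 / 9 * (3 * a₁ - 5 / 16 * a₀) - 5 / 36 * (θ - a₀)‖ ≤ ε * ‖θ‖ / 2 + δ := by
    refine (norm_sub_le _ _).trans ?_
    rw [norm_mul, norm_mul]
    have u1 : ‖(4 / 9 : ℂ)‖ = 4 / 9 := by simp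
    have u2 : ‖(5 / 36 : ℂ)‖ = 5 / 36 := by simp
    rw [u1, u2]
    linarith [norm_nonneg (3 * a₁ - 5 / 16 * a₀), norm_nonneg (θ - a₀)]
  rw [e, norm_div, div_le_iff₀ n0]
  refine (norm_sub_le _ _).trans ?_
  rw [norm_mul]
  have n5 := mul_le_mul n3 n4 (norm_nonneg _) zero_le_one
  linarith

end Pool.Agent.Lib.MP_4960b8_pr.PT
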