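import Pool.Agent.Lib.MP_4960b8_pr.PT.AnC

/-! The expansion near the imaginary axis at the finite scale (plan N7). -/

namespace Pool.Agent.Lib.MP_4960b8_pr.PT

open QK Real Polynomial

/-- the expansion with the top of the rectangle at the level `2 √3 T ‖y‖ = r` -/
def Expa (c r : ℝ) (T : ℕ) (Θ : ℂ → ℂ) (a₀ a₁ a₂ : ℂ) : Prop :=
  ‖a₁‖ ≤ c * r ^ 2 ∧ ‖a₂‖ ≤ c * r ^ 3 ∧ ∀ g : ℂ, |g.re| < 3 * π / 4 →
    4 * r ≤ 2 * √3 * T * ‖yy g‖ → 4 * r ≤ 2 * √3 * T * ‖yy g‖⁻¹ →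
    ‖Θ g - (a₀ + a₁ / (2 * √3 * T) * (yy g + (yy g)⁻¹) +
        a₂ / (2 * √3 * T) ^ 2 * (yy g ^ 2 + (yy g)⁻¹ ^ 2))‖ * cos (2 * g.re / 3) ≤
      c * (r ^ 4 / (2 * √3 * T) ^ 3 * (‖yy g‖ ^ 3 + ‖yy g‖⁻¹ ^ 3) +
        (‖yy g‖ + ‖yy g‖⁻¹) / (2 * √3 * T * r ^ 12))

theorem Expa.mono {c c' r : ℝ} {T : ℕ} {Θ : ℂ → ℂ} {a₀ a₁ a₂ : ℂ} (h : Expa c r T Θ a₀ a₁ a₂)
    (hc : c ≤ c') (hr : 1 ≤ r) : Expa c' r T Θ a₀ a₁ a₂ := by
  have h0 : 0 < r := by linarith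
  refine ⟨h.1.trans (by gcongr), h.2.1.trans (by gcongr), fun g h1 h2 h3 =>
    (h.2.2 g h1 h2 h3).trans ?_⟩
  gcongr

lemma ane_deriv (z : ℂ) : HasDerivAt yy (4 * Complex.I / 3 * yy z) z := by
  have h : HasDerivAt (fun z : ℂ => 4 * Complex.I * z / 3) (4 * Complex.I / 3) z := by
    simpa using ((hasDerivAt_id z).const_mul (4 * Complex.I)).div_const 3
  exact h.cexp.congr_deriv (mul_comm _ _)

lemma ane_val : yy (3 * π / 8) = Complex.I := by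
  rw [yy, show (4 * Complex.I * (3 * π / 8) / 3 : ℂ) = π / 2 * Complex.I by ring,
    Complex.exp_pi_div_two_mul_I]

lemma ane_sqrt : 1 ≤ √3 ∧ √3 ≤ 2 := by
  constructor
  · exact Real.one_le_sqrt.2 (by norm_num)
  · exact Real.sqrt_le_iff.2 ⟨by norm_num, by norm_num⟩

lemma ane_exp : exp (2 / 3) ≤ 2 := by
  have h := Real.exp_one_lt_d9
  have h1 : exp (2 / 3) ^ 3 = exp 1 ^ 2 := by
    rw [← Real.exp_nat_mul, ← Real.exp_nat_mul]
    norm_num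
  have h2 : exp 1 ^ 2 ≤ 2 ^ 3 := by nlinarith [Real.exp_pos 1]
  exact le_of_pow_le_pow_left₀ (n := 3) (by norm_num) (by norm_num) (h1 ▸ h2)

lemma ane_disc {g : ℂ} (hg : ‖g - 3 * π / 8‖ ≤ 1 / 4) : |g.re| < 3 * π / 4 ∧
    1 / 2 ≤ cos (2 * g.re / 3) ∧ ‖yy g‖ ≤ 2 ∧ ‖yy g‖⁻¹ ≤ 2 := by
  have h1 := (Complex.abs_re_le_norm _).trans hg
  have h2 := (Complex.abs_im_le_norm _).trans hg
  have e1 : (g - 3 * π / 8).re = g.re - 3 * π / 8 := by simp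
  have e2 : (g - 3 * π / 8).im = g.im := by simp
  rw [e1, abs_le] at h1
  rw [e2, abs_le] at h2
  have p3 := Real.pi_gt_three
  refine ⟨abs_lt.2 ⟨by linarith [h1.1], by linarith [h1.2]⟩, ?_, ?_, ?_⟩
  · rw [← Real.cos_pi_div_three]
    exact Real.cos_le_cos_of_nonneg_of_le_pi (by linarith [h1.1]) (by linarith)
      (by linarith [h1.2])
  · rw [yy_norm]
    exact (Real.exp_le_exp.2 (by linarith [h2.1])).trans ane_exp
  · rw [yy_norm, ← Real.exp_neg]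
    exact (Real.exp_le_exp.2 (by linarith [h2.2])).trans ane_exp

/-- Cauchy estimate on the disc of radius `1 / 4` around `3 π / 8`, where `yy = i` -/
theorem bulk {c : ℝ} (hc : 0 < c) : ∃ c' : ℝ, 0 < c' ∧ ∀ r : ℝ, 1 ≤ r → ∃ T₀ : ℕ, ∀ T : ℕ,
    T₀ ≤ T → ∀ (Θ : ℂ → ℂ) (a₀ a₁ a₂ : ℂ), DifferentiableOn ℂ Θ Ust → Expa c r T Θ a₀ a₁ a₂ →
    ‖Θ (3 * π / 8) - a₀‖ ≤ c' / r ∧
      ‖T * deriv Θ (3 * π / 8) + 4 / (3 * √3) * a₁‖ ≤ c' / r := by
  refine ⟨200 * c, by positivity, fun r hr => ⟨⌈8 * r ^ 6⌉₊, fun T hT Θ a₀ a₁ a₂ hol h => ?_⟩⟩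
  have r0 : 0 < r := by linarith
  have hT' : 8 * r ^ 6 ≤ T := (Nat.le_ceil _).trans (Nat.cast_le.2 hT)
  obtain ⟨s1, s2⟩ := ane_sqrt
  have r6 : r ≤ r ^ 6 := le_self_pow₀ hr (by norm_num)
  have T0 : (0 : ℝ) < T := by linarith
  obtain ⟨L, hL⟩ : ∃ L : ℝ, L = 2 * √3 * T := ⟨_, rfl⟩
  have L1 : (T : ℝ) ≤ L := by rw [hL]; nlinarith
  have L2 : r ^ 6 ≤ L := by linarith
  have L0 : 0 < L := by linarith
  have L3 : 1 ≤ L := by linarith
  have hLc : (2 * √3 * T : ℂ) = L := by rw [hL]; push_cast; rfl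
  obtain ⟨h1, h2, h3⟩ := h
  rw [hLc, ← hL] at h3
  set E : ℂ → ℂ := fun g => Θ g - (a₀ + a₁ / L * (yy g + (yy g)⁻¹) +
    a₂ / (L : ℂ) ^ 2 * (yy g ^ 2 + (yy g)⁻¹ ^ 2)) with hE
  have b1 : r ^ 4 / L ^ 3 ≤ 1 / (L * r) := by
    rw [div_le_div_iff₀ (by positivity) (by positivity)]
    have : r ^ 5 ≤ L ^ 2 := by
      have : r ^ 5 ≤ r ^ 6 := pow_le_pow_right₀ hr (by norm_num)
      nlinarith
    nlinarith
  have b2 : 1 / (L * r ^ 12) ≤ 1 / (L * r) := by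
    have : r ≤ r ^ 12 := le_self_pow₀ hr (by norm_num)
    gcongr
  have key : ∀ g : ℂ, ‖g - 3 * π / 8‖ ≤ 1 / 4 → ‖E g‖ ≤ 40 * c / (L * r) := by
    intro g hg
    obtain ⟨d1, d2, d3, d4⟩ := ane_disc hg
    have y0 : 0 < ‖yy g‖ := norm_pos_iff.2 (yy_ne g)
    have y1 : 1 / 2 ≤ ‖yy g‖ := by
      rw [one_div]
      exact inv_le_of_inv_le₀ y0 d4
    have y2 : 1 / 2 ≤ ‖yy g‖⁻¹ := by
      rw [one_div]
      exact inv_anti₀ y0 d3
    have k := h3 g d1 (by nlinarith) (by nlinarith)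
    have k1 : ‖E g‖ * (1 / 2) ≤ ‖E g‖ * cos (2 * g.re / 3) := by gcongr
    have k2 : r ^ 4 / L ^ 3 * (‖yy g‖ ^ 3 + ‖yy g‖⁻¹ ^ 3) ≤ 1 / (L * r) * (2 ^ 3 + 2 ^ 3) := by
      gcongr
    have k3 : (‖yy g‖ + ‖yy g‖⁻¹) / (L * r ^ 12) ≤ (2 + 2) * (1 / (L * r)) := by
      rw [div_eq_mul_one_div]
      gcongr
    have k4 := (k1.trans k).trans (mul_le_mul_of_nonneg_left (add_le_add k2 k3) hc.le)
    have e : 40 * c / (L * r) = 2 * (c * (1 / (L * r) * (2 ^ 3 + 2 ^ 3) +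
      (2 + 2) * (1 / (L * r)))) := by ring
    linarith
  have yd : Differentiable ℂ yy := fun z => (ane_deriv z).differentiableAt
  have yi : Differentiable ℂ fun z => (yy z)⁻¹ := yd.inv yy_ne
  have sub : Metric.closedBall (3 * π / 8 : ℂ) (1 / 4) ⊆ Ust := fun g hg => by
    have := (ane_disc (mem_closedBall_iff_norm.1 hg)).1
    have p := Real.pi_pos
    show |g.re| < 13 * π / 16
    linarith
  have Ed : DifferentiableOn ℂ E (Metric.closedBall (3 * π / 8 : ℂ) (1 / 4)) :=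
    (hol.mono sub).sub (Differentiable.differentiableOn (by fun_prop))
  have cau := Complex.norm_deriv_le_of_forall_mem_sphere_norm_le (by norm_num : (0 : ℝ) < 1 / 4)
    (DifferentiableOn.diffContOnCl (by rwa [closure_ball _ (by norm_num)]) :
      DiffContOnCl ℂ E (Metric.ball (3 * π / 8 : ℂ) (1 / 4)))
    (fun z hz => key z (mem_sphere_iff_norm.1 hz).le)
  have Lc : (L : ℂ) ≠ 0 := Complex.ofReal_ne_zero.2 L0.ne'
  have b3 : 1 / (L * r) ≤ 1 / r := by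
    gcongr
    nlinarith
  constructor
  · have k := key (3 * π / 8) (by simp)
    have e : Θ (3 * π / 8) - a₀ = E (3 * π / 8) - 2 * (a₂ / (L : ℂ) ^ 2) := by
      simp only [hE, ane_val, Complex.inv_I, neg_sq, Complex.I_sq]
      ring
    have k1 : ‖2 * (a₂ / (L : ℂ) ^ 2)‖ ≤ 2 * (c * (1 / r)) := by
      rw [norm_mul, norm_div, norm_pow, Complex.norm_real, Real.norm_of_nonneg L0.le,
        Complex.norm_ofNat]
      refine mul_le_mul_of_nonneg_left ?_ (by norm_num)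
      rw [div_le_iff₀ (by positivity)]
      refine h2.trans ?_
      rw [mul_assoc]
      refine mul_le_mul_of_nonneg_left ?_ hc.le
      rw [one_div, inv_mul_eq_div, le_div_iff₀ r0]
      have : r ^ 4 ≤ r ^ 6 := pow_le_pow_right₀ hr (by norm_num)
      nlinarith
    have k2 : 40 * c / (L * r) ≤ 40 * c * (1 / r) := by
      rw [div_eq_mul_one_div]
      gcongr
    have k3 : 0 ≤ c * (1 / r) := by positivity
    rw [e, div_eq_mul_one_div (200 * c)]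
    refine (norm_sub_le _ _).trans ?_
    linarith
  · have n : Ust ∈ nhds (3 * π / 8 : ℂ) :=
      Filter.mem_of_superset (Metric.closedBall_mem_nhds _ (by norm_num)) sub
    have d0 := (hol.differentiableAt n).hasDerivAt
    have d1 := ane_deriv (3 * π / 8)
    have d2 := d1.inv (yy_ne _)
    have d3 := d0.sub (((d1.add d2).const_mul (a₁ / L)).const_add a₀ |>.add
      (((d1.pow 2).add (d2.pow 2)).const_mul (a₂ / (L : ℂ) ^ 2)))
    have d4 : deriv E (3 * π / 8) = deriv Θ (3 * π / 8) + 8 / 3 * (a₁ / L) := by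
      refine (HasDerivAt.deriv d3).trans ?_
      simp only [Pi.inv_apply, ane_val, Complex.inv_I, Complex.I_sq]
      linear_combination (-(8 / 3 : ℂ) * (a₁ / L)) * Complex.I_sq
    have s0 : ((√3 : ℝ) : ℂ) ≠ 0 := Complex.ofReal_ne_zero.2 (by linarith)
    have t0 : (T : ℂ) ≠ 0 := by exact_mod_cast T0.ne'
    have e : T * deriv Θ (3 * π / 8) + 4 / (3 * √3) * a₁ = T * deriv E (3 * π / 8) := by
      rw [d4, ← hLc]
      field_simp
      ring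
    rw [e, norm_mul, Complex.norm_natCast]
    refine (mul_le_mul L1 cau (norm_nonneg _) L0.le).trans ?_
    have e2 : L * (40 * c / (L * r) / (1 / 4)) = 160 * c / r := by
      field_simp
      ring
    rw [e2]
    gcongr
    norm_num

end Pool.Agent.Lib.MP_4960b8_pr.PT
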