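import Pool.Agent.Lib.MP_4960b8_pr.PT.AnB
import Pool.Agent.Lib.MP_4960b8_pr.PT.AnE
import Pool.Agent.Lib.MP_4960b8_pr.PT.AnJ

/-! The expansion holds (plan N7). -/

namespace Pool.Agent.Lib.MP_4960b8_pr.PT

open QK Real Polynomial

lemma anf_exp : exp (4 / 3) ≤ 4 := by
  have h : exp (4 / 3) = exp (2 / 3) * exp (2 / 3) := by
    rw [← Real.exp_add]
    norm_num
  rw [h]
  nlinarith [ane_exp, Real.exp_pos (2 / 3 : ℝ)]

lemma anf_level {τ x : ℝ} (h : exp (-4 * τ / 3) = x) (hx : x ≤ 1 / 4) : 1 ≤ τ := by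
  have h1 : exp (-4 * τ / 3 + 4 / 3) ≤ exp 0 := by
    rw [Real.exp_add, Real.exp_zero, h]
    nlinarith [anf_exp, Real.exp_pos (4 / 3 : ℝ)]
  linarith [Real.exp_le_exp.1 h1]

/-- `th_bd`, `th_jump`, `strip` -/
theorem top_bd : ∃ c : ℝ, 0 < c ∧ ∀ r : ℝ, 1 ≤ r → ∃ T₀ : ℕ, ∀ T : ℕ, T₀ ≤ T → ∀ Pl : ℂ[X],
    Hyp T Pl → ∀ z : ℂ, |z.re| ≤ 3 * π / 4 → 2 * √3 * T * ‖yy z‖ = r → ‖Th T Pl z‖ ≤ c * r := by
  refine ⟨20001, by norm_num, fun r hr => ?_⟩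
  obtain ⟨T₁, hj⟩ := th_jump r
  refine ⟨max (max T₁ 1000) ⌈4 * r⌉₊, fun T hT Pl h z h1 h2 => ?_⟩
  have hT1 : T₁ ≤ T := le_of_max_le_left (le_of_max_le_left hT)
  have hT2 : 1000 ≤ T := le_of_max_le_right (le_of_max_le_left hT)
  have hT3 : 4 * r ≤ T := (Nat.le_ceil _).trans (Nat.cast_le.2 (le_of_max_le_right hT))
  obtain ⟨s1, s2⟩ := ane_sqrt
  have T0 : (0 : ℝ) < T := by linarith
  have y0 := norm_nonneg (yy z)
  have y1 : T * ‖yy z‖ ≤ r / 2 := by nlinarith [mul_nonneg T0.le y0]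
  have t1 : 1 ≤ z.im := anf_level (yy_norm z).symm (by nlinarith)
  have y2 : ∀ w : ℂ, |w.im - z.im| ≤ 1 / 2 → 0 < w.im ∧ T * ‖yy w‖ ≤ r := fun w hw => by
    rw [abs_le] at hw
    refine ⟨by linarith [hw.1], ?_⟩
    have : ‖yy w‖ ≤ 2 * ‖yy z‖ := by
      rw [yy_norm, yy_norm]
      calc exp (-4 * w.im / 3) ≤ exp (2 / 3 + -4 * z.im / 3) :=
            Real.exp_le_exp.2 (by linarith [hw.1])
        _ ≤ _ := by
          rw [Real.exp_add]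
          exact mul_le_mul_of_nonneg_right ane_exp (Real.exp_pos _).le
    nlinarith
  have k := strip (f := fun w => Th T Pl w - 1) (τ := z.im) (M := 200 * r)
    (((th_hol T Pl).mono fun w hw => by
      have hw' : |w.im - z.im| < 1 := hw
      show 0 < w.im
      linarith [(abs_lt.1 hw').1]).sub_const 1)
    (fun w a b => by
      obtain ⟨c1, c2⟩ := y2 w b
      refine (th_bd hT2 h a.le c1.le).trans ?_
      have : √(2 * T * ‖yy w‖) ≤ 2 * r := Real.sqrt_le_iff.2 ⟨by linarith, by nlinarith⟩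
      linarith)
    (fun w a b => by
      obtain ⟨c1, c2⟩ := y2 w b
      rw [sub_sub_sub_cancel_right]
      refine (hj T hT1 Pl h w a c1 c2).trans ?_
      have e1 : √(T * ‖yy w‖) ≤ r := Real.sqrt_le_iff.2 ⟨by linarith, by nlinarith⟩
      have e2 : exp (-(2 * √3 * T * ‖yy w‖)) ≤ 1 :=
        Real.exp_le_one_iff.2 (neg_nonpos.2 (by positivity))
      calc _ ≤ 100 * (1 + r) * 1 := by gcongr
        _ ≤ _ := by linarith)
    (z := z) (by linarith) (by simp)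
  have k2 := norm_sub_norm_le (Th T Pl z) 1
  rw [norm_one] at k2
  linarith

lemma anf_decay : ∃ K : ℝ, 0 < K ∧ ∀ u r : ℝ, 1 ≤ r → r ≤ 4 * u →
    2 * exp (-(0.9 * u)) * (1 + √(2 * u)) * u ^ 2 * r ^ 11 ≤ K := by
  refine ⟨2 * 7 * 4 ^ 11 * ((Nat.factorial 14 : ℝ) / 0.9 ^ 14), by positivity, fun u r h1 h2 => ?_⟩
  have u0 : 0 < u := by linarith
  have e1 : √(2 * u) ≤ 1 / 2 + u := Real.sqrt_le_iff.2 ⟨by linarith, by nlinarith [sq_nonneg (u - 1 / 2)]⟩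
  have e2 : 1 + √(2 * u) ≤ 7 * u := by linarith
  have e3 : exp (-(0.9 * u)) * u ^ 14 ≤ (Nat.factorial 14 : ℝ) / 0.9 ^ 14 := by
    have h := Real.pow_div_factorial_le_exp (0.9 * u) (by positivity) 14
    rw [div_le_iff₀ (by positivity), mul_pow] at h
    rw [le_div_iff₀ (by positivity), Real.exp_neg, mul_assoc, inv_mul_le_iff₀ (Real.exp_pos _)]
    linarith
  calc _ ≤ 2 * exp (-(0.9 * u)) * (7 * u) * u ^ 2 * (4 * u) ^ 11 := by gcongr
    _ = 2 * 7 * 4 ^ 11 * (exp (-(0.9 * u)) * u ^ 14) := by ring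
    _ ≤ _ := by gcongr

/-- `rep` with `top_bd` and `th_line`; `exp (4 / 3) ≤ 4` -/
theorem expand : ∃ c : ℝ, 0 < c ∧ ∀ r : ℝ, 1 ≤ r → ∃ T₀ : ℕ, ∀ T : ℕ, T₀ ≤ T → ∀ Pl : ℂ[X],
    Hyp T Pl → ∃ a₀ a₁ a₂ : ℂ, Expa c r T (Th T Pl) a₀ a₁ a₂ := by
  obtain ⟨c, hc, htop⟩ := top_bd
  obtain ⟨K, hK, hdec⟩ := anf_decay
  refine ⟨2 * c + 12 * K, by positivity, fun r hr => ?_⟩
  obtain ⟨T₁, ht⟩ := htop r hr
  refine ⟨max (max T₁ 1000) ⌈4 * r⌉₊, fun T hT Pl h => ?_⟩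
  have hT1 : T₁ ≤ T := le_of_max_le_left (le_of_max_le_left hT)
  have hT2 : 1000 ≤ T := le_of_max_le_right (le_of_max_le_left hT)
  have hT3 : 4 * r ≤ T := (Nat.le_ceil _).trans (Nat.cast_le.2 (le_of_max_le_right hT))
  obtain ⟨s1, s2⟩ := ane_sqrt
  have s3 : √3 * √3 = 3 := Real.mul_self_sqrt (by norm_num)
  have r0 : 0 < r := by linarith
  have T0 : (0 : ℝ) < T := by linarith
  obtain ⟨L, hL⟩ : ∃ L : ℝ, L = 2 * √3 * T := ⟨_, rfl⟩
  have L1 : (T : ℝ) ≤ L := by rw [hL]; nlinarith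
  have L0 : 0 < L := by linarith
  have hLc : (2 * √3 * T : ℂ) = L := by rw [hL]; push_cast; rfl
  have Lc : (L : ℂ) ≠ 0 := Complex.ofReal_ne_zero.2 L0.ne'
  obtain ⟨τ₀, h0⟩ : ∃ τ₀ : ℝ, exp (-4 * τ₀ / 3) = r / L := ⟨-(3 / 4) * log (r / L), by
    rw [show -4 * (-(3 / 4) * log (r / L)) / 3 = log (r / L) by ring,
      Real.exp_log (by positivity)]⟩
  have t1 : 1 ≤ τ₀ := anf_level h0 (by rw [div_le_iff₀ L0]; linarith)
  obtain ⟨a₀, α₁, α₂, b1, b2, b3⟩ := rep (Θ := Th T Pl) (τ₀ := τ₀) (M := c * r)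
    (J := 12 * K / (L * r ^ 12)) (anac_hol T Pl) (fun z hz => anac_even h.fe hz) t1
    (fun x hx => ht T hT1 Pl h _ (by simpa using hx) (by
      have : ((x : ℂ) + τ₀ * Complex.I).im = τ₀ := by simp
      rw [yy_norm, this, h0, ← hL]
      field_simp))
    (fun τ p1 p2 => by
      have k := th_line hT2 h p1
      have y1 : r / L ≤ exp (-4 * τ / 3) := h0 ▸ Real.exp_le_exp.2 (by linarith)
      have y2 : exp (4 * (τ - τ₀) / 3) = r / L / exp (-4 * τ / 3) := by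
        rw [← h0, ← Real.exp_sub]
        congr 1
        ring
      have y0 := Real.exp_pos (-4 * τ / 3)
      rw [y2]
      generalize exp (-4 * τ / 3) = Y at k y1 y0
      rw [div_le_iff₀ L0, hL] at y1
      have k2 := hdec (T * Y) r hr (by nlinarith [mul_pos T0 y0])
      refine (mul_le_mul_of_nonneg_right k y0.le).trans ?_
      have e : 12 * K / (L * r ^ 12) * (r / L / Y) = K / (T ^ 2 * r ^ 11 * Y) := by
        have : L ^ 2 = 12 * T ^ 2 := by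
          rw [hL]
          linear_combination 4 * (T : ℝ) ^ 2 * s3
        field_simp
        linear_combination -this
      rw [e, le_div_iff₀ (by positivity)]
      refine le_of_eq_of_le ?_ k2
      ring)
  rw [h0] at b1 b2 b3
  refine ⟨a₀, α₁ * L, α₂ * (L : ℂ) ^ 2, ?_, ?_, fun g g1 g2 g3 => ?_⟩
  · rw [norm_mul, Complex.norm_real, Real.norm_of_nonneg L0.le]
    calc _ ≤ c * r * (r / L) * L := by gcongr
      _ = c * r ^ 2 := by field_simp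
      _ ≤ _ := by gcongr; linarith
  · rw [norm_mul, norm_pow, Complex.norm_real, Real.norm_of_nonneg L0.le]
    calc _ ≤ c * r * (r / L) ^ 2 * L ^ 2 := by gcongr
      _ = c * r ^ 3 := by field_simp
      _ ≤ _ := by gcongr; linarith
  · rw [← hL] at g2 g3 ⊢
    have lev : ∀ t : ℝ, 4 * r ≤ L * exp (-4 * t / 3) → t ≤ τ₀ - 1 := fun t ht => by
      have h1 : exp (4 / 3 + -4 * τ₀ / 3) ≤ exp (-4 * t / 3) := by
        rw [Real.exp_add, h0, ← mul_div_assoc, div_le_iff₀ L0]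
        nlinarith [anf_exp]
      linarith [Real.exp_le_exp.1 h1]
    have i1 := lev g.im (by rwa [yy_norm] at g2)
    have i2 := lev (-g.im) (by
      rwa [yy_norm, ← Real.exp_neg, show -(-4 * g.im / 3) = -4 * -g.im / 3 by ring] at g3)
    have k := b3 g g1 (abs_le.2 ⟨by linarith, i1⟩)
    rw [hLc, mul_div_cancel_right₀ _ Lc, mul_div_cancel_right₀ _ (pow_ne_zero 2 Lc)]
    refine k.trans ?_
    have p1 : 0 ≤ r ^ 4 / L ^ 3 * (‖yy g‖ ^ 3 + ‖yy g‖⁻¹ ^ 3) := by positivity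
    have p2 : 0 ≤ (‖yy g‖ + ‖yy g‖⁻¹) / (L * r ^ 12) := by positivity
    have e1 : 2 * (c * r) * (r / L) ^ 3 * (‖yy g‖ ^ 3 + ‖yy g‖⁻¹ ^ 3) =
      2 * c * (r ^ 4 / L ^ 3 * (‖yy g‖ ^ 3 + ‖yy g‖⁻¹ ^ 3)) := by ring
    have e2 : 12 * K / (L * r ^ 12) * (‖yy g‖ + ‖yy g‖⁻¹) =
      12 * K * ((‖yy g‖ + ‖yy g‖⁻¹) / (L * r ^ 12)) := by ring
    rw [e1, e2]
    nlinarith [mul_nonneg hc.le p2, mul_nonneg hK.le p1]

end Pool.Agent.Lib.MP_4960b8_pr.PT
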