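import Pool.Agent.Lib.MP_4960b8_pr.QK.CombB
import Pool.Agent.Lib.MP_4960b8_pr.QK.AlgD

/-! Value and logarithmic derivative at `3 π / 8`, with the explicit coefficient of `T`. -/

namespace Pool.Agent.Lib.MP_4960b8_pr.PT

open QK Real Polynomial Filter Topology

/-- logarithmic derivative -/
def LD (f : ℂ → ℂ) (g α : ℂ) : Prop := HasDerivAt f (α * f g) g

variable {f h : ℂ → ℂ} {g α β : ℂ}

lemma LD.mul (a : LD f g α) (b : LD h g β) : LD (fun z => f z * h z) g (α + β) :=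
  (HasDerivAt.mul a b).congr_deriv (by ring)

lemma LD.div (a : LD f g α) (b : LD h g β) (n : h g ≠ 0) : LD (fun z => f z / h z) g (α - β) :=
  (HasDerivAt.div a b n).congr_deriv (by field_simp)

lemma LD.pow (a : LD f g α) (n : ℕ) : LD (fun z => f z ^ n) g (n * α) := by
  induction n with
  | zero => simpa [LD] using hasDerivAt_const g (1 : ℂ)
  | succ n ih =>
    have := ih.mul a
    simp only [← pow_succ] at this
    rwa [Nat.cast_succ, add_mul, one_mul]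

lemma LD.quad (a : LD f g α) (c : ℂ) (e : β * (1 + c * f g + f g ^ 2) = α * f g * (c + 2 * f g)) :
    LD (fun z => 1 + c * f z + f z ^ 2) g β :=
  ((((HasDerivAt.const_mul c a).const_add 1).add (HasDerivAt.pow a 2)).congr_deriv
    (by simp only [e]; simp; ring))

lemma LD.one_sub (a : LD f g α) (n : 1 - f g ≠ 0) :
    LD (fun z => 1 - f z) g (-(α * f g) / (1 - f g)) :=
  (HasDerivAt.const_sub 1 a).congr_deriv (by field_simp)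

lemma ld_ev (g : ℂ) : LD (ev 0) g (Complex.I / 3) := by
  have h := ((((hasDerivAt_id g).add_const (((0 : ℤ) : ℂ) * (π / 8))).const_mul
    Complex.I).div_const 3).cexp
  exact h.congr_deriv (by simp only [ev, id]; ring)

lemma w_prod (T : ℕ) (Pl : ℂ[X]) {g : ℂ} (n0 : 1 - ev 0 g ^ 2 ≠ 0) (na : 1 - ev 1 g ≠ 0)
    (nb : 1 - ev (-1) g ≠ 0) (nc : 1 - ev 5 g ≠ 0) (nd : 1 - ev (-5) g ≠ 0) :
    Th T Pl g = (1 - (ev 0 g ^ 3) ^ 2) / (1 - ev 0 g ^ 4) *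
      ((1 + -c18 * ev 0 g ^ 3 + (ev 0 g ^ 3) ^ 2) /
        (1 + -√3 * ev 0 g ^ 4 + (ev 0 g ^ 4) ^ 2)) ^ (T + 1) *
      ((1 + √3 * ev 0 g ^ 4 + (ev 0 g ^ 4) ^ 2) / ((1 + c18 * ev 0 g ^ 3 + (ev 0 g ^ 3) ^ 2) *
        (1 + c38 * ev 0 g ^ 3 + (ev 0 g ^ 3) ^ 2))) ^ T * Pl.eval (ev 0 g ^ 3) := by
  have a3 := anac_ev_pow 1 g 3 (π / 8) (by push_cast; ring)
  have a4 := anac_ev_pow 1 g 4 (π / 6) (by push_cast; ring)
  have c3 := anac_ev_pow 5 g 3 (5 * π / 8) (by push_cast; ring)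
  have c4 := anac_ev_pow 5 g 4 (5 * π / 6) (by push_cast; ring)
  rw [anac_cos1] at a4
  rw [anac_cos2] at c4
  rw [anac_cos3] at c3
  change _ = 1 - (c18 : ℂ) * _ + _ at a3
  unfold Th
  generalize ev 0 g = u at *
  generalize ev 1 g = a at *
  generalize ev (-1) g = b at *
  generalize ev 5 g = c at *
  generalize ev (-5) g = d at *
  have e1 : q3 (u ^ 2) / (1 + u ^ 2) = (1 - (u ^ 3) ^ 2) / (1 - u ^ 4) := by
    rw [← mul_div_mul_left _ _ n0]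
    unfold q3
    congr 1 <;> ring
  have e2 : q3 a * q3 b / (q4 a * q4 b) =
      (1 + -c18 * u ^ 3 + (u ^ 3) ^ 2) / (1 + -√3 * u ^ 4 + (u ^ 4) ^ 2) := by
    rw [← mul_div_mul_left _ _ (mul_ne_zero na nb)]
    unfold q3 q4
    congr 1
    · linear_combination a3
    · linear_combination a4
  have e3 : q4 c * q4 d / (q3 c * q3 d * (1 + c18 * u ^ 3 + u ^ 6)) =
      (1 + √3 * u ^ 4 + (u ^ 4) ^ 2) /
        ((1 + c18 * u ^ 3 + (u ^ 3) ^ 2) * (1 + c38 * u ^ 3 + (u ^ 3) ^ 2)) := by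
    rw [← mul_div_mul_left _ _ (mul_ne_zero nc nd)]
    unfold q3 q4
    push_cast at c3 c4
    congr 1
    · linear_combination c4
    · linear_combination (1 + c18 * u ^ 3 + u ^ 6) * c3
  rw [e1, e2, e3]

lemma w_ne {θ : ℝ} (h0 : θ ≠ 0) (h1 : |θ| < 2 * π) {v : ℂ} (e : v = Complex.exp (θ * Complex.I)) :
    1 - v ≠ 0 := fun h => by
  have h2 := congrArg Complex.re (e.symm.trans (sub_eq_zero.1 h).symm)
  rw [Complex.exp_ofReal_mul_I_re, Complex.one_re] at h2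
  exact h0 ((cos_eq_one_iff_of_lt_of_lt (abs_lt.1 h1).1 (abs_lt.1 h1).2).1 h2)

lemma w_ev (j : ℤ) (h0 : j ≠ -3) (h1 : -5 ≤ j) (h2 : j ≤ 5) :
    ∀ᶠ g in 𝓝 (3 * π / 8 : ℂ), 1 - ev j g ≠ 0 := by
  have hp := pi_pos
  have a1 : (-5 : ℝ) ≤ j := by exact_mod_cast h1
  have a2 : (j : ℝ) ≤ 5 := by exact_mod_cast h2
  have a3 : (3 + j : ℝ) ≠ 0 := by exact_mod_cast (by omega : 3 + j ≠ 0)
  refine (continuous_const.sub (anac_ev_diff j).continuous).continuousAt.eventually_ne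
    (w_ne (θ := (3 + j) * (π / 24)) (mul_ne_zero a3 (by positivity)) ?_ ?_)
  · rw [abs_lt]
    constructor <;> nlinarith
  · unfold ev
    congr 1
    push_cast
    ring

theorem th_val2 : ∃ θ b : ℂ, θ ≠ 0 ∧ ∀ (T : ℕ) (Pl : ℂ[X]),
    Pl.eval (ζ ^ 3) = (2 * c18 * ζ ^ 3) ^ T → Th T Pl (3 * π / 8) = θ ∧
      deriv (Th T Pl) (3 * π / 8) * Pl.eval (ζ ^ 3) =
        θ * (((((3 / 2 + 3 * √2 / 2 - 16 * √3 / 9 : ℝ) : ℂ) - Complex.I) * T + b) *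
          Pl.eval (ζ ^ 3) + Complex.I * ζ ^ 3 * Pl.derivative.eval (ζ ^ 3)) := by
  have hp := pi_pos
  have u : ∀ n : ℕ, ev 0 (3 * π / 8) ^ n = ζ ^ n := fun n => by
    unfold ev ζ
    congr 2
    push_cast
    ring
  have s3 : ((√3 : ℝ) : ℂ) ^ 2 = 3 := by
    rw [← Complex.ofReal_pow, Real.sq_sqrt (by norm_num)]; norm_num
  have n3 : ((√3 : ℝ) : ℂ) ≠ 0 := fun e => by rw [e] at s3; norm_num at s3
  have z : ∀ n : ℕ, 0 < n → n < 16 → 1 - ζ ^ n ≠ 0 := fun n h0 h1 =>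
    sub_ne_zero.2 (pow_zero ζ ▸ zeta_pow_ne (by norm_num) h1 h0.ne)
  have x := (ld_ev (3 * π / 8)).pow 3
  have y := (ld_ev (3 * π / 8)).pow 4
  have v1 : 1 + -(c18 : ℂ) * ζ ^ 3 + (ζ ^ 3) ^ 2 = (1 - ζ ^ 2) * (1 - ζ ^ 4) := by
    rw [c18_eq]; linear_combination ζ ^ 2 * h8
  have v2 : 1 + -((√3 : ℝ) : ℂ) * ζ ^ 4 + (ζ ^ 4) ^ 2 = -(√3 * ζ ^ 4) := by
    linear_combination h8
  have v3 : 1 + ((√3 : ℝ) : ℂ) * ζ ^ 4 + (ζ ^ 4) ^ 2 = √3 * ζ ^ 4 := by linear_combination h8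
  have v4 : (1 - ζ ^ 2) * (1 + (c18 : ℂ) * ζ ^ 3 + (ζ ^ 3) ^ 2) = 2 := by
    rw [c18_eq]; linear_combination (-1 - ζ ^ 2 + ζ ^ 4) * h8
  have v5 : (1 - ζ ^ 2 - ζ ^ 4 - ζ ^ 6) * (1 + (c38 : ℂ) * ζ ^ 3 + (ζ ^ 3) ^ 2) = 4 := by
    rw [c38_eq]
    linear_combination
      (norm := (ring_nf; simp (disch := decide) only [algb_z, Nat.reduceSub]; ring))
  have m1 : 1 + -(c18 : ℂ) * ζ ^ 3 + (ζ ^ 3) ^ 2 ≠ 0 :=
    v1 ▸ mul_ne_zero (z 2 (by norm_num) (by norm_num)) (z 4 (by norm_num) (by norm_num))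
  have m3 : ((√3 : ℝ) : ℂ) * ζ ^ 4 ≠ 0 := mul_ne_zero n3 (pow_ne_zero _ zeta_ne)
  have m2 : 1 + -((√3 : ℝ) : ℂ) * ζ ^ 4 + (ζ ^ 4) ^ 2 ≠ 0 := v2 ▸ neg_ne_zero.2 m3
  have m4 : 1 + (c18 : ℂ) * ζ ^ 3 + (ζ ^ 3) ^ 2 ≠ 0 := fun e => by rw [e] at v4; norm_num at v4
  have m5 : 1 + (c38 : ℂ) * ζ ^ 3 + (ζ ^ 3) ^ 2 ≠ 0 := fun e => by rw [e] at v5; norm_num at v5
  have m6 : 1 - (ζ ^ 3) ^ 2 ≠ 0 := by rw [← pow_mul]; exact z 6 (by norm_num) (by norm_num)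
  have m7 := z 4 (by norm_num) (by norm_num)
  have l1 := x.quad (β := Complex.I + 1 + (√2 : ℝ) / 2) (-c18) (by
    simp only [u, c18_eq, sqrt_two_eq, I_eq]
    push_cast
    linear_combination
      (norm := (ring_nf; simp (disch := decide) only [algb_z, Nat.reduceSub]; ring)))
  have l4 := x.quad (β := Complex.I - (√2 : ℝ) / 2) c18 (by
    simp only [u, c18_eq, sqrt_two_eq, I_eq]
    push_cast
    linear_combination
      (norm := (ring_nf; simp (disch := decide) only [algb_z, Nat.reduceSub]; ring)))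
  have l5 := x.quad (β := Complex.I - ((√2 : ℝ) + 1) / 2) c38 (by
    simp only [u, c38_eq, sqrt_two_eq, I_eq]
    push_cast
    linear_combination
      (norm := (ring_nf; simp (disch := decide) only [algb_z, Nat.reduceSub]; ring)))
  have l2 := y.quad (β := 4 / 3 * (Complex.I + 2 * (√3 : ℝ) / 3)) (-(√3 : ℝ)) (by
    simp only [u, v2, I_eq]
    push_cast
    linear_combination -8 / 9 * ζ ^ 4 * s3 - 8 / 3 * ζ ^ 4 * h8)
  have l3 := y.quad (β := 4 / 3 * (Complex.I - 2 * (√3 : ℝ) / 3)) (√3 : ℝ) (by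
    simp only [u, v3, I_eq]
    push_cast
    linear_combination -8 / 9 * ζ ^ 4 * s3 - 8 / 3 * ζ ^ 4 * h8)
  have l0 := ((x.pow 2).one_sub (by rw [u]; exact m6)).div (y.one_sub (by rw [u]; exact m7))
    (by rw [u]; exact m7)
  have l6 := l1.div l2 (by rw [u]; exact m2)
  have l7 := l3.div (l4.mul l5) (by rw [u]; exact mul_ne_zero m4 m5)
  obtain ⟨b, l0⟩ : ∃ b, LD (fun z => (1 - (ev 0 z ^ 3) ^ 2) / (1 - ev 0 z ^ 4)) (3 * π / 8) b :=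
    ⟨_, l0⟩
  have k : (1 + -(c18 : ℂ) * ζ ^ 3 + (ζ ^ 3) ^ 2) / (1 + -(√3 : ℝ) * ζ ^ 4 + (ζ ^ 4) ^ 2) *
      ((1 + (√3 : ℝ) * ζ ^ 4 + (ζ ^ 4) ^ 2) / ((1 + c18 * ζ ^ 3 + (ζ ^ 3) ^ 2) *
        (1 + c38 * ζ ^ 3 + (ζ ^ 3) ^ 2))) * (2 * c18 * ζ ^ 3) = 1 := by
    rw [div_mul_div_comm, div_mul_eq_mul_div, div_eq_one_iff_eq (mul_ne_zero m2
      (mul_ne_zero m4 m5)), v2, v3, c18_eq, c38_eq]
    linear_combination
      (norm := (ring_nf; simp (disch := decide) only [algb_z, Nat.reduceSub]; ring))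
  refine ⟨(1 - (ζ ^ 3) ^ 2) / (1 - ζ ^ 4) * ((1 + -c18 * ζ ^ 3 + (ζ ^ 3) ^ 2) /
    (1 + -(√3 : ℝ) * ζ ^ 4 + (ζ ^ 4) ^ 2)), b + (Complex.I + 1 + (√2 : ℝ) / 2 -
      4 / 3 * (Complex.I + 2 * (√3 : ℝ) / 3)),
    mul_ne_zero (div_ne_zero m6 m7) (div_ne_zero m1 m2), fun T Pl hv => ?_⟩
  have h0 : ∀ᶠ g in 𝓝 (3 * π / 8 : ℂ), 1 - ev 0 g ^ 2 ≠ 0 :=
    (continuous_const.sub ((anac_ev_diff 0).continuous.pow 2)).continuousAt.eventually_ne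
      (by show 1 - ev 0 _ ^ 2 ≠ 0; rw [u]; exact z 2 (by norm_num) (by norm_num))
  have e := (h0.and ((w_ev 1 (by norm_num) (by norm_num) (by norm_num)).and
    ((w_ev (-1) (by norm_num) (by norm_num) (by norm_num)).and
      ((w_ev 5 (by norm_num) (by norm_num) (by norm_num)).and
        (w_ev (-5) (by norm_num) (by norm_num) (by norm_num)))))).mono
    fun g a => w_prod T Pl a.1 a.2.1 a.2.2.1 a.2.2.2.1 a.2.2.2.2
  have d := HasDerivAt.mul ((l0.mul (l6.pow (T + 1))).mul (l7.pow T))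
    ((Pl.hasDerivAt _).comp (3 * π / 8 : ℂ) x)
  have e1 := e.self_of_nhds
  have e2 := (EventuallyEq.deriv_eq e).trans d.deriv
  simp only [u, Function.comp] at e1 e2
  have k' := congrArg (· ^ T) k
  simp only [mul_pow _ (2 * c18 * ζ ^ 3), mul_pow (_ / _ : ℂ), one_pow, ← hv] at k'
  rw [e1, e2, pow_succ _ T]
  generalize (1 - (ζ ^ 3) ^ 2) / (1 - ζ ^ 4) = A at *
  generalize (1 + -(c18 : ℂ) * ζ ^ 3 + (ζ ^ 3) ^ 2) / (1 + -(√3 : ℝ) * ζ ^ 4 + (ζ ^ 4) ^ 2) = B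
    at *
  refine ⟨by linear_combination A * B * k', ?_⟩
  push_cast
  linear_combination (A * B * (((3 / 2 + 3 * (√2 : ℝ) / 2 - 16 * (√3 : ℝ) / 9 - Complex.I) * T +
    (b + (Complex.I + 1 + (√2 : ℝ) / 2 - 4 / 3 * (Complex.I + 2 * (√3 : ℝ) / 3)))) *
      Pl.eval (ζ ^ 3) + Complex.I * ζ ^ 3 * Pl.derivative.eval (ζ ^ 3))) * k'

end Pool.Agent.Lib.MP_4960b8_pr.PT
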