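import Pool.Agent.Lib.MP_4960b8_pr.SAW.Defs

/-! Self-avoiding polygons of the hexagonal lattice up to translation. -/

namespace Pool.Agent.Lib.MP_4960b8_pr.PT

open SAW

/-- Self-avoiding polygons up to translation, as lists of vertices: self-avoiding walks with more
than two vertices from `(1, 0, 0)` to its neighbour `(2, 0, 0)` that stay in the columns `j < 0`
and in the part `k ≥ 0` of the column `j = 0`. Adding the edge between the two ends gives a
polygon whose rightmost column is `j = 0` and whose lowest vertex in it is `(2, 0, 0)`. -/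
def polys : Set (List V) := {γ | γ.IsChain Adj ∧ γ.Nodup ∧ γ.head? = some ⟨1, 0, 0⟩ ∧
  γ.getLast? = some ⟨2, 0, 0⟩ ∧ 2 < γ.length ∧ ∀ v ∈ γ, v.j < 0 ∨ (v.j = 0 ∧ 0 ≤ v.k)}

/-- The polygons in which the rows of any two vertices differ by at most `T`. -/
def low (T : ℕ) : Set (List V) := {γ | γ ∈ polys ∧ ∀ u ∈ γ, ∀ v ∈ γ, u.k ≤ v.k + T}

end Pool.Agent.Lib.MP_4960b8_pr.PT
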