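import Pool.Agent.Lib.MP_4960b8_pr.PT.St

/-! The second charge and the common kernel (plan A1, A2). -/

namespace Pool.Agent.Lib.MP_4960b8_pr.PT

open QK

noncomputable def q2 : Op := loc fun a b => match a, b with
  | .m, .p => 1
  | _, _ => 0

/-- the second nilpotent charge -/
noncomputable def Q2 : ℕ → Op
  | 0 => 0
  | n + 1 => q2 + kq * lift (Q2 n)

def Ker (n : ℕ) (v : Vec) : Prop := Q n v = 0 ∧ Q2 n v = 0

/-- `k` empty sites, then `x`, `y`, then nothing -/
def sg : ℕ → S → S → St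
  | 0, x, y => cons x (cons y zer)
  | k + 1, x, y => cons .o (sg k x y)

lemma ker_Q2_succ (n : ℕ) : Q2 (n + 1) = q2 + kq * lift (Q2 n) := rfl

lemma ker_q2_o (v : Vec) (t : St) : q2 v (cons .o t) = 0 := by
  simp [q2, IdentAux.loc_apply]
lemma ker_q2_p (v : Vec) (t : St) : q2 v (cons .p t) = 0 := by
  simp [q2, IdentAux.loc_apply]
lemma ker_q2_m (v : Vec) (t : St) : q2 v (cons .m t) = v (cons .p t) := by
  simp [q2, IdentAux.loc_apply]

lemma ker_q2_R (a b : P) : (q2 + kq * lift q2) * R a b = R a b * (q2 + kq * lift q2) := by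
  refine ext2 fun v r s t => ?_
  cases r <;> cases s
  all_goals simp only [Module.End.mul_apply, R_apply, lift_apply, Rf, LinearMap.add_apply,
    Pi.add_apply, ker_q2_o, ker_q2_p, ker_q2_m, IdentAux.kq_o, IdentAux.kq_p, IdentAux.kq_m]
  case m.m =>
    linear_combination (ζ ^ 2 * (cr a b * v (cons .o (cons .o t)) + w2 a b *
      (ζ ^ 2 * v (cons .p (cons .m t)) - ζ ^ 6 * v (cons .m (cons .p t))))) * h8
  all_goals ring

lemma ker_Q2_two (n : ℕ) :
    Q2 (n + 2) = (q2 + kq * lift q2) + kq * lift kq * lift (lift (Q2 n)) := by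
  simp only [ker_Q2_succ, lift_add, lift_mul, mul_add, mul_assoc, add_assoc]

lemma ker_Q2_step {n n' : ℕ} {X : Op} (h : Q2 n * X = X * Q2 n') :
    Q2 (n + 1) * lift X = lift X * Q2 (n' + 1) := by
  have := local_step (fun a b => match a, b with
    | .m, .p => 1
    | _, _ => 0) 1 (ζ ^ 4) (-ζ ^ 4) 1 1 h
  simp only [one_smul] at this
  exact this

lemma ker_Q_step {n n' : ℕ} {X : Op} (h : Q n * X = X * Q n') :
    Q (n + 1) * lift X = lift X * Q (n' + 1) := by
  have := local_step (fun a b => match a, b with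
    | .p, .m => 1
    | _, _ => 0) 1 (ζ ^ 4) (-ζ ^ 4) 1 1 h
  simp only [one_smul] at this
  exact this

/-- copy of `Q_R` (first copy `q_R`, `local_Q_two`, `local_Q_step`) -/
theorem Q2_R (a b : P) {i n : ℕ} (h : i + 2 ≤ n) :
    Q2 n * liftN i (R a b) = liftN i (R a b) * Q2 n := by
  obtain ⟨j, rfl⟩ : ∃ j, n = j + 2 + i := ⟨n - 2 - i, by omega⟩
  clear h
  induction i with
  | zero =>
    show Q2 (j + 2) * R a b = R a b * Q2 (j + 2)
    rw [ker_Q2_two, add_mul, mul_add, ker_q2_R]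
    congr 1
    exact local_dd_R a b local_kq _
  | succ i ih => exact ker_Q2_step ih

lemma ker_Q2_down (k : P) (l : List P) {n : ℕ} (h : l.length + 1 ≤ n) :
    Q2 n * QK.down k l = QK.down k l * Q2 n := by
  induction l generalizing n with
  | nil =>
    show _ * 1 = 1 * _
    rw [mul_one, one_mul]
  | cons m l ih =>
    rw [List.length_cons] at h
    obtain ⟨j, rfl⟩ : ∃ j, n = j + 1 := ⟨n - 1, by omega⟩
    have h1 : Q2 (j + 1) * R m k = R m k * Q2 (j + 1) := Q2_R m k (i := 0) (by omega)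
    rw [QK.down, ← mul_assoc, h1, mul_assoc, ker_Q2_step (ih (by omega)), mul_assoc]

lemma ker_Q_stepN {n n' : ℕ} {X : Op} (h : Q n * X = X * Q n') (i : ℕ) :
    Q (n + i) * liftN i X = liftN i X * Q (n' + i) := by
  induction i with
  | zero => exact h
  | succ i ih => exact ker_Q_step ih

lemma ker_Q2_stepN {n n' : ℕ} {X : Op} (h : Q2 n * X = X * Q2 n') (i : ℕ) :
    Q2 (n + i) * liftN i X = liftN i X * Q2 (n' + i) := by
  induction i with
  | zero => exact h
  | succ i ih => exact ker_Q2_step ih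

lemma ker_map {n n' : ℕ} {X : Op} {v : Vec} (h1 : Q n * X = X * Q n') (h2 : Q2 n * X = X * Q2 n')
    (h : Ker n' v) : Ker n (X v) := by
  constructor
  · have e := LinearMap.congr_fun h1 v
    simp only [Module.End.mul_apply] at e
    rw [e, h.1, map_zero]
  · have e := LinearMap.congr_fun h2 v
    simp only [Module.End.mul_apply] at e
    rw [e, h.2, map_zero]

lemma ker_Q2_o (n : ℕ) (v : Vec) (t : St) :
    Q2 (n + 1) v (cons .o t) = Q2 n (QK.prj .o v) t := by
  show q2 v (cons .o t) + kq (lift (Q2 n) v) (cons .o t) = _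
  rw [ker_q2_o, IdentAux.kq_o, zero_add]
  rfl
lemma ker_Q2_p (n : ℕ) (v : Vec) (t : St) :
    Q2 (n + 1) v (cons .p t) = ζ ^ 4 * Q2 n (QK.prj .p v) t := by
  show q2 v (cons .p t) + kq (lift (Q2 n) v) (cons .p t) = _
  rw [ker_q2_p, IdentAux.kq_p, zero_add]
  rfl
lemma ker_Q2_m (n : ℕ) (v : Vec) (t : St) :
    Q2 (n + 1) v (cons .m t) = v (cons .p t) + -ζ ^ 4 * Q2 n (QK.prj .m v) t := by
  show q2 v (cons .m t) + kq (lift (Q2 n) v) (cons .m t) = _
  rw [ker_q2_m, IdentAux.kq_m]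
  rfl
lemma ker_Q_o (n : ℕ) (v : Vec) (t : St) :
    Q (n + 1) v (cons .o t) = Q n (QK.prj .o v) t := congrFun (alga_prj_Q n v) t
lemma ker_Q_m (n : ℕ) (v : Vec) (t : St) :
    Q (n + 1) v (cons .m t) = -ζ ^ 4 * Q n (QK.prj .m v) t := by
  show q1 v (cons .m t) + kq (lift (Q n) v) (cons .m t) = _
  rw [IdentAux.q1_m, IdentAux.kq_m, zero_add]
  rfl

lemma ker_prj_Q2 (n : ℕ) (v : Vec) : QK.prj .o (Q2 (n + 1) v) = Q2 n (QK.prj .o v) := by
  funext t
  exact ker_Q2_o n v t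

lemma ker_Q2_zer (m : ℕ) (v : Vec) : Q2 m v zer = 0 := by
  induction m generalizing v with
  | zero => rfl
  | succ m ih => rw [← basic_cons_zer, ker_Q2_o, ih]

lemma ker_Q2_succ_supp {n : ℕ} {v : Vec} (h : Supp n v) : Q2 (n + 1) v = Q2 n v := by
  induction n generalizing v with
  | zero =>
    funext σ
    obtain ⟨x, t, rfl⟩ := basic_ex1 σ
    have e : v (cons .p t) = 0 := h _ 0 le_rfl (by simp [cons])
    cases x
    · rw [ker_Q2_o]; rfl
    · rw [ker_Q2_p]; exact mul_zero _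
    · rw [ker_Q2_m, e, zero_add]; exact mul_zero _
  | succ n ih =>
    have e : lift (Q2 (n + 1)) v = lift (Q2 n) v := by
      funext σ
      obtain ⟨x, t, rfl⟩ := basic_ex1 σ
      rw [lift_apply, lift_apply, ih (basic_supp_cons h x)]
    show q2 v + kq (lift (Q2 (n + 1)) v) = q2 v + kq (lift (Q2 n) v)
    rw [e]

lemma ker_Q2_col (l : List P) {v : Vec} (h : Supp l.length v) :
    Q2 l.length (col l v) = col l (Q2 l.length v) := by
  have h1 := LinearMap.congr_fun (ker_Q2_down aux l (n := l.length + 1) le_rfl) v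
  simp only [Module.End.mul_apply] at h1
  show Q2 l.length (QK.prj .o (QK.down aux l v)) = QK.prj .o (QK.down aux l (Q2 l.length v))
  rw [← ker_prj_Q2, h1, ker_Q2_succ_supp h]

lemma ker_PS_q2 (n : ℕ) : basic_PS n n q2 := by
  cases n with
  | succ n => exact basic_PS_loc _ n
  | zero =>
    intro v hv σ i _ _
    obtain ⟨x, t, rfl⟩ := basic_ex1 σ
    have e : v (cons .p t) = 0 := hv _ 0 le_rfl (by simp)
    cases x
    · exact ker_q2_o _ _
    · exact ker_q2_p _ _
    · rw [ker_q2_m, e]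

lemma ker_PS_Q2 (m n : ℕ) : basic_PS n n (Q2 m) := by
  induction m generalizing n with
  | zero => exact basic_PS_zero _ _
  | succ m ih =>
    rw [ker_Q2_succ]
    exact basic_PS_add (ker_PS_q2 n)
      (basic_PS_mul (basic_PS_Dg (basic_Dg_dg _ _ _) n) (basic_PS_lift_all ih n))

lemma ker_PC_Q2 (m j : ℕ) : basic_PC (m + j) (m + j) (-2) (Q2 m) := by
  induction m with
  | zero => exact basic_PC_zero _ _ _
  | succ m ih =>
    rw [ker_Q2_succ, Nat.add_right_comm]
    refine basic_PC_add (basic_PC_loc _ _ ?_ _)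
      (basic_PC_mul1 (basic_PC_Dg (basic_Dg_dg _ _ _) _) (basic_PC_lift ih))
    intro x y hxy
    cases x <;> cases y <;> first | rfl | exact absurd (by decide) hxy

lemma ker_poly_Q2 (n : ℕ) : PolyO fun _ => Q2 n := by
  induction n with
  | zero => exact poly_zero
  | succ n ih =>
    have a : PolyO fun _ => q2 := poly_cloc _
    have b : PolyO fun _ => kq := poly_cloc _
    simp only [ker_Q2_succ]
    exact a.add (b.mul ih.lift)

lemma ker_good_Q2 {n : ℕ} {Ψ : List P → Vec} (h : Good n Ψ) (l : List P) (hl : l.length ≤ n) :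
    Q2 l.length (Ψ l) = 0 := by
  have e : ∀ x : ℕ → P, ((List.range l.length).map x).length = l.length := fun x => by simp
  have hs : ∀ x : ℕ → P, Supp l.length (Ψ ((List.range l.length).map x)) := fun x => by
    have := h.supp _ ((e x).trans_le hl)
    rwa [e] at this
  have := uniq (T := l.length) (v := fun x => Q2 l.length (Ψ ((List.range l.length).map x)))
    (ker_poly_Q2 _ _ ((alga_PL_range _ (g := fun x => x) PolyP.var).psi h.pol))
    (fun x => ker_PS_Q2 _ _ _ (hs x)) (fun x => ?_) (fun x => ?_) fun i => l.getD i 0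
  · rwa [poly_getD] at this
  · have := h.ch _ ((e x).trans_le hl)
    rw [e] at this
    exact (ker_PC_Q2 l.length 0 0 _ this).zer (by norm_num)
  · have h1 := ker_Q2_col ((List.range l.length).map x) (v := Ψ ((List.range l.length).map x))
      (by rw [e]; exact hs x)
    rw [e, h.col_fix _ ((e x).trans_le hl), map_smul] at h1
    exact h1.symm

lemma ker_Q_pp {n k : ℕ} (u : Vec) (hk : k + 2 ≤ n) :
    Q n u (sg k .p .p) = u (sg k .m .p) + ζ ^ 4 * u (sg k .p .m) := by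
  induction k generalizing n u with
  | zero =>
    obtain ⟨j, rfl⟩ : ∃ j, n = j + 2 := ⟨n - 2, by omega⟩
    show Q (j + 1 + 1) u (cons .p (cons .p zer)) = _
    rw [alga_Q_p, alga_Q_p, alga_Q_zer, mul_zero, add_zero]
    rfl
  | succ k ih =>
    obtain ⟨j, rfl⟩ : ∃ j, n = j + 1 := ⟨n - 1, by omega⟩
    show Q (j + 1) u (cons .o (sg k .p .p)) = _
    rw [ker_Q_o, ih _ (by omega)]
    rfl

lemma ker_Q_pm {n k : ℕ} (u : Vec) (hk : k + 2 ≤ n) :
    Q n u (sg k .p .m) = u (sg k .m .m) := by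
  induction k generalizing n u with
  | zero =>
    obtain ⟨j, rfl⟩ : ∃ j, n = j + 2 := ⟨n - 2, by omega⟩
    show Q (j + 1 + 1) u (cons .p (cons .m zer)) = _
    rw [alga_Q_p, ker_Q_m, alga_Q_zer, mul_zero, mul_zero, add_zero]
    rfl
  | succ k ih =>
    obtain ⟨j, rfl⟩ : ∃ j, n = j + 1 := ⟨n - 1, by omega⟩
    show Q (j + 1) u (cons .o (sg k .p .m)) = _
    rw [ker_Q_o, ih _ (by omega)]
    rfl

lemma ker_Q2_mm {n k : ℕ} (u : Vec) (hk : k + 2 ≤ n) :
    Q2 n u (sg k .m .m) = u (sg k .p .m) + -ζ ^ 4 * u (sg k .m .p) := by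
  induction k generalizing n u with
  | zero =>
    obtain ⟨j, rfl⟩ : ∃ j, n = j + 2 := ⟨n - 2, by omega⟩
    show Q2 (j + 1 + 1) u (cons .m (cons .m zer)) = _
    rw [ker_Q2_m, ker_Q2_m, ker_Q2_zer, mul_zero, add_zero]
    rfl
  | succ k ih =>
    obtain ⟨j, rfl⟩ : ∃ j, n = j + 1 := ⟨n - 1, by omega⟩
    show Q2 (j + 1) u (cons .o (sg k .m .m)) = _
    rw [ker_Q2_o, ih _ (by omega)]
    rfl

/-- use `Q_down`, its copy for `Q2` and `i` times the step lemmas -/
theorem Ker.down {n : ℕ} {v : Vec} (h : Ker n v) (i : ℕ) (k : P) (l : List P)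
    (hl : i + l.length + 1 ≤ n) : Ker n (liftN i (down k l) v) := by
  obtain ⟨j, rfl⟩ : ∃ j, n = j + i := ⟨n - i, by omega⟩
  exact ker_map (ker_Q_stepN (Q_down k l (by omega)) i)
    (ker_Q2_stepN (ker_Q2_down k l (by omega)) i) h

/-- `Q_succ_supp` and its copy -/
theorem Ker.succ {n : ℕ} {v : Vec} (h : Ker n v) (hs : Supp n v) : Ker (n + 1) v :=
  ⟨(Q_succ_supp hs).trans h.1, (ker_Q2_succ_supp hs).trans h.2⟩

/-- removing an empty site -/
theorem Ker.prj {n : ℕ} {v : Vec} (i : ℕ) (h : Ker (n + 1) v) (hi : i ≤ n) :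
    Ker n (liftN i (prj .o) v) := by
  obtain ⟨j, rfl⟩ : ∃ j, n = j + i := ⟨n - i, by omega⟩
  have h1 : Q j * QK.prj .o = QK.prj .o * Q (j + 1) :=
    LinearMap.ext fun w => (alga_prj_Q j w).symm
  have h2 : Q2 j * QK.prj .o = QK.prj .o * Q2 (j + 1) :=
    LinearMap.ext fun w => (ker_prj_Q2 j w).symm
  have e : j + i + 1 = j + 1 + i := by omega
  rw [e] at h
  exact ker_map (ker_Q_stepN h1 i) (ker_Q2_stepN h2 i) h

/-- copy of `Good.Q_zero` (charge `-2`) -/
theorem good_ker {n : ℕ} {Ψ : List P → Vec} (h : Good n Ψ) (l : List P) (hl : l.length ≤ n) :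
    Ker l.length (Ψ l) :=
  ⟨h.Q_zero l hl, ker_good_Q2 h l hl⟩

/-- `Q` at the state `sg k p p` -/
theorem Ker.two {n k : ℕ} {u : Vec} (h : Ker n u) (hk : k + 2 ≤ n) :
    u (sg k .m .p) = -ζ ^ 4 * u (sg k .p .m) := by
  have h1 := ker_Q_pp u hk
  rw [h.1] at h1
  have h2 : (0 : ℂ) = u (sg k .m .p) + ζ ^ 4 * u (sg k .p .m) := h1
  linear_combination -h2

/-- `Q` at `p, p, sg k p m` and `Q2` at `p, m, sg k m m` -/
theorem Ker.star {n k : ℕ} {u : Vec} (h : Ker n u) (hk : k + 4 ≤ n) :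
    u (cons .p (cons .m (sg k .m .p))) = u (cons .m (cons .p (sg k .p .m))) := by
  obtain ⟨j, rfl⟩ : ∃ j, n = j + 1 + 1 := ⟨n - 2, by omega⟩
  have h1 := congrFun h.1 (cons .p (cons .p (sg k .p .m)))
  rw [alga_Q_p, alga_Q_p, ker_Q_pm _ (by omega)] at h1
  have h2 := congrFun h.2 (cons .p (cons .m (sg k .m .m)))
  rw [ker_Q2_p, ker_Q2_m, ker_Q2_mm _ (by omega)] at h2
  have g1 : u (cons .m (cons .p (sg k .p .m))) + ζ ^ 4 * (u (cons .p (cons .m (sg k .p .m))) +
      ζ ^ 4 * u (cons .p (cons .p (sg k .m .m)))) = 0 := h1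
  have g2 : ζ ^ 4 * (u (cons .p (cons .p (sg k .m .m))) + -ζ ^ 4 *
      (u (cons .p (cons .m (sg k .p .m))) + -ζ ^ 4 * u (cons .p (cons .m (sg k .m .p))))) = 0 := h2
  linear_combination -g1 + ζ ^ 4 * g2 + (ζ ^ 4 * u (cons .p (cons .m (sg k .p .m))) -
    (ζ ^ 8 - 1) * u (cons .p (cons .m (sg k .m .p)))) * h8

end Pool.Agent.Lib.MP_4960b8_pr.PT
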