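import Pool.Agent.Lib.MP_4960b8_pr.QK.PhysC

/-! The winding of a polygon (plan P). -/

namespace Pool.Agent.Lib.MP_4960b8_pr.PT

open QK SAW

lemma phw_sym : IsSym (gD 1 1 1) := sym_D (by norm_num)

lemma phw_turn (p q r : V) : turn (gD 1 1 1 p) (gD 1 1 1 q) (gD 1 1 1 r) = turn p q r := by
  have h : gD 1 1 1 r = Lf (gD 1 1 1 p) (gD 1 1 1 q) ↔ r = Lf p q := by
    simp only [gD, Lf, V.ext_iff]
    omega
  unfold turn
  simp only [h]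

lemma phw_wind (l : List V) : ∀ p q : V,
    wind (gD 1 1 1 p) (gD 1 1 1 q) (l.map (gD 1 1 1)) = wind p q l := by
  induction l with
  | nil => intro p q; rfl
  | cons r l ih => intro p q; rw [List.map_cons, wind_cons, wind_cons, phw_turn, ih]

/-- winding of the walk from the edge `Y(0,r) U(0,r+1)` back to `U(0,r)` -/
theorem wind_poly {r : ℤ} {l : List V} (h : Saw ⟨1 - r, 0, r⟩ ⟨1 - r, 0, r + 1⟩ l)
    (hj : ∀ v ∈ l, v.j ≤ 0) (hl : lv ⟨1 - r, 0, r + 1⟩ l = ⟨2 - r, 0, r⟩)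
    (hp : pv ⟨1 - r, 0, r⟩ ⟨1 - r, 0, r + 1⟩ l = ⟨2 - r, -1, r⟩) :
    wind ⟨1 - r, 0, r⟩ ⟨1 - r, 0, r + 1⟩ l = 4 := by
  have hj' : ∀ v ∈ (⟨1 - r, 0, r⟩ : V) :: ⟨1 - r, 0, r + 1⟩ :: l, v.j ≤ 0 := by
    intro v hv
    rcases List.mem_cons.1 hv with rfl | hv
    · exact le_rfl
    rcases List.mem_cons.1 hv with rfl | hv
    · exact le_rfl
    · exact hj v hv
  have ha : Adj ⟨1 - r, 1, r⟩ ⟨1 - r, 0, r⟩ := by
    rw [adj_iff]; dsimp only; omega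
  have hs : Saw ⟨1 - r, 1, r⟩ ⟨1 - r, 0, r⟩ (⟨1 - r, 0, r + 1⟩ :: l) :=
    saw_cons.2 ⟨ha, fun hm => by have := hj' _ hm; simp at this, h⟩
  have hne : l ≠ [] := by
    rintro rfl
    have := congrArg V.k hl
    simp only [lv_nil] at this
    omega
  have hu : UpE (gD 1 1 1 ⟨1 - r, 1, r⟩) (gD 1 1 1 ⟨1 - r, 0, r⟩) := by
    refine ⟨?_, ?_⟩
    · dsimp only [gD]; omega
    · rw [V.ext_iff]; dsimp only [gD]; omega
  have hb : Adj (⟨2 - r, 0, r⟩ : V) ⟨1 - r, 0, r⟩ := by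
    rw [adj_iff]; dsimp only; omega
  have h1 := wind_close (l₁ := []) (a := gD 1 1 1 ⟨1 - r, 0, r + 1⟩) (c := l.map (gD 1 1 1)) hu
    (hs.map phw_sym) (by
      intro u hm
      obtain ⟨v, hv, rfl⟩ : ∃ v ∈ (⟨1 - r, 0, r⟩ : V) :: ⟨1 - r, 0, r + 1⟩ :: l,
          gD 1 1 1 v = u := List.mem_map.1 hm
      have h2 := hj' v hv
      have h3 := h.valid hv
      unfold Valid at h3
      simp only [cY, gD]
      omega) (by simpa using hne) (by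
      rw [lv_map, hl, lv_nil]
      exact phw_sym.2 _ _ hb)
  have h2 := phw_wind ((⟨1 - r, 0, r + 1⟩ :: l) ++ [⟨1 - r, 0, r⟩]) ⟨1 - r, 1, r⟩ ⟨1 - r, 0, r⟩
  rw [List.map_append, List.map_cons, List.map_singleton] at h2
  rw [pv_nil, lv_nil, h2, phw_turn, List.cons_append, wind_cons, wind_append, hl, hp, wind_cons,
    wind_nil] at h1
  have t1 : turn ⟨1 - r, 1, r⟩ ⟨1 - r, 0, r⟩ ⟨1 - r, 0, r + 1⟩ = -1 := by
    unfold turn
    rw [if_neg]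
    rw [V.ext_iff]
    dsimp only [Lf]
    omega
  have t2 : turn ⟨2 - r, -1, r⟩ ⟨2 - r, 0, r⟩ ⟨1 - r, 0, r⟩ = 1 := by
    unfold turn
    rw [if_pos]
    rw [V.ext_iff]
    dsimp only [Lf]
    omega
  omega

end Pool.Agent.Lib.MP_4960b8_pr.PT
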