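import Pool.Agent.Lib.MP_4960b8_pr.PT.PhA
import Pool.Agent.Lib.MP_4960b8_pr.PT.PhW
import Pool.Agent.Lib.MP_4960b8_pr.QK.Main

/-! The partition functions count polygons (plan P, second half). -/

namespace Pool.Agent.Lib.MP_4960b8_pr.PT

open QK SAW

lemma phb_valid {γ : List V} (h : γ.IsChain Adj) (hl : 2 < γ.length) {v : V} (hv : v ∈ γ) :
    Valid v := by
  obtain _ | ⟨p, _ | ⟨q, l⟩⟩ := γ
  · simp at hl
  · simp at hl
  clear hl
  induction l generalizing p q with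
  | nil =>
    have h1 := (List.isChain_cons_cons.1 h).1
    rcases List.mem_cons.1 hv with rfl | hv
    · exact h1.valid_left
    · rw [List.mem_singleton.1 hv]; exact h1.valid_right
  | cons r l ih =>
    rcases List.mem_cons.1 hv with rfl | hv
    · exact (List.isChain_cons_cons.1 h).1.valid_left
    · exact ih q r (List.isChain_cons_cons.1 h).2 hv

theorem win_finite (T r N : ℕ) : (win T r N).Finite := by
  refine (finite_nodup _ ((box_finite (-N) 1 T).image (gT r 0 (-r)))).subset ?_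
  rintro γ ⟨⟨h1, h2, -, -, h5, h6⟩, h7⟩
  refine ⟨h2, fun v hv => ⟨gT (-r) 0 r v, ?_, ?_⟩⟩
  · have a := phb_valid h1 h5 hv
    have b := h6 v hv
    have c := h7 v hv
    unfold Valid at a
    refine ⟨?_, ?_⟩
    · unfold Valid
      dsimp only [gT]
      omega
    · dsimp only [gT]
      omega
  · rw [V.ext_iff]
    dsimp only [gT]
    omega

def phb_p (r : ℕ) : V := ⟨1 - r, 0, r⟩
def phb_q (r : ℕ) : V := ⟨1 - r, 0, r + 1⟩
def phb_y (r : ℕ) : V := ⟨2 - r, -1, r⟩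
def phb_u (r : ℕ) : V := ⟨2 - r, 0, r⟩

lemma phb_mem {N r n : ℕ} {v : V} : v ∈ om N r n ↔ Valid v ∧
    ((v.j = 0 ∧ (r : ℤ) + 1 ≤ v.k ∧ v.k < r + 1 + n) ∨
      (0 ≤ v.k ∧ v.k < r + 1 + n ∧ -(N : ℤ) ≤ v.j ∧ v.j < 0)) := by
  rw [om, Finset.mem_union, physb_mem_cv, mem_boxF]
  push_cast
  tauto

lemma phb_pq (r : ℕ) : Adj (phb_p r) (phb_q r) := by
  rw [adj_iff]; dsimp only [phb_p, phb_q]; omega

lemma phb_yu (r : ℕ) : Adj (phb_y r) (phb_u r) := by
  rw [adj_iff]; dsimp only [phb_y, phb_u]; omega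

lemma phb_ne (r : ℕ) : ed (phb_y r) (phb_u r) ≠ ed (phb_p r) (phb_q r) := by
  rw [ne_eq, V.ext_iff]; dsimp only [ed, phb_y, phb_u, phb_p, phb_q]; omega

lemma phb_eS (r : ℕ) : eS 0 (r + 1) = ed (phb_p r) (phb_q r) := by
  rw [V.ext_iff]; dsimp only [eS, ed, phb_p, phb_q]; omega

lemma phb_eW (r : ℕ) : eW 0 r = ed (phb_y r) (phb_u r) := by
  rw [V.ext_iff]; dsimp only [eW, ed, phb_y, phb_u]; omega

lemma phb_s_o {r : ℕ} {e : V} (h1 : e ≠ ed (phb_p r) (phb_q r))
    (h2 : e ≠ ed (phb_y r) (phb_u r)) : sb r e = .o := by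
  rw [sb, phb_eS, phb_eW, if_neg h1, if_neg h2]

lemma phb_s_m (r : ℕ) : sb r (ed (phb_p r) (phb_q r)) = .m := by
  rw [sb, phb_eS, if_pos rfl]

lemma phb_s_p (r : ℕ) : sb r (ed (phb_y r) (phb_u r)) = .p := by
  rw [sb, phb_eS, phb_eW, if_neg (phb_ne r), if_pos rfl]

lemma phb_p_not (N r n : ℕ) : phb_p r ∉ om N r n := fun h => by
  have := (phb_mem.1 h).2
  dsimp only [phb_p] at this
  omega

lemma phb_u_not (N r n : ℕ) : phb_u r ∉ om N r n := fun h => by
  have := (phb_mem.1 h).2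
  dsimp only [phb_u] at this
  omega

/-- the walks from the entering edge to the vertex `U(0,r)` -/
def phb_E (N r n : ℕ) : Set (List V) :=
  {l | l ∈ Exit (om N r n) (phb_p r) (phb_q r) ∧ lv (phb_q r) l = phb_u r}

section
variable {N r n : ℕ}

lemma phb_nil {l : List V} (hl : lv (phb_q r) l = phb_u r) : l ≠ [] := by
  rintro rfl
  have := congrArg V.k hl
  dsimp only [lv_nil, phb_q, phb_u] at this
  omega

lemma phb_pv {l : List V} (hl : l ∈ phb_E N r n) : pv (phb_p r) (phb_q r) l = phb_y r := by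
  obtain ⟨⟨h1, h2, -⟩, h4⟩ := hl
  have h5 := (phb_mem.1 (h2.pv_mem (p := phb_p r) (phb_nil h4))).2
  have h6 := h1.adj_last
  rw [h4, adj_iff] at h6
  dsimp only [phb_u] at h6
  rw [V.ext_iff]
  dsimp only [phb_y]
  omega

lemma phb_Pe (hq : phb_q r ∈ om N r n) :
    Pe (om N r n) (sb r) true (phb_p r) (phb_q r) = phb_E N r n := by
  ext l
  constructor
  · rintro ⟨h1, h2, h3, h4, h5, h6, -⟩
    have hch : (phb_p r :: phb_q r :: l).IsChain Adj := List.isChain_cons_cons.2 ⟨phb_pq r, h1⟩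
    have h7 : ed (pv (phb_p r) (phb_q r) l) (lv (phb_q r) l) = ed (phb_y r) (phb_u r) := by
      by_contra hn
      rw [phb_s_o h5 hn] at h6
      exact sp_ne_o _ _ h6.symm
    have h8 : lv (phb_q r) l = phb_u r := by
      rcases ed_inj (physd_chain hch) (phb_yu r) h7 with h | h
      · exact h.2
      · have h0 : l ≠ [] := by
          rintro rfl
          exact h4 hq
        exact absurd (h.1 ▸ h3.pv_mem (p := phb_p r) h0) (phb_u_not N r n)
    refine ⟨⟨⟨hch, List.nodup_cons.2 ⟨fun hm => ?_, h2⟩⟩, h3, h4⟩, h8⟩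
    rcases h3.mem hm with h | h
    · exact phb_p_not N r n h
    · rw [h8] at h
      have := congrArg V.i h
      dsimp only [phb_p, phb_u] at this
      omega
  · intro hl
    have h0 := phb_pv hl
    obtain ⟨⟨h1, h2, h3⟩, h4⟩ := hl
    refine ⟨(List.isChain_cons_cons.1 h1.1).2, (List.nodup_cons.1 h1.2).2, h2, h3, ?_, ?_, ?_⟩
    · rw [h0, h4]
      exact phb_ne r
    · rw [h0, h4, phb_s_p]
      simp [spo, sp, phb_y, phb_u]
    · intro v _ _ w _ _
      rw [h0, h4]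
      by_cases e1 : ed v w = ed (phb_p r) (phb_q r)
      · exact Or.inl e1
      by_cases e2 : ed v w = ed (phb_y r) (phb_u r)
      · exact Or.inr (Or.inl e2)
      exact Or.inr (Or.inr (phb_s_o e1 e2))

lemma phb_cases {l : List V} (hl : l ∈ phb_E N r n) {v : V} (hv : v ∈ phb_p r :: phb_q r :: l) :
    v = phb_p r ∨ v ∈ om N r n ∨ v = phb_u r := by
  rcases List.mem_cons.1 hv with h | h
  · exact Or.inl h
  · exact Or.inr (hl.2 ▸ hl.1.2.1.mem h)

lemma phb_wex {l : List V} (hl : l ∈ phb_E N r n) : wex (phb_p r) (phb_q r) l = 3 := by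
  have h0 := phb_pv hl
  have h1 : wind (phb_p r) (phb_q r) l = 4 := wind_poly (r := r) hl.1.1 (fun v hv => by
    rcases phb_cases hl (List.mem_cons_of_mem _ (List.mem_cons_of_mem _ hv)) with h | h | h
    · rw [h]; exact le_rfl
    · have := (phb_mem.1 h).2
      omega
    · rw [h]; exact le_rfl) hl.2 h0
  obtain ⟨he, h4⟩ := hl
  have h5 := wex_eq he.1.1 (List.nodup_cons.1 he.1.2).2 (fun h =>
    (List.nodup_cons.1 he.1.2).1 (List.mem_cons_of_mem _ (List.mem_of_mem_head? h)))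
  have h6 : ga (phb_p r) (phb_q r) = -2 := by simp [ga, phb_p, phb_q]
  have h7 : ga (phb_y r) (phb_u r) = -3 := by simp [ga, phb_y, phb_u]
  rw [h0, h4, h1, h6, h7] at h5
  omega

lemma phb_res {l : List V} (hl : l ∈ phb_E N r n) :
    Z (om N r n \ (phb_q r :: l).toFinset) (sb r) = 1 := by
  have h0 := phb_pv hl
  refine Z_zero (fun v hv => (phb_mem.1 (Finset.mem_sdiff.1 hv).1).1) fun v hv w _ h => ?_
  obtain ⟨h1, h2⟩ := Finset.mem_sdiff.1 hv
  rw [List.mem_toFinset] at h2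
  refine phb_s_o (fun e => ?_) fun e => ?_
  · rcases ed_inj h (phb_pq r) e with e | e
    · exact phb_p_not N r n (e.1 ▸ h1)
    · exact h2 (e.1 ▸ List.mem_cons_self)
  · rcases ed_inj h (phb_yu r) e with e | e
    · have h3 := pv_mem (phb_p r) (phb_q r) l
      rw [h0, ← e.1] at h3
      rcases List.mem_cons.1 h3 with h3 | h3
      · exact phb_p_not N r n (h3 ▸ h1)
      · exact h2 h3
    · exact phb_u_not N r n (e.1 ▸ h1)

lemma phb_fin (N r n : ℕ) : (phb_E N r n).Finite :=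
  (finite_exit (Finset.finite_toSet _) _ _).subset fun _ h => h.1

lemma phb_Z (hn0 : 0 < n) : Z (om N r n) (sb r) = ζ ^ 3 * (mu (phb_E N r n) : ℝ) := by
  have hn : Nrm (om N r n) (sb r) := by
    intro v hv w hw h
    refine phb_s_o (fun e => ?_) fun e => ?_
    · rcases ed_inj h (phb_pq r) e with e | e
      · exact phb_p_not N r n (e.1 ▸ hv)
      · exact phb_p_not N r n (e.2 ▸ hw)
    · rcases ed_inj h (phb_yu r) e with e | e
      · exact phb_u_not N r n (e.2 ▸ hw)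
      · exact phb_u_not N r n (e.1 ▸ hv)
  have hq : phb_q r ∈ om N r n := by
    refine phb_mem.2 ⟨(phb_pq r).valid_right, ?_⟩
    dsimp only [phb_q]
    omega
  have hs : sb r (ed (phb_p r) (phb_q r)) = spo true (phb_p r) (phb_q r) := by
    rw [phb_s_m]
    simp only [spo, sp, phb_p, phb_q, if_true]
    rw [if_neg (by omega)]
  have h3 : ph 3 = ζ ^ 3 := by
    rw [show (3 : ℤ) = 2 + 1 from rfl, ph_add, physb_ph2, physb_ph1]; ring
  rw [Z_peel (fun v hv => (phb_mem.1 hv).1) hn (phb_p_not N r n) hq (phb_pq r) true hs,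
    phb_Pe hq, finsum_mem_eq_finite_toFinset_sum _ (phb_fin N r n), mu,
    ms_eq_sum (phb_fin N r n), Complex.ofReal_sum, Finset.mul_sum]
  refine Finset.sum_congr rfl fun l hl => ?_
  have hl' := (phb_fin N r n).mem_toFinset.1 hl
  rw [phb_res hl', wtb_true, phb_wex hl', wt, mul_one, h3, Complex.ofReal_pow, mul_comm]

lemma phb_last (q : V) (l : List V) : (q :: l).getLast? = some (lv q l) := by
  induction l generalizing q with
  | nil => rfl
  | cons r l ih => rw [List.getLast?_cons_cons, ih, lv_cons]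

/-- the second vertex of a polygon -/
lemma phb_poly {γ : List V} (h : γ ∈ polys) :
    ∃ l, γ = ⟨1, 0, 0⟩ :: ⟨1, 0, 1⟩ :: l ∧ lv ⟨1, 0, 1⟩ l = ⟨2, 0, 0⟩ := by
  obtain ⟨h1, h2, h3, h4, h5, h6⟩ := h
  obtain _ | ⟨p, _ | ⟨q, _ | ⟨s, l⟩⟩⟩ := γ
  · simp at h5
  · simp at h5
  · simp at h5
  obtain rfl : p = ⟨1, 0, 0⟩ := Option.some.inj h3
  rw [phb_last, lv_cons, lv_cons] at h4
  have h7 : lv s l = ⟨2, 0, 0⟩ := Option.some.inj h4
  have h8 : q ≠ ⟨2, 0, 0⟩ := fun e =>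
    (List.nodup_cons.1 (List.nodup_cons.1 h2).2).1 (e ▸ h7 ▸ lv_mem s l)
  have h9 := h6 q (by simp)
  have h10 := (List.isChain_cons_cons.1 h1).1
  rw [adj_iff] at h10
  rw [ne_eq, V.ext_iff] at h8
  dsimp only at h8 h10
  obtain rfl : q = ⟨1, 0, 1⟩ := by
    rw [V.ext_iff]
    dsimp only
    omega
  exact ⟨s :: l, rfl, h7⟩

lemma phb_win (hn0 : 0 < n) : win (r + 1 + n) r N =
    (fun l => (phb_p r :: phb_q r :: l).map (gT r 0 (-r))) '' phb_E N r n := by
  have g1 := sym_T (a := r) (b := 0) (c := -r) (by omega)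
  have g2 := sym_T (a := -r) (b := 0) (c := r) (by omega)
  have i1 : ∀ v, gT r 0 (-r) (gT (-r) 0 r v) = v := fun v => by
    rw [V.ext_iff]; dsimp only [gT]; omega
  have e1 : gT (-r) 0 r ⟨1, 0, 0⟩ = phb_p r := by
    rw [V.ext_iff]; dsimp only [gT, phb_p]; omega
  have e2 : gT (-r) 0 r ⟨1, 0, 1⟩ = phb_q r := by
    rw [V.ext_iff]; dsimp only [gT, phb_q]; omega
  have e3 : gT (-r) 0 r ⟨2, 0, 0⟩ = phb_u r := by
    rw [V.ext_iff]; dsimp only [gT, phb_u]; omega
  ext γ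
  constructor
  · rintro ⟨h, h7⟩
    obtain ⟨l, rfl, hl⟩ := phb_poly h
    obtain ⟨h1, h2, -, -, -, h6⟩ := h
    have hs : Saw ⟨1, 0, 0⟩ ⟨1, 0, 1⟩ l := ⟨h1, h2⟩
    have hs' := hs.map g2
    have hl' : lv (phb_q r) (l.map (gT (-r) 0 r)) = phb_u r := by rw [← e2, lv_map, hl, e3]
    have hi : Inn {v | gT (-r) 0 r v ∈ om N r n} ⟨1, 0, 1⟩ l := by
      refine hs.Inn_iff.2 fun v hv hne => ?_
      have hv' := List.mem_cons_of_mem (⟨1, 0, 0⟩ : V) hv
      have a := hs.valid hv'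
      have b := h6 v hv'
      have c := h7 v hv'
      have d : v ≠ ⟨1, 0, 0⟩ := fun e => (List.nodup_cons.1 h2).1 (e ▸ hv)
      rw [hl] at hne
      rw [ne_eq, V.ext_iff] at d hne
      unfold Valid at a
      dsimp only at d hne
      push_cast at c
      refine phb_mem.2 ⟨?_, ?_⟩
      · unfold Valid
        dsimp only [gT]
        omega
      · dsimp only [gT]
        omega
    rw [e1, e2] at hs'
    refine ⟨l.map (gT (-r) 0 r), ⟨⟨hs', ?_, ?_⟩, hl'⟩, ?_⟩
    · rw [← e2]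
      exact Inn.map (g := gT (-r) 0 r) (D' := om N r n) (fun _ hu => hu) hi
    · rw [hl']
      exact phb_u_not N r n
    · show (phb_p r :: phb_q r :: l.map (gT (-r) 0 r)).map (gT r 0 (-r)) = _
      rw [← e1, ← e2, List.map_cons, List.map_cons, i1, i1, List.map_map]
      congr 2
      exact List.map_id'' i1 l
  · rintro ⟨l, hl, rfl⟩
    have hs := hl.1.1.map g1
    have hc : ∀ v ∈ (phb_p r :: phb_q r :: l).map (gT r 0 (-r)),
        (v.j < 0 ∨ (v.j = 0 ∧ 0 ≤ v.k)) ∧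
          (-(r : ℤ) ≤ v.k ∧ v.k + r < (r + 1 + n : ℕ) ∧ -(N : ℤ) ≤ v.j) := by
      intro v hv
      obtain ⟨w, hw, rfl⟩ := List.mem_map.1 hv
      push_cast
      rcases phb_cases hl hw with h | h | h
      · rw [h]; dsimp only [gT, phb_p]; omega
      · have := (phb_mem.1 h).2
        dsimp only [gT]
        omega
      · rw [h]; dsimp only [gT, phb_u]; omega
    refine ⟨⟨hs.1, hs.2, ?_, ?_, ?_, fun v hv => (hc v hv).1⟩, fun v hv => (hc v hv).2⟩
    · show some (gT r 0 (-r) (phb_p r)) = _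
      rw [← e1, i1]
    · show (gT r 0 (-r) (phb_p r) :: gT r 0 (-r) (phb_q r) :: l.map (gT r 0 (-r))).getLast? = _
      rw [phb_last, lv_cons, lv_map, hl.2, ← e3, i1]
    · have := List.length_pos_iff.2 (phb_nil hl.2)
      simp only [List.length_map, List.length_cons]
      omega

end

/-- pattern of `physd_Z` -/
theorem Z_om (N r n : ℕ) (hn0 : 0 < n) :
    (xc : ℂ) ^ 2 * Z (om N r n) (sb r) = ζ ^ 3 * (mu (win (r + 1 + n) r N) : ℝ) := by
  have g1 := sym_T (a := r) (b := 0) (c := -r) (by omega)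
  have h : mu (win (r + 1 + n) r N) = xc ^ 2 * mu (phb_E N r n) := by
    rw [phb_win hn0, mu, ms_image _ fun a _ b _ e => by
      simpa using List.map_injective_iff.2 g1.1 e]
    exact ms_eq_mul (phb_fin N r n) fun l _ => by
      simp only [wt, List.length_map, List.length_cons]
      ring
  rw [phb_Z hn0, h]
  push_cast
  ring

theorem win_top (N r : ℕ) : win (r + 1) r N = ∅ := by
  refine Set.eq_empty_of_forall_notMem fun γ h => ?_
  obtain ⟨l, rfl, -⟩ := phb_poly h.1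
  have := (h.2 ⟨1, 0, 1⟩ (by simp)).2.1
  push_cast at this
  omega

theorem phys_fin (T N : ℕ) (hN : 0 < N) :
    LH T ((Ch T ^ N) vac) = ((∑ r ∈ Finset.range T, mu (win T r N) : ℝ) : ℂ) := by
  rw [LH, LinearMap.smul_apply, smul_eq_mul, LP_rep, Finset.mul_sum, Complex.ofReal_sum]
  refine Finset.sum_congr rfl fun r hr => ?_
  obtain ⟨n, rfl⟩ : ∃ n, T = r + 1 + n := ⟨T - 1 - r, by have := Finset.mem_range.1 hr; omega⟩
  rw [show r + 1 + n - 1 - r = n by omega]
  rcases Nat.eq_zero_or_pos n with rfl | hn0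
  · rw [add_zero, part_top, win_top, mu, ms_empty]
    simp
  have h1 := part_transfer N r n hN hn0
  have h2 := Z_om N r n hn0
  have h3 : (dd hn aux)⁻¹ ^ r * dd hn aux ^ r = 1 := by rw [← mul_pow, physb_edd, one_pow]
  generalize colB .m (List.replicate n hn) (prj .p (prjN r ((Ch (r + 1 + n) ^ N) vac))) zer = c
    at h1 ⊢
  generalize ((mu (win (r + 1 + n) r N) : ℝ) : ℂ) = m at h2 ⊢
  have h4 : ζ ^ 14 * (dd hn aux)⁻¹ ^ (r + 1 + n) * (dd hn aux ^ r * jn hn aux * c) =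
      ζ ^ 14 * ((dd hn aux)⁻¹ ^ r * dd hn aux ^ r) * ((dd hn aux)⁻¹ * jn hn aux) *
        ((dd hn aux)⁻¹ ^ n * c) := by ring
  rw [h4, h3, physb_ejn, h1]
  linear_combination (-ζ ^ 21) * h2 - m * (ζ ^ 16 - ζ ^ 8 + 1) * h8

end Pool.Agent.Lib.MP_4960b8_pr.PT
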