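import Pool.Agent.Lib.MP_4960b8_pr.PT.St

/-! From the strips to the tail (plan D). -/

namespace Pool.Agent.Lib.MP_4960b8_pr.PT

open QK SAW Filter Topology

/-- highest row minus lowest row, for a walk that meets the row `0` -/
def ht (γ : List V) : ℕ :=
  (γ.map fun v => v.k.toNat).foldr max 0 + (γ.map fun v => (-v.k).toNat).foldr max 0

lemma tl_le (f : V → ℕ) (γ : List V) : ∀ v ∈ γ, f v ≤ (γ.map f).foldr max 0 := by
  induction γ with
  | nil => simp
  | cons a l ih =>
    intro v hv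
    rw [List.map_cons, List.foldr_cons]
    rcases List.mem_cons.1 hv with rfl | hv
    · exact le_max_left _ _
    · exact (ih v hv).trans (le_max_right _ _)

lemma tl_att (f : V → ℕ) (γ : List V) :
    (γ.map f).foldr max 0 = 0 ∨ ∃ v ∈ γ, f v = (γ.map f).foldr max 0 := by
  induction γ with
  | nil => simp
  | cons a l ih =>
    rw [List.map_cons, List.foldr_cons]
    rcases le_total (f a) ((l.map f).foldr max 0) with h | h
    · rw [max_eq_right h]
      rcases ih with h0 | ⟨v, hv, e⟩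
      · exact Or.inl h0
      · exact Or.inr ⟨v, List.mem_cons_of_mem _ hv, e⟩
    · rw [max_eq_left h]
      exact Or.inr ⟨a, List.mem_cons_self, rfl⟩

/-- the highest and the lowest row of a polygon -/
lemma tl_ext {γ : List V} (h : γ ∈ polys) : ∃ hi lo : ℕ, ht γ = hi + lo ∧
    (∀ v ∈ γ, v.k ≤ hi ∧ -(lo : ℤ) ≤ v.k) ∧ (∃ u ∈ γ, u.k = hi) ∧ ∃ v ∈ γ, v.k = -(lo : ℤ) := by
  have h0 : (⟨1, 0, 0⟩ : V) ∈ γ := List.mem_of_mem_head? (by rw [h.2.2.1]; rfl)
  refine ⟨_, _, rfl, fun v hv => ?_, ?_, ?_⟩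
  · have a := tl_le (fun v => v.k.toNat) γ v hv
    have b := tl_le (fun v => (-v.k).toNat) γ v hv
    omega
  · rcases tl_att (fun v => v.k.toNat) γ with e | ⟨v, hv, e⟩
    · exact ⟨_, h0, by rw [e]; rfl⟩
    · by_cases z : (γ.map fun v => v.k.toNat).foldr max 0 = 0
      · exact ⟨_, h0, by rw [z]; rfl⟩
      · refine ⟨v, hv, ?_⟩
        omega
  · rcases tl_att (fun v => (-v.k).toNat) γ with e | ⟨v, hv, e⟩
    · exact ⟨_, h0, by rw [e]; rfl⟩
    · by_cases z : (γ.map fun v => (-v.k).toNat).foldr max 0 = 0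
      · exact ⟨_, h0, by rw [z]; rfl⟩
      · refine ⟨v, hv, ?_⟩
        omega

theorem tall_iff {T : ℕ} {γ : List V} (h : γ ∈ polys) : γ ∈ tall T ↔ T < ht γ := by
  obtain ⟨hi, lo, e, hb, ⟨u, hu, eu⟩, ⟨v, hv, ev⟩⟩ := tl_ext h
  rw [e]
  constructor
  · rintro ⟨-, a, ha, b, hb', hab⟩
    have h1 := hb a ha
    have h2 := hb b hb'
    omega
  · intro hT
    exact ⟨h, u, hu, v, hv, by omega⟩

open Classical in
/-- the number of windows that hold a given walk -/
lemma tl_cnt (T N : ℕ) (γ : List V) :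
    ∑ r ∈ Finset.range T, (win T r N).indicator wt γ =
      if γ ∈ polys ∧ ∀ v ∈ γ, -(N : ℤ) ≤ v.j then wt γ * ((T - ht γ : ℕ) : ℝ) else 0 := by
  split_ifs with h
  · obtain ⟨hi, lo, e, hb, ⟨u, hu, eu⟩, ⟨v, hv, ev⟩⟩ := tl_ext h.1
    have key : ∀ r, γ ∈ win T r N ↔ r ∈ Finset.Ico lo (T - hi) := by
      intro r
      rw [Finset.mem_Ico]
      constructor
      · rintro ⟨-, hw⟩
        have h1 := hw u hu
        have h2 := hw v hv
        omega
      · intro hr
        refine ⟨h.1, fun w hw => ?_⟩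
        have h1 := hb w hw
        have h2 := h.2 w hw
        omega
    have sub : Finset.Ico lo (T - hi) ⊆ Finset.range T := fun r hr => by
      rw [Finset.mem_Ico] at hr
      rw [Finset.mem_range]
      omega
    rw [← Finset.sum_subset sub (fun r _ hr => Set.indicator_of_notMem (fun c => hr ((key r).1 c)) _),
      Finset.sum_congr rfl (fun r hr => Set.indicator_of_mem ((key r).2 hr) wt), Finset.sum_const,
      Nat.card_Ico, nsmul_eq_mul, mul_comm, e]
    congr 2
    omega
  · refine Finset.sum_eq_zero fun r _ => Set.indicator_of_notMem (fun c => h ⟨c.1, fun v hv => ?_⟩) _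
    exact (c.2 v hv).2.2

lemma tl_ind {S : Set (List V)} (hS : S.Finite) : HasSum (S.indicator wt) (mu S) := by
  have e : mu S = ∑ l ∈ hS.toFinset, S.indicator wt l := by
    unfold mu
    rw [ms_eq_sum hS]
    exact Finset.sum_congr rfl fun l hl => (Set.indicator_of_mem (hS.mem_toFinset.1 hl) wt).symm
  rw [e]
  exact hasSum_sum_of_ne_finset_zero fun l hl =>
    Set.indicator_of_notMem (fun c => hl (hS.mem_toFinset.2 c)) _

lemma tl_ev (γ : List V) : ∀ᶠ N : ℕ in atTop, ∀ v ∈ γ, -(N : ℤ) ≤ v.j := by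
  refine eventually_atTop.2 ⟨(γ.map fun v => (-v.j).toNat).foldr max 0, fun N hN v hv => ?_⟩
  have a := tl_le (fun v => (-v.j).toNat) γ v hv
  omega

/-- a polygon lies in `T - ht` of the `T` windows once `N` is large -/
theorem hasSum_strip {T : ℕ} {p : ℝ} (hf : ∀ r N, (win T r N).Finite)
    (h : Tendsto (fun N => ∑ r ∈ Finset.range T, mu (win T r N)) atTop (𝓝 p)) :
    HasSum (fun γ : polys => xc ^ γ.1.length * ((T - ht γ.1 : ℕ) : ℝ)) p := by
  classical
  set f : List V → ℝ := fun γ => wt γ * ((T - ht γ : ℕ) : ℝ) with hfd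
  have f0 : ∀ γ, 0 ≤ f γ := fun γ => mul_nonneg (wt_pos γ).le (Nat.cast_nonneg _)
  have F0 : ∀ γ, 0 ≤ polys.indicator f γ := fun γ => Set.indicator_nonneg (fun a _ => f0 a) γ
  set g : ℕ → List V → ℝ := fun N γ =>
    if γ ∈ polys ∧ ∀ v ∈ γ, -(N : ℤ) ≤ v.j then f γ else 0 with hg
  have gs : ∀ N, HasSum (g N) (∑ r ∈ Finset.range T, mu (win T r N)) := fun N => by
    have := hasSum_sum (s := Finset.range T) fun r _ => tl_ind (hf r N)
    simpa only [tl_cnt] using this
  have g0 : ∀ N γ, 0 ≤ g N γ := fun N γ => by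
    simp only [hg]
    split_ifs
    · exact f0 γ
    · exact le_rfl
  have gle : ∀ N γ, g N γ ≤ polys.indicator f γ := fun N γ => by
    simp only [hg]
    split_ifs with c
    · rw [Set.indicator_of_mem c.1]
    · exact F0 γ
  have gev : ∀ γ, ∀ᶠ N : ℕ in atTop, g N γ = polys.indicator f γ := fun γ => by
    filter_upwards [tl_ev γ] with N hN
    simp only [hg]
    by_cases c : γ ∈ polys
    · rw [if_pos ⟨c, hN⟩, Set.indicator_of_mem c]
    · rw [if_neg fun d => c d.1, Set.indicator_of_notMem c]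
  have up : ∀ s : Finset (List V), ∑ γ ∈ s, polys.indicator f γ ≤ p := fun s => by
    refine ge_of_tendsto h ?_
    filter_upwards [(eventually_all_finset s).2 fun γ _ => gev γ] with N hN
    rw [← Finset.sum_congr rfl hN]
    exact sum_le_hasSum s (fun γ _ => g0 N γ) (gs N)
  have sm : Summable (polys.indicator f) := summable_of_sum_le F0 up
  have e : ∑' γ, polys.indicator f γ = p :=
    le_antisymm (sm.tsum_le_of_sum_le up)
      (le_of_tendsto' h fun N => hasSum_le (gle N) (gs N) sm.hasSum)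
  have := sm.hasSum
  rw [e] at this
  exact hasSum_subtype_iff_indicator.2 this

end Pool.Agent.Lib.MP_4960b8_pr.PT
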