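import Pool.Agent.Lib.MP_4960b8_pr.RN.Dens

/-! A Tauberian lemma (plan D). -/

namespace Pool.Agent.Lib.MP_4960b8_pr.PT

open Filter Topology

/-- the monotone density lemma with an additive constant and any exponent -/
theorem tau_dens {a : ℕ → ℝ} (ha : Antitone a) {ρ A c : ℝ}
    (h : Tendsto (fun N : ℕ => (∑ n ∈ Finset.range N, a n + c) / (N : ℝ) ^ ρ) atTop (𝓝 A)) :
    Tendsto (fun N : ℕ => a N * (N : ℝ) ^ (1 - ρ)) atTop (𝓝 (ρ * A)) := by
  refine tendsto_order.2 ⟨fun b hb => ?_, fun b hb => ?_⟩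
  · have h1 := ((RN.dens_slope ρ A).mono_left (nhdsGT_le_nhdsNE 1)).eventually (lt_mem_nhds hb)
    obtain ⟨lam, hlb, hl1⟩ := (h1.and self_mem_nhdsWithin).exists
    have hl1' : 1 < lam := hl1
    have hl : 0 < lam := by linarith
    filter_upwards [(RN.dens_quot (S := fun N => ∑ n ∈ Finset.range N, a n + c) hl hl1'.ne'
      h).eventually (lt_mem_nhds hlb), (RN.dens_ratio hl).eventually (lt_mem_nhds hl1'),
      eventually_gt_atTop 0] with N h2 h3 hN0
    have e2 : (0 : ℝ) < (N : ℝ) := Nat.cast_pos.2 hN0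
    have hle : N ≤ ⌊lam * N⌋₊ := by
      have := (one_lt_div e2).1 h3
      exact_mod_cast this.le
    refine h2.trans_le ((div_le_iff₀ (by linarith)).2 ?_)
    rw [← sub_div, ← sub_nonpos, RN.dens_key _ _ e2]
    refine div_nonpos_of_nonpos_of_nonneg ?_ (Real.rpow_pos_of_pos e2 ρ).le
    have := RN.dens_upper ha hle
    linarith
  · have h1 := ((RN.dens_slope ρ A).mono_left (nhdsLT_le_nhdsNE 1)).eventually (gt_mem_nhds hb)
    obtain ⟨lam, hlb, hl, hl1⟩ := (h1.and (Ioo_mem_nhdsLT (show (0 : ℝ) < 1 by norm_num))).exists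
    filter_upwards [(RN.dens_quot (S := fun N => ∑ n ∈ Finset.range N, a n + c) hl hl1.ne
      h).eventually (gt_mem_nhds hlb), (RN.dens_ratio hl).eventually (gt_mem_nhds hl1),
      eventually_gt_atTop 0] with N h2 h3 hN0
    have e2 : (0 : ℝ) < (N : ℝ) := Nat.cast_pos.2 hN0
    have hle : ⌊lam * N⌋₊ ≤ N := by
      have := (div_lt_one e2).1 h3
      exact_mod_cast this.le
    refine lt_of_le_of_lt ((le_div_iff_of_neg (by linarith)).2 ?_) h2
    rw [← sub_div, ← sub_nonpos, RN.dens_key _ _ e2]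
    refine div_nonpos_of_nonpos_of_nonneg ?_ (Real.rpow_pos_of_pos e2 ρ).le
    have := RN.dens_lower ha hle
    linarith

theorem tau_trunc (x : ℝ) (n T : ℕ) :
    x * ((T - n : ℕ) : ℝ) = x * T - ∑ t ∈ Finset.range T, if t < n then x else 0 := by
  induction T with
  | zero => simp
  | succ T ih =>
    rw [Finset.sum_range_succ]
    split_ifs with e
    · rw [show T + 1 - n = T - n by omega, ih]
      push_cast
      ring
    · rw [show T + 1 - n = T - n + 1 by omega, Nat.cast_add, mul_add, ih]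
      push_cast
      ring

theorem tau_ratio (n : ℕ) : Tendsto (fun T : ℕ => ((T - n : ℕ) : ℝ) / T) atTop (𝓝 1) := by
  have h1 := (tendsto_const_nhds (x := (1 : ℝ))).sub (tendsto_const_div_atTop_nhds_zero_nat (n : ℝ))
  rw [sub_zero] at h1
  refine h1.congr' ?_
  filter_upwards [eventually_ge_atTop n, eventually_gt_atTop 0] with T h2 h3
  have e : (0 : ℝ) < T := Nat.cast_pos.2 h3
  rw [Nat.cast_sub h2]
  field_simp

theorem tauber {ι : Type} {w : ι → ℝ} {h : ι → ℕ} {p : ℕ → ℝ} {a b κ : ℝ} {T₀ : ℕ}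
    (hw : ∀ i, 0 ≤ w i) (hp : ∀ T, T₀ ≤ T → HasSum (fun i => w i * ((T - h i : ℕ) : ℝ)) (p T))
    (hl : Tendsto (fun T : ℕ => (T : ℝ) * (p T - a * T - b)) atTop (𝓝 κ)) :
    HasSum w a ∧
      Tendsto (fun T : ℕ => (T : ℝ) ^ 2 * ∑' i, if T < h i then w i else 0) atTop (𝓝 κ) := by
  have hi : Tendsto (fun T : ℕ => ((T : ℝ))⁻¹) atTop (𝓝 0) := tendsto_inv_atTop_nhds_zero_nat
  have hpa : Tendsto (fun T : ℕ => p T / T) atTop (𝓝 a) := by
    have h1 := (((hl.mul hi).add_const b).mul hi).add_const a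
    rw [mul_zero, zero_add] at h1
    refine h1.congr' ?_
    filter_upwards [eventually_gt_atTop 0] with T h3
    have e : (0 : ℝ) < T := Nat.cast_pos.2 h3
    field_simp
    ring
  have hs : Summable w := by
    refine summable_of_sum_le (c := a) hw fun s => ?_
    have h1 : Tendsto (fun T : ℕ => ∑ i ∈ s, w i * (((T - h i : ℕ) : ℝ) / T)) atTop
        (𝓝 (∑ i ∈ s, w i * 1)) :=
      tendsto_finsetSum s fun i _ => (tau_ratio (h i)).const_mul (w i)
    simp only [mul_one] at h1
    refine le_of_tendsto_of_tendsto h1 hpa ?_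
    filter_upwards [eventually_ge_atTop T₀] with T hT
    simp only [← mul_div_assoc, ← Finset.sum_div]
    exact div_le_div_of_nonneg_right
      (sum_le_hasSum s (fun i _ => mul_nonneg (hw i) (Nat.cast_nonneg _)) (hp T hT))
      (Nat.cast_nonneg _)
  have hn : ∀ t i, 0 ≤ if t < h i then w i else 0 := fun t i => by
    split_ifs
    exacts [hw i, le_rfl]
  have hb : ∀ t i, (if t < h i then w i else 0) ≤ w i := fun t i => by
    split_ifs
    exacts [le_rfl, hw i]
  have hst : ∀ t, Summable fun i => if t < h i then w i else 0 := fun t =>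
    Summable.of_nonneg_of_le (hn t) (hb t) hs
  obtain ⟨τ, hτ⟩ : ∃ τ : ℕ → ℝ, τ = fun t => ∑' i, if t < h i then w i else 0 := ⟨_, rfl⟩
  have hanti : Antitone τ := by
    intro s t hst'
    rw [hτ]
    refine (hst t).tsum_le_tsum (fun i => ?_) (hst s)
    by_cases e : t < h i
    · rw [if_pos e, if_pos (hst'.trans_lt e)]
    · rw [if_neg e]
      exact hn s i
  have hτ0 : Tendsto τ atTop (𝓝 0) := by
    have h1 := tendsto_tsum_of_dominated_convergence (𝓕 := atTop)
      (f := fun (t : ℕ) i => if t < h i then w i else 0) (g := fun _ => (0 : ℝ)) hs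
      (fun i => tendsto_const_nhds.congr' (by
        filter_upwards [eventually_ge_atTop (h i)] with t ht
        rw [if_neg (not_lt.2 ht)]))
      (Eventually.of_forall fun t i => by
        rw [Real.norm_of_nonneg (hn t i)]
        exact hb t i)
    rw [tsum_zero] at h1
    rw [hτ]
    exact h1
  have hpe : ∀ T, T₀ ≤ T → p T = (∑' i, w i) * T - ∑ t ∈ Finset.range T, τ t := by
    intro T hT
    refine (hp T hT).unique ?_
    simp only [tau_trunc, hτ]
    exact (hs.hasSum.mul_right _).sub (hasSum_sum fun t _ => (hst t).hasSum)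
  have hm : ∑' i, w i = a := by
    have h1 := (tendsto_const_nhds (x := ∑' i, w i)).sub hτ0.cesaro
    rw [sub_zero] at h1
    refine tendsto_nhds_unique (h1.congr' ?_) hpa
    filter_upwards [eventually_ge_atTop T₀, eventually_gt_atTop 0] with T h2 h3
    have e : (0 : ℝ) < T := Nat.cast_pos.2 h3
    rw [hpe T h2]
    field_simp
  refine ⟨hm ▸ hs.hasSum, ?_⟩
  have hS : Tendsto (fun N : ℕ => (∑ n ∈ Finset.range N, τ n + b) / (N : ℝ) ^ (-1 : ℝ)) atTop
      (𝓝 (-κ)) := by
    refine hl.neg.congr' ?_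
    filter_upwards [eventually_ge_atTop T₀] with T h2
    rw [Real.rpow_neg_one, div_inv_eq_mul, hpe T h2, hm]
    ring
  have h2 := tau_dens hanti hS
  rw [show (-1 : ℝ) * -κ = κ by ring, show (1 : ℝ) - -1 = 2 by norm_num] at h2
  refine h2.congr fun T => ?_
  rw [Real.rpow_two, hτ, mul_comm]

end Pool.Agent.Lib.MP_4960b8_pr.PT
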