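import Pool.Agent.Lib.MP_4960b8_pr.QK.Main
import Pool.Agent.Lib.MP_4960b8_pr.QK.GoodE
import Pool.Agent.Lib.MP_4960b8_pr.PT.AlgC
import Pool.Agent.Lib.MP_4960b8_pr.PT.PhB
import Pool.Agent.Lib.MP_4960b8_pr.PT.Tail
import Pool.Agent.Lib.MP_4960b8_pr.PT.Tau
import Pool.Agent.Lib.MP_4960b8_pr.PT.AnD
import Pool.Agent.Lib.MP_4960b8_pr.PT.AnW

/-! Assembly. -/

namespace Pool.Agent.Lib.MP_4960b8_pr.PT

open SAW QK Filter Topology Polynomial

lemma vac_lim {T : ℕ} {ψ : Vec} (s0 : Supp T ψ) (c0 : HasCh T 0 ψ) (fx : Ch T ψ = ψ)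
    (cl : Q T ψ = 0) (Λ : Vec →ₗ[ℂ] ℂ) :
    Tendsto (fun m => ψ zer * Λ ((Ch T ^ m) vac)) atTop (𝓝 (Λ ψ)) := by
  obtain ⟨ξ, h1, h2, h3⟩ := physe_exact T 0 ψ s0 c0 cl
  have h4 := physe_lim T (Λ ∘ₗ Q T) (fun m => (Ch T ^ m) ξ) (physe_pow_supp h1)
    (ch_decay (by norm_num) h1 h2)
  have h5 := h4.const_sub (Λ ψ)
  rw [sub_zero] at h5
  refine h5.congr fun m => ?_
  have h6 : ψ = ψ zer • (Ch T ^ m) vac + Q T ((Ch T ^ m) ξ) := by
    rw [physe_Q_pow h1, ← map_smul, ← map_add, ← h3, physe_fix_pow fx]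
  have h7 : Λ ψ = ψ zer * Λ ((Ch T ^ m) vac) + Λ (Q T ((Ch T ^ m) ξ)) := by
    conv_lhs => rw [h6, map_add, map_smul, smul_eq_mul]
  rw [LinearMap.comp_apply, h7, add_sub_cancel_right]

theorem strip_lim : ∃ a b : ℂ, a.re = 1 + 3 * √2 / 2 - 16 * √3 / 9 ∧ ∀ T : ℕ, 1000 ≤ T → ∃ Pl : ℂ[X], Hyp T Pl ∧
    Tendsto (fun N => ∑ r ∈ Finset.range T, mu (win T r N)) atTop (𝓝 (a * T + b -
      deriv (Th T Pl) (3 * Real.pi / 8) / Th T Pl (3 * Real.pi / 8)).re) := by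
  obtain ⟨θ, b, hθ, hv⟩ := th_val2
  obtain ⟨a, ha⟩ : ∃ a, a = ((3 / 2 + 3 * √2 / 2 - 16 * √3 / 9 : ℝ) : ℂ) - Complex.I := ⟨_, rfl⟩
  rw [← ha] at hv
  refine ⟨Complex.I - 1 / 2 + a, b, ?_, fun T hT => ?_⟩
  · have e : Complex.I - 1 / 2 + a = ((1 + 3 * √2 / 2 - 16 * √3 / 9 : ℝ) : ℂ) := by
      rw [ha]
      push_cast
      ring
    rw [e, Complex.ofReal_re]
  obtain ⟨ψ, Pl, s0, c0, fx, cl, h2, h3, h4, h5, h6⟩ := algP good T
  have p1 : ψ zer = 0 → ψ = 0 := fun hz => funext fun σ => by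
    have := vac_lim s0 c0 fx cl (LinearMap.proj σ)
    simp only [hz, zero_mul] at this
    exact tendsto_nhds_unique this tendsto_const_nhds
  have z : Pl.coeff 0 = 0 → Pl = 0 := fun h0 =>
    anaf_real hT h3 (anaf_im hT h3 (by rw [h0, Complex.zero_im])) h0
  have n0 : ψ zer ≠ 0 := fun e => h2.elim (fun b => b (p1 e)) fun b => b (z (h4.trans e))
  have h0 : Pl.coeff 0 ≠ 0 := h4 ▸ n0
  have h7 := anaf_lin h3 h3 (Pl.coeff 0)⁻¹ 0
  rw [map_zero, zero_mul, add_zero] at h7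
  have c1 : (C (Pl.coeff 0)⁻¹ * Pl).coeff 0 = 1 := by rw [coeff_C_mul, inv_mul_cancel₀ h0]
  have hr := anaf_im hT h7 (by rw [c1, Complex.one_im])
  have v1 : (C (Pl.coeff 0)⁻¹ * Pl).eval (ζ ^ 3) = (2 * c18 * ζ ^ 3) ^ T := by
    rw [eval_mul, eval_C, h5, inv_mul_cancel_left₀ h0]
  refine ⟨_, ⟨h7, hr, c1, v1⟩, ?_⟩
  obtain ⟨e1, e2⟩ := hv T _ v1
  have hz : ζ ≠ 0 := Complex.exp_ne_zero _
  have hc : (c18 : ℂ) ≠ 0 := Complex.ofReal_ne_zero.2 anaf_c18.1.ne'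
  have n1 : Pl.eval (ζ ^ 3) ≠ 0 := by
    rw [h5]
    exact mul_ne_zero h0 (pow_ne_zero _ (mul_ne_zero (mul_ne_zero two_ne_zero hc)
      (pow_ne_zero _ hz)))
  have e : (ψ zer)⁻¹ * LH T ψ = (Complex.I - 1 / 2 + a) * T + b -
      deriv (Th T (C (Pl.coeff 0)⁻¹ * Pl)) (3 * Real.pi / 8) /
        Th T (C (Pl.coeff 0)⁻¹ * Pl) (3 * Real.pi / 8) := by
    rw [derivative_C_mul, eval_mul, eval_mul, eval_C] at e2
    rw [e1, ← h4]
    refine mul_right_cancel₀ (mul_ne_zero hθ n1) ?_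
    have i1 := inv_mul_cancel₀ h0
    have i2 := inv_mul_cancel₀ hθ
    rw [div_eq_inv_mul]
    generalize deriv (Th T (C (Pl.coeff 0)⁻¹ * Pl)) (3 * Real.pi / 8) = w at e2 ⊢
    linear_combination θ * (Pl.coeff 0)⁻¹ * h6 + Pl.coeff 0 * e2 + w * Pl.eval (ζ ^ 3) * i2 +
      (θ * ((Complex.I - 1 / 2 + a) * T + b) * Pl.eval (ζ ^ 3) - w * Pl.eval (ζ ^ 3)) * i1
  have t := (vac_lim s0 c0 fx cl (LH T)).const_mul (ψ zer)⁻¹
  simp only [inv_mul_cancel_left₀ n0, e] at t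
  refine ((Complex.continuous_re.tendsto _).comp t).congr' ?_
  filter_upwards [eventually_gt_atTop 0] with N hN
  rw [Function.comp, phys_fin T N hN, Complex.ofReal_re]

theorem poly_tail : HasSum (fun γ : polys => xc ^ γ.1.length) (1 + 3 * √2 / 2 - 16 * √3 / 9) ∧
    Tendsto (fun T : ℕ => (T : ℝ) ^ 2 * ∑' γ : tall T, xc ^ γ.1.length) atTop
      (𝓝 (5 / (36 * √3))) := by
  obtain ⟨a, b, ha, h⟩ := strip_lim
  choose! Pl h1 h2 using h
  have hl : Tendsto (fun T : ℕ => (T : ℝ) * ((a * T + b - deriv (Th T (Pl T)) (3 * Real.pi / 8) /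
      Th T (Pl T) (3 * Real.pi / 8)).re - a.re * T - b.re)) atTop (𝓝 (5 / (36 * √3))) := by
    refine Metric.tendsto_atTop.2 fun ε hε => ?_
    obtain ⟨T₀, h⟩ := ana_lim (half_pos hε)
    refine ⟨max T₀ 1000, fun T hT => ?_⟩
    have h3 := (Complex.abs_re_le_norm _).trans
      (h T (le_of_max_le_left hT) _ (h1 T (le_of_max_le_right hT)))
    refine lt_of_le_of_lt (le_of_eq ?_) (h3.trans_lt (half_lt_self hε))
    have e : (5 / (36 * √3) : ℂ) = ((5 / (36 * √3) : ℝ) : ℂ) := by push_cast; rfl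
    rw [Real.dist_eq, ← abs_neg, e, mul_div_assoc (T : ℂ), Complex.add_re, Complex.ofReal_re]
    generalize deriv (Th T (Pl T)) (3 * Real.pi / 8) / Th T (Pl T) (3 * Real.pi / 8) = w
    congr 1
    simp
    ring
  obtain ⟨s, t⟩ := tauber (w := fun γ : polys => xc ^ γ.1.length) (h := fun γ => ht γ.1)
    (fun γ => pow_nonneg xc_pos.le _)
    (fun T hT => hasSum_strip (fun r N => win_finite T r N) (h2 T hT)) hl
  refine ⟨ha ▸ s, t.congr fun T => ?_⟩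
  congr 1
  have e : tall T = polys ∩ {γ | T < ht γ} :=
    Set.ext fun γ => ⟨fun h => ⟨h.1, (tall_iff h.1).1 h⟩, fun h => (tall_iff h.1).2 h.2⟩
  rw [e, tsum_subtype (polys ∩ _) fun γ : List V => xc ^ γ.length,
    ← Set.indicator_indicator, ← tsum_subtype]
  exact tsum_congr fun γ => by simp [Set.indicator_apply]

theorem poly_low : Summable (fun γ : polys => xc ^ γ.1.length) ∧
    Tendsto (fun T : ℕ => (T : ℝ) ^ 2 *
      (1 + 3 * √2 / 2 - 16 * √3 / 9 - ∑' γ : low T, xc ^ γ.1.length)) atTop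
      (𝓝 (5 / (36 * √3))) := by
  obtain ⟨s, t⟩ := poly_tail
  refine ⟨s.summable, t.congr fun T => ?_⟩
  have e : polys = tall T ∪ low T := by
    ext γ
    simp only [tall, low, Set.mem_union, Set.mem_setOf_eq, ← and_or_left, iff_self_and]
    intro _
    by_contra h
    push Not at h
    obtain ⟨h1, u, hu, v, hv, h2⟩ := h
    exact absurd (h1 u hu v hv) (not_le.2 h2)
  have d : Disjoint (tall T) (low T) := Set.disjoint_left.2
    fun γ ⟨_, u, hu, v, hv, h⟩ h' => absurd (h'.2 u hu v hv) (not_le.2 h)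
  have m : ∀ A : Set (List V), A ⊆ polys → Summable fun γ : A => xc ^ γ.1.length := fun A hA =>
    s.summable.comp_injective (Set.inclusion_injective hA)
  have := Summable.tsum_union_disjoint (f := fun γ : List V => xc ^ γ.length) d
    (m _ fun _ h => h.1) (m _ fun _ h => h.1)
  rw [← e, s.tsum_eq] at this
  rw [this, add_sub_cancel_right]

end Pool.Agent.Lib.MP_4960b8_pr.PT
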