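import Pool.Agent.Lib.MP_4960b8_pr.PT.PermA

/-! Symmetry of the loop functional (plan A5). -/

namespace Pool.Agent.Lib.MP_4960b8_pr.PT

open QK

theorem polyF_LP {L : List ((ℕ → P) → P)} (hL : ∀ g ∈ L, PolyP g) {v : (ℕ → P) → Vec}
    (hv : PolyV v) : PolyF fun x => LP (L.map fun g => g x) (v x) := by
  induction L generalizing v with
  | nil => exact PolyF.const 0
  | cons a L ih =>
    have ha := hL a (by simp)
    have hl : ∀ g ∈ L, PolyP g := fun i hi => hL i (by simp [hi])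
    have w := poly_w ha (PolyP.const aux)
    have c : PolyV fun x => colB .m (L.map fun g => g x) (prj .p (v x)) :=
      ((PolyO.prj .m).mul (PolyO.down (PolyP.const aux) hl)) _ (PolyO.prj .p v hv)
    simp only [List.map_cons, LP_cons]
    exact (w.2.2.2.2.2.2.2.mul (c zer)).add (w.1.mul (ih hl (PolyO.prj .o v hv)))

theorem LP_K (l : List P) (a : P) {v : Vec} (hs : Supp (l.length + 1) v) :
    LP (l ++ [bar a]) (liftN l.length (K a) v) = kd a * LP (l ++ [a]) v := by
  induction l generalizing v with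
  | nil =>
    have e : v (cons .p (cons .m zer)) = 0 := hs _ 1 le_rfl (by simp [cons])
    have e1 : K a v (cons .p (cons .m zer)) = 0 := by
      unfold K
      rw [basic_dg_apply, e, mul_zero]
    show jn (bar a) aux * K a v (cons .p (cons .m zer)) + dd (bar a) aux * 0 =
      kd a * (jn a aux * v (cons .p (cons .m zer)) + dd a aux * 0)
    rw [e, e1]
    ring
  | cons m l ih =>
    have p : ∀ s, prj s (liftN (m :: l).length (K a) v) = liftN l.length (K a) (prj s v) :=
      fun s => rfl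
    rw [List.cons_append, List.cons_append, LP_cons, LP_cons, p, p, ih (hs.prj .o),
      ← colB_K .m a l (hs.prj .p), alga_K_zer]
    ring

lemma perm_psi {M : (ℕ → P) → List P} {Ψ : List P → Vec} (hM : alga_PL M) (h : PolV Ψ) :
    PolyF fun x => LP (M x) (Ψ (M x)) := by
  obtain ⟨L, h1, h2⟩ := hM
  simp only [h2]
  exact polyF_LP h1 (h.polyV h1)

variable {n : ℕ} {Ψ : List P → Vec}

lemma perm_swap (h : Good n Ψ) (l₁ : List P) (a b : P) (l₂ : List P)
    (hl : (l₁ ++ a :: b :: l₂).length ≤ n) :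
    LP (l₁ ++ a :: b :: l₂) (Ψ (l₁ ++ a :: b :: l₂)) =
      LP (l₁ ++ b :: a :: l₂) (Ψ (l₁ ++ b :: a :: l₂)) := by
  have p : ∀ i j, PolyF fun x : ℕ → P =>
      LP (l₁ ++ x i :: x j :: l₂) (Ψ (l₁ ++ x i :: x j :: l₂)) := fun i j =>
    perm_psi (alga_PL_append (alga_PL_const l₁) (alga_PL_cons (PolyP.var i)
      (alga_PL_cons (PolyP.var j) (alga_PL_const l₂)))) h.pol
  refine sub_eq_zero.1 (poly_dom ((p 0 1).sub (p 1 0)) (PolyF.dd (PolyP.var 0) (PolyP.var 1))
    (fun x hx => ?_) (y := fun _ => aux) dd_aux_aux fun i => if i = 0 then a else b)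
  have hl' : (l₁ ++ x 0 :: x 1 :: l₂).length ≤ n := by simpa using hl
  have h1 := lemB l₁ (x 0) (x 1) l₂ (good_ker h _ hl') (h.supp _ hl')
  rw [h.ex l₁ (x 0) (x 1) l₂ hl', h.col_fix _ hl', map_smul, Pi.smul_apply, smul_eq_mul,
    smul_eq_mul, sub_self, mul_zero, sub_eq_zero] at h1
  exact sub_eq_zero.2 (mul_left_cancel₀ hx h1).symm

/-- pattern of `Good.D_perm` -/
theorem LP_perm (h : Good n Ψ) {l l' : List P} (hl : l.length ≤ n) (hp : l.Perm l') :
    LP l (Ψ l) = LP l' (Ψ l') := by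
  suffices H : ∀ l₁ : List P, (l₁ ++ l).length ≤ n →
      LP (l₁ ++ l) (Ψ (l₁ ++ l)) = LP (l₁ ++ l') (Ψ (l₁ ++ l')) from H [] hl
  clear hl
  induction hp with
  | nil => intro _ _; rfl
  | cons x _ ih =>
    intro l₁ hl
    simpa using ih (l₁ ++ [x]) (by simpa using hl)
  | swap x y l => exact fun l₁ hl => perm_swap h l₁ y x l hl
  | trans h1 _ ih1 ih2 =>
    exact fun l₁ hl => (ih1 l₁ hl).trans (ih2 l₁ ((h1.append_left l₁).length_eq ▸ hl))

/-- pattern of `Good.D_bar` -/
theorem LP_bar (h : Good n Ψ) (a : P) (l : List P) (hl : l.length < n) :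
    LP (bar a :: l) (Ψ (bar a :: l)) = LP (a :: l) (Ψ (a :: l)) := by
  have p : ∀ g, PolyP g → PolyF fun x : ℕ → P => LP (g x :: l) (Ψ (g x :: l)) := fun g hg =>
    perm_psi (alga_PL_cons hg (alga_PL_const l)) h.pol
  refine sub_eq_zero.1 (poly_dom ((p _ (PolyP.var 0).bar).sub (p _ (PolyP.var 0)))
    (PolyF.kd (PolyP.var 0)) (fun x hx => ?_) (y := fun _ => (1, 0))
    (by simp [kd, zeta_ne]) fun _ => a)
  have hl' : (l ++ [x 0]).length ≤ n := by simpa using hl
  have h1 := LP_K l (x 0) (v := Ψ (l ++ [x 0])) (by simpa using h.supp _ hl')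
  rw [h.kt l (x 0) hl', map_smul, smul_eq_mul] at h1
  rw [LP_perm h (l := bar (x 0) :: l) hl (List.perm_append_singleton _ _).symm,
    LP_perm h (l := x 0 :: l) hl (List.perm_append_singleton _ _).symm]
  exact sub_eq_zero.2 (mul_left_cancel₀ hx h1)

end Pool.Agent.Lib.MP_4960b8_pr.PT
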