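import Pool.Agent.Lib.MP_4960b8_pr.PT.Ker

/-! The loop functional and the `R` matrix (plan A3, A4). -/

namespace Pool.Agent.Lib.MP_4960b8_pr.PT

open QK

lemma pa_s1 (a b : P) : jn b aux * ul a aux * cr a b = jn a b * uu a aux * cr b aux := by
  simp only [jn, ul, uu, cr, aux]; ring

lemma pa_s2 (a b : P) : jn b aux * ul a aux * w1 a b + dd b aux * dd a aux * jn a b =
    dd a b * jn a aux * ul b aux + jn a b * vv a aux * vv b aux := by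
  simp only [jn, ul, vv, dd, w1, aux]
  linear_combination (
    (1) * ζ ^ 3 * a.2 ^ 4 * b.1 ^ 2 * b.2 ^ 2 + (-1) * ζ ^ 3 * a.1 ^ 2 * a.2 ^ 2 * b.2 ^ 4 +
    (-1) * ζ ^ 5 * a.2 ^ 4 * b.1 ^ 2 * b.2 ^ 2 + (1) * ζ ^ 5 * a.1 ^ 2 * a.2 ^ 2 * b.2 ^ 4 +
    (-1) * ζ ^ 6 * a.2 ^ 4 * b.1 ^ 3 * b.2 + (-1) * ζ ^ 6 * a.1 * a.2 ^ 3 * b.1 ^ 2 * b.2 ^
    2 + (1) * ζ ^ 6 * a.1 ^ 2 * a.2 ^ 2 * b.1 * b.2 ^ 3 + (1) * ζ ^ 6 * a.1 ^ 3 * a.2 * b.2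
    ^ 4 + (-2) * ζ ^ 7 * a.2 ^ 4 * b.1 ^ 2 * b.2 ^ 2 + (2) * ζ ^ 7 * a.1 ^ 2 * a.2 ^ 2 * b.2
    ^ 4 + (1) * ζ ^ 8 * a.2 ^ 4 * b.1 ^ 3 * b.2 + (1) * ζ ^ 8 * a.1 * a.2 ^ 3 * b.1 ^ 2 *
    b.2 ^ 2 + (-1) * ζ ^ 8 * a.1 ^ 2 * a.2 ^ 2 * b.1 * b.2 ^ 3 + (-1) * ζ ^ 8 * a.1 ^ 3 *
    a.2 * b.2 ^ 4 + (1) * ζ ^ 9 * a.2 ^ 4 * b.1 ^ 2 * b.2 ^ 2 + (1) * ζ ^ 9 * a.1 * a.2 ^ 3
    * b.1 ^ 3 * b.2 + (-1) * ζ ^ 9 * a.1 ^ 2 * a.2 ^ 2 * b.2 ^ 4 + (-1) * ζ ^ 9 * a.1 ^ 3 *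
    a.2 * b.1 * b.2 ^ 3 + (2) * ζ ^ 10 * a.2 ^ 4 * b.1 ^ 3 * b.2 + (1) * ζ ^ 10 * a.1 * a.2
    ^ 3 * b.1 ^ 2 * b.2 ^ 2 + (-1) * ζ ^ 10 * a.1 ^ 2 * a.2 ^ 2 * b.1 * b.2 ^ 3 + (-2) * ζ ^
    10 * a.1 ^ 3 * a.2 * b.2 ^ 4 + (-1) * ζ ^ 11 * a.1 * a.2 ^ 3 * b.1 ^ 3 * b.2 + (1) * ζ ^
    11 * a.1 ^ 3 * a.2 * b.1 * b.2 ^ 3 + (-1) * ζ ^ 12 * a.2 ^ 4 * b.1 ^ 3 * b.2 + (-1) * ζ
    ^ 12 * a.1 * a.2 ^ 3 * b.1 ^ 2 * b.2 ^ 2 + (1) * ζ ^ 12 * a.1 ^ 2 * a.2 ^ 2 * b.1 * b.2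
    ^ 3 + (1) * ζ ^ 12 * a.1 ^ 3 * a.2 * b.2 ^ 4 + (-1) * ζ ^ 13 * a.1 * a.2 ^ 3 * b.1 ^ 3 *
    b.2 + (1) * ζ ^ 13 * a.1 ^ 3 * a.2 * b.1 * b.2 ^ 3 + (1) * ζ ^ 14 * a.1 * a.2 ^ 3 * b.1
    ^ 2 * b.2 ^ 2 + (-1) * ζ ^ 14 * a.1 ^ 2 * a.2 ^ 2 * b.1 * b.2 ^ 3 + (2) * ζ ^ 15 * a.2 ^
    4 * b.1 ^ 2 * b.2 ^ 2 + (1) * ζ ^ 15 * a.1 * a.2 ^ 3 * b.1 ^ 3 * b.2 + (-2) * ζ ^ 15 *
    a.1 ^ 2 * a.2 ^ 2 * b.2 ^ 4 + (-1) * ζ ^ 15 * a.1 ^ 3 * a.2 * b.1 * b.2 ^ 3 + (-1) * ζ ^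
    16 * a.1 ^ 2 * a.2 ^ 2 * b.1 ^ 3 * b.2 + (1) * ζ ^ 16 * a.1 ^ 3 * a.2 * b.1 ^ 2 * b.2 ^
    2 + (-1) * ζ ^ 17 * a.1 * a.2 ^ 3 * b.1 ^ 3 * b.2 + (1) * ζ ^ 17 * a.1 ^ 3 * a.2 * b.1 *
    b.2 ^ 3 + (-2) * ζ ^ 18 * a.2 ^ 4 * b.1 ^ 3 * b.2 + (-1) * ζ ^ 18 * a.1 * a.2 ^ 3 * b.1
    ^ 2 * b.2 ^ 2 + (1) * ζ ^ 18 * a.1 ^ 2 * a.2 ^ 2 * b.1 * b.2 ^ 3 + (2) * ζ ^ 18 * a.1 ^
    3 * a.2 * b.2 ^ 4 + (-1) * ζ ^ 19 * a.2 ^ 4 * b.1 ^ 2 * b.2 ^ 2 + (1) * ζ ^ 19 * a.1 ^ 2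
    * a.2 ^ 2 * b.2 ^ 4 + (1) * ζ ^ 20 * a.1 ^ 2 * a.2 ^ 2 * b.1 ^ 3 * b.2 + (-1) * ζ ^ 20 *
    a.1 ^ 3 * a.2 * b.1 ^ 2 * b.2 ^ 2 + (1) * ζ ^ 21 * a.1 * a.2 ^ 3 * b.1 ^ 3 * b.2 + (-1)
    * ζ ^ 21 * a.1 ^ 3 * a.2 * b.1 * b.2 ^ 3 + (1) * ζ ^ 22 * a.2 ^ 4 * b.1 ^ 3 * b.2 + (-1)
    * ζ ^ 22 * a.1 ^ 3 * a.2 * b.2 ^ 4 + (1) * ζ ^ 24 * a.1 ^ 2 * a.2 ^ 2 * b.1 ^ 3 * b.2 +
    (-1) * ζ ^ 24 * a.1 ^ 3 * a.2 * b.1 ^ 2 * b.2 ^ 2 + (-1) * ζ ^ 28 * a.1 ^ 2 * a.2 ^ 2 *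
    b.1 ^ 3 * b.2 + (1) * ζ ^ 28 * a.1 ^ 3 * a.2 * b.1 ^ 2 * b.2 ^ 2) * h8

lemma pa_s3 (a b : P) : jn b aux * vv a aux * ul a b + dd b aux * jn a aux * vv a b =
    dd a b * jn a aux * vv b aux + jn a b * vv a aux * uu b aux := by
  simp only [jn, ul, uu, vv, dd, aux]
  linear_combination (
    (1) * ζ ^ 5 * a.1 * a.2 ^ 3 * b.1 * b.2 ^ 3 + (-1) * ζ ^ 5 * a.1 ^ 2 * a.2 ^ 2 * b.2 ^ 4
    + (-1) * ζ ^ 8 * a.2 ^ 4 * b.1 ^ 3 * b.2 + (1) * ζ ^ 8 * a.1 ^ 3 * a.2 * b.2 ^ 4 + (-1)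
    * ζ ^ 9 * a.1 * a.2 ^ 3 * b.1 * b.2 ^ 3 + (1) * ζ ^ 9 * a.1 ^ 2 * a.2 ^ 2 * b.2 ^ 4 +
    (1) * ζ ^ 11 * a.2 ^ 4 * b.1 ^ 4 + (-1) * ζ ^ 11 * a.1 ^ 3 * a.2 * b.1 * b.2 ^ 3 + (1) *
    ζ ^ 12 * a.2 ^ 4 * b.1 ^ 3 * b.2 + (-1) * ζ ^ 12 * a.1 ^ 3 * a.2 * b.2 ^ 4 + (-1) * ζ ^
    14 * a.1 * a.2 ^ 3 * b.1 ^ 4 + (1) * ζ ^ 14 * a.1 ^ 2 * a.2 ^ 2 * b.1 ^ 3 * b.2 + (-1) *
    ζ ^ 15 * a.2 ^ 4 * b.1 ^ 4 + (1) * ζ ^ 15 * a.1 ^ 3 * a.2 * b.1 * b.2 ^ 3 + (1) * ζ ^ 18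
    * a.1 * a.2 ^ 3 * b.1 ^ 4 + (-1) * ζ ^ 18 * a.1 ^ 2 * a.2 ^ 2 * b.1 ^ 3 * b.2) * h8

lemma pa_s4 (a b : P) : jn b aux * vv a aux * vv a b + dd b aux * jn a aux * uu a b =
    dd a b * dd a aux * jn b aux + jn a b * uu a aux * w1 b aux := by
  simp only [jn, uu, vv, dd, w1, aux]
  linear_combination (
    (-1) * ζ ^ 3 * a.1 * a.2 ^ 3 * b.1 * b.2 ^ 3 + (1) * ζ ^ 3 * a.1 ^ 2 * a.2 ^ 2 * b.2 ^ 4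
    + (1) * ζ ^ 5 * a.1 * a.2 ^ 3 * b.1 * b.2 ^ 3 + (-1) * ζ ^ 5 * a.1 ^ 2 * a.2 ^ 2 * b.2 ^
    4 + (1) * ζ ^ 6 * a.1 ^ 2 * a.2 ^ 2 * b.1 * b.2 ^ 3 + (-1) * ζ ^ 6 * a.1 ^ 3 * a.2 * b.2
    ^ 4 + (2) * ζ ^ 7 * a.1 * a.2 ^ 3 * b.1 * b.2 ^ 3 + (-2) * ζ ^ 7 * a.1 ^ 2 * a.2 ^ 2 *
    b.2 ^ 4 + (-1) * ζ ^ 8 * a.1 ^ 2 * a.2 ^ 2 * b.1 * b.2 ^ 3 + (1) * ζ ^ 8 * a.1 ^ 3 * a.2
    * b.2 ^ 4 + (-1) * ζ ^ 9 * a.1 * a.2 ^ 3 * b.1 * b.2 ^ 3 + (1) * ζ ^ 9 * a.1 * a.2 ^ 3 *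
    b.1 ^ 3 * b.2 + (1) * ζ ^ 9 * a.1 ^ 2 * a.2 ^ 2 * b.2 ^ 4 + (-1) * ζ ^ 9 * a.1 ^ 2 * a.2
    ^ 2 * b.1 ^ 2 * b.2 ^ 2 + (-1) * ζ ^ 10 * a.1 ^ 2 * a.2 ^ 2 * b.1 * b.2 ^ 3 + (1) * ζ ^
    10 * a.1 ^ 3 * a.2 * b.2 ^ 4 + (-1) * ζ ^ 11 * a.1 * a.2 ^ 3 * b.1 ^ 3 * b.2 + (1) * ζ ^
    11 * a.1 ^ 2 * a.2 ^ 2 * b.1 ^ 2 * b.2 ^ 2 + (1) * ζ ^ 12 * a.1 ^ 2 * a.2 ^ 2 * b.1 *
    b.2 ^ 3 + (-1) * ζ ^ 12 * a.1 ^ 2 * a.2 ^ 2 * b.1 ^ 3 * b.2 + (-1) * ζ ^ 12 * a.1 ^ 3 *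
    a.2 * b.2 ^ 4 + (1) * ζ ^ 12 * a.1 ^ 3 * a.2 * b.1 ^ 2 * b.2 ^ 2 + (-2) * ζ ^ 13 * a.1 *
    a.2 ^ 3 * b.1 ^ 3 * b.2 + (1) * ζ ^ 13 * a.1 ^ 2 * a.2 ^ 2 * b.1 ^ 2 * b.2 ^ 2 + (1) * ζ
    ^ 13 * a.1 ^ 4 * b.2 ^ 4 + (-1) * ζ ^ 14 * a.1 ^ 2 * a.2 ^ 2 * b.1 * b.2 ^ 3 + (1) * ζ ^
    14 * a.1 ^ 2 * a.2 ^ 2 * b.1 ^ 3 * b.2 + (1) * ζ ^ 14 * a.1 ^ 3 * a.2 * b.2 ^ 4 + (-1) *
    ζ ^ 14 * a.1 ^ 3 * a.2 * b.1 ^ 2 * b.2 ^ 2 + (-2) * ζ ^ 15 * a.1 * a.2 ^ 3 * b.1 * b.2 ^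
    3 + (1) * ζ ^ 15 * a.1 * a.2 ^ 3 * b.1 ^ 3 * b.2 + (2) * ζ ^ 15 * a.1 ^ 2 * a.2 ^ 2 *
    b.2 ^ 4 + (-1) * ζ ^ 15 * a.1 ^ 2 * a.2 ^ 2 * b.1 ^ 2 * b.2 ^ 2 + (2) * ζ ^ 16 * a.1 ^ 2
    * a.2 ^ 2 * b.1 ^ 3 * b.2 + (-1) * ζ ^ 16 * a.1 ^ 3 * a.2 * b.1 ^ 2 * b.2 ^ 2 + (-1) * ζ
    ^ 16 * a.1 ^ 4 * b.1 * b.2 ^ 3 + (1) * ζ ^ 17 * a.1 ^ 2 * a.2 ^ 2 * b.1 ^ 2 * b.2 ^ 2 +
    (-1) * ζ ^ 17 * a.1 ^ 4 * b.2 ^ 4 + (1) * ζ ^ 18 * a.1 ^ 2 * a.2 ^ 2 * b.1 * b.2 ^ 3 +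
    (-1) * ζ ^ 18 * a.1 ^ 2 * a.2 ^ 2 * b.1 ^ 3 * b.2 + (-1) * ζ ^ 18 * a.1 ^ 3 * a.2 * b.2
    ^ 4 + (1) * ζ ^ 18 * a.1 ^ 3 * a.2 * b.1 ^ 2 * b.2 ^ 2 + (1) * ζ ^ 19 * a.1 * a.2 ^ 3 *
    b.1 * b.2 ^ 3 + (-1) * ζ ^ 19 * a.1 ^ 2 * a.2 ^ 2 * b.2 ^ 4 + (-1) * ζ ^ 20 * a.1 ^ 3 *
    a.2 * b.1 ^ 2 * b.2 ^ 2 + (1) * ζ ^ 20 * a.1 ^ 4 * b.1 * b.2 ^ 3 + (2) * ζ ^ 21 * a.1 *
    a.2 ^ 3 * b.1 ^ 3 * b.2 + (-1) * ζ ^ 21 * a.1 ^ 2 * a.2 ^ 2 * b.1 ^ 2 * b.2 ^ 2 + (-1) *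
    ζ ^ 21 * a.1 ^ 4 * b.2 ^ 4 + (-2) * ζ ^ 24 * a.1 ^ 2 * a.2 ^ 2 * b.1 ^ 3 * b.2 + (1) * ζ
    ^ 24 * a.1 ^ 3 * a.2 * b.1 ^ 2 * b.2 ^ 2 + (1) * ζ ^ 24 * a.1 ^ 4 * b.1 * b.2 ^ 3 + (-1)
    * ζ ^ 25 * a.1 * a.2 ^ 3 * b.1 ^ 3 * b.2 + (1) * ζ ^ 25 * a.1 ^ 4 * b.2 ^ 4 + (1) * ζ ^
    28 * a.1 ^ 2 * a.2 ^ 2 * b.1 ^ 3 * b.2 + (-1) * ζ ^ 28 * a.1 ^ 4 * b.1 * b.2 ^ 3) * h8

lemma pa_oo : cons .o (cons .o zer) = zer := by rw [basic_cons_zer, basic_cons_zer]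

lemma pa_fc (m : P) (l : List P) : fc (m :: l) = dd m aux * fc l := by
  simp only [fc, List.map_cons, List.prod_cons]

lemma pa_col (m : P) (l : List P) (v : Vec) (t : St) : col (m :: l) v (cons .o t) =
    dd m aux * col l (prj .o v) t + jn m aux * (ζ ^ 2 * lift (down aux l) v (cons .p (cons .m t)) -
      ζ ^ 6 * lift (down aux l) v (cons .m (cons .p t))) := rfl

lemma pa_R_zer (a b : P) (i : ℕ) (W : Vec) : liftN i (R a b) W zer = dd a b * W zer +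
    jn a b * (ζ ^ 2 * W (sg i .p .m) - ζ ^ 6 * W (sg i .m .p)) := by
  induction i generalizing W with
  | zero =>
    have := R_apply a b W .o .o zer
    simp only [Rf, pa_oo] at this
    exact this
  | succ i ih =>
    have := lift_apply (liftN i (R a b)) W .o zer
    rw [ih, basic_cons_zer] at this
    exact this

/-- plan A3 -/
theorem lemC (l : List P) {v : Vec} (hk : Ker (l.length + 2) v) (hs : Supp (l.length + 2) v) :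
    ζ ^ 2 * LP l (prj .m (prj .p v)) - ζ ^ 6 * LP l (prj .p (prj .m v)) =
      col l (prj .m (prj .p v)) zer - fc l * v (sg 0 .p .m) := by
  induction l generalizing v with
  | nil =>
    have e : col [] (prj .m (prj .p v)) zer = v (sg 0 .p .m) :=
      congrArg (fun t => v (cons .p (cons .m t))) basic_cons_zer
    rw [LP_nil, LP_nil, e]
    simp [fc]
  | cons a l ih =>
    have hs' : Supp (l.length + 2) (liftN 2 (prj .o) v) :=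
      basic_PS_liftN (n := l.length + 1) (m := l.length) (fun _ h => h.prj .o) 2 v hs
    have h1 := ih (Ker.prj (n := l.length + 2) 2 hk (by omega)) hs'
    have h2 := ((hk.succ hs).down 3 aux l (by simp only [List.length_cons]; omega)).star (k := 0)
      (by simp only [List.length_cons]; omega)
    have h3 := pa_col a l (prj .m (prj .p v)) zer
    rw [basic_cons_zer] at h3
    have e0 : liftN 2 (prj .o) v (sg 0 .p .m) = v (sg 0 .p .m) :=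
      congrArg (fun t => v (cons .p (cons .m t))) basic_cons_zer
    rw [e0] at h1
    rw [LP_cons, LP_cons, h3, pa_fc]
    change ζ ^ 2 * LP l (prj .o (prj .m (prj .p v))) - ζ ^ 6 * LP l (prj .o (prj .p (prj .m v))) =
      col l (prj .o (prj .m (prj .p v))) zer - _ at h1
    change lift (down aux l) (prj .m (prj .p v)) (cons .m (cons .p zer)) =
      colB .m l (prj .p (prj .p (prj .m v))) zer at h2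
    have e1 : lift (down aux l) (prj .m (prj .p v)) (cons .p (cons .m zer)) =
      colB .m l (prj .p (prj .m (prj .p v))) zer := rfl
    rw [e1, h2]
    linear_combination dd a aux * h1

/-- plan A4 -/
theorem lemB (l₁ : List P) (a b : P) (l₂ : List P) {v : Vec}
    (hk : Ker (l₁ ++ a :: b :: l₂).length v) (hs : Supp (l₁ ++ a :: b :: l₂).length v) :
    LP (l₁ ++ b :: a :: l₂) (liftN l₁.length (R a b) v) - dd a b * LP (l₁ ++ a :: b :: l₂) v =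
      jn a b * (col (l₁ ++ a :: b :: l₂) v (sg l₁.length .p .m) -
        fc (l₁ ++ a :: b :: l₂) * v (sg l₁.length .p .m)) := by
  induction l₁ generalizing v with
  | nil =>
    simp only [List.nil_append, List.length_nil, basic_liftN_zero] at hk hs ⊢
    have hu : Ker (l₂.length + 3) (lift (lift (down aux l₂)) v) :=
      (hk.succ hs).down 2 aux l₂ (by show 2 + l₂.length + 1 ≤ l₂.length + 2 + 1; omega)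
    have hC := lemC l₂ hk hs
    have hR : lift (lift (down aux l₂)) (R a b v) = R a b (lift (lift (down aux l₂)) v) :=
      (LinearMap.congr_fun (R_lift a b (down aux l₂)) v).symm
    have L (a b : P) (w : Vec) : LP (a :: b :: l₂) w = jn a aux * (ul b aux *
        lift (lift (down aux l₂)) w (cons .p (cons .m (cons .o zer))) + vv b aux *
        lift (lift (down aux l₂)) w (cons .p (cons .o (cons .m zer)))) + dd a aux * (jn b aux *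
        lift (lift (down aux l₂)) w (cons .o (cons .p (cons .m zer))) +
        dd b aux * LP l₂ (prj .o (prj .o w))) := by
      have e : colB .m (b :: l₂) (prj .p w) (cons .o zer) = ul b aux *
        lift (lift (down aux l₂)) w (cons .p (cons .m (cons .o zer))) + vv b aux *
        lift (lift (down aux l₂)) w (cons .p (cons .o (cons .m zer))) := rfl
      rw [LP_cons, LP_cons, ← e, basic_cons_zer]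
      rfl
    have e1 : prj .o (prj .o (R a b v)) = dd a b • prj .o (prj .o v) +
        jn a b • (ζ ^ 2 • prj .m (prj .p v) - ζ ^ 6 • prj .p (prj .m v)) := rfl
    have e2 : col l₂ (prj .m (prj .p v)) zer =
        lift (lift (down aux l₂)) v (cons .p (cons .m (cons .o zer))) := rfl
    have e3 : col (a :: b :: l₂) v (sg 0 .p .m) = vv a aux * lift (R b aux)
        (lift (lift (down aux l₂)) v) (cons .p (cons .o (cons .m zer))) + uu a aux * lift (R b aux)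
        (lift (lift (down aux l₂)) v) (cons .o (cons .p (cons .m zer))) := rfl
    have t0 := hu.two (k := 0) (by omega)
    have t1 := hu.two (k := 1) (by omega)
    rw [L, L, hR, e1, e3, pa_fc, pa_fc]
    rw [e2] at hC
    simp only [map_add, map_sub, map_smul, smul_eq_mul]
    generalize lift (lift (down aux l₂)) v = u at *
    simp only [lift_apply, R_apply, Rf, sg, basic_cons_zer] at hC t0 t1 ⊢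
    have z0 : ζ ^ 2 * u (cons .p (cons .m zer)) - ζ ^ 6 * u (cons .m (cons .p zer)) = 0 := by
      rw [t0]; linear_combination ζ ^ 2 * u (cons .p (cons .m zer)) * h8
    have z1 : ζ ^ 2 * u (cons .o (cons .p (cons .m zer))) -
        ζ ^ 6 * u (cons .o (cons .m (cons .p zer))) = 0 := by
      rw [t1]; linear_combination ζ ^ 2 * u (cons .o (cons .p (cons .m zer))) * h8
    rw [z0, z1, hC]
    linear_combination ζ ^ 2 * u zer * pa_s1 a b + u (cons .p (cons .m zer)) * pa_s2 a b +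
      u (cons .p (cons .o (cons .m zer))) * pa_s3 a b +
      u (cons .o (cons .p (cons .m zer))) * pa_s4 a b
  | cons m l ih =>
    simp only [List.cons_append, List.length_cons, basic_liftN_succ] at hk hs ⊢
    have h1 := ih (hk.prj 0 (Nat.zero_le _)) (hs.prj .o)
    have h2 := ((hk.succ hs).down 1 aux (l ++ a :: b :: l₂) (by omega)).star (k := l.length)
      (by simp only [List.length_append, List.length_cons]; omega)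
    have h3 := pa_col m (l ++ a :: b :: l₂) v (sg l.length .p .m)
    have h4 := LinearMap.congr_fun (colB_ex .m a b l l₂) (prj .p v)
    have h5 := pa_R_zer a b l.length (colB .m (l ++ a :: b :: l₂) (prj .p v))
    simp only [Module.End.mul_apply] at h4
    rw [h4] at h5
    have e1 (s : S) : prj s (lift (liftN l.length (R a b)) v) = liftN l.length (R a b) (prj s v) :=
      rfl
    have e2 (t : St) : colB .m (l ++ a :: b :: l₂) (prj .p v) t =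
      lift (down aux (l ++ a :: b :: l₂)) v (cons .p (cons .m t)) := rfl
    rw [e2 (sg _ .p .m), e2 (sg _ .m .p)] at h5
    rw [LP_cons, LP_cons, e1, e1, h5, pa_fc]
    change _ = jn a b * (col (m :: (l ++ a :: b :: l₂)) v (cons .o (sg l.length .p .m)) -
      _ * prj .o v (sg l.length .p .m))
    change lift (down aux (l ++ a :: b :: l₂)) v _ = lift (down aux (l ++ a :: b :: l₂)) v _ at h2
    change LP _ (liftN l.length (R a b) (prj .o v)) - dd a b * LP _ (prj .o v) =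
      jn a b * (col _ (prj .o v) _ - _ * prj .o v _) at h1
    rw [h3, h2]
    linear_combination dd m aux * h1

end Pool.Agent.Lib.MP_4960b8_pr.PT
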