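import Pool.Agent.Lib.MP_4960b8_pr.PT.St
import Pool.Agent.Lib.MP_4960b8_pr.QK.PhysC

/-! The loop functional as a sum of partition functions (plan P, first half). -/

namespace Pool.Agent.Lib.MP_4960b8_pr.PT

open QK SAW

/-- `N` full columns with `r + 1 + n` rows and the `n` upper rows of the column `0` -/
noncomputable def om (N r n : ℕ) : Finset V :=
  physb_cv 0 (r + 1) n ∪ boxF (-N) 0 (r + 1 + n)

/-- an arrow enters the column `0` from below in the row `r + 1` and leaves the box in the row `r` -/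
def sb (r : ℕ) : Cfg := fun e => if e = eS 0 (r + 1) then .m else if e = eW 0 r then .p else .o

/-- `r` empty sites are removed -/
def prjN : ℕ → Op
  | 0 => 1
  | r + 1 => prjN r * prj .o

theorem LP_rep (T : ℕ) (v : Vec) : LP (List.replicate T hn) v = ∑ r ∈ Finset.range T,
    dd hn aux ^ r * jn hn aux *
      colB .m (List.replicate (T - 1 - r) hn) (prj .p (prjN r v)) zer := by
  induction T generalizing v with
  | zero => rfl
  | succ T ih =>
    rw [List.replicate_succ, LP_cons, ih, Finset.sum_range_succ', Finset.mul_sum, add_comm,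
      pow_zero, one_mul]
    congr 1
    refine Finset.sum_congr rfl fun r _ => ?_
    rw [show T + 1 - 1 - (r + 1) = T - 1 - r by omega, pow_succ',
      show prjN (r + 1) v = prjN r (prj .o v) from rfl]
    ring

lemma pha_prjN (r : ℕ) : ∀ (v : Vec) (σ : St),
    prjN r v σ = v fun i => if i < r then .o else σ (i - r) := by
  induction r with
  | zero => intro v σ; rfl
  | succ r ih =>
    intro v σ
    rw [show prjN (r + 1) v = prjN r (prj .o v) from rfl, ih]
    show v _ = v _
    congr 1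
    funext i
    cases i with
    | zero => simp
    | succ i => simp

lemma pha_tr (T N : ℕ) : tr T (fun _ => .o) N = Ch T ^ N := by
  induction N with
  | zero => rfl
  | succ N ih => rw [tr, ih, pow_succ']; rfl

lemma pha_supp (T N : ℕ) : Supp T ((Ch T ^ N) vac) := by
  rw [← pha_tr]
  exact physb_supp_tr _ (physb_supp_dl (σ := zer) fun _ _ => rfl) N

/-- a weight that fixes the spins of the edges in `J` outside `I` -/
lemma pha_del {I J : Finset V} (h : I ⊆ J) {δ : Cfg → ℂ} (G : Cfg → ℂ) {s : Cfg}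
    (h1 : ∀ s t, (∀ e, e ∉ I → s e = t e) → δ s = δ t) (h2 : δ s = 1)
    (h3 : ∀ t, δ t ≠ 0 → ∀ e ∈ J, e ∉ I → t e = s e) :
    mar J (fun t => δ t * G t) s = mar I G s := by
  rw [← Finset.sdiff_union_of_subset h, mar_union Finset.sdiff_disjoint, mar_mul G h1, mar,
    Finset.sum_eq_single (fun e => s e.1)]
  · have : Function.updateFinset s (J \ I) (fun e => s e.1) = s := by
      funext e
      simp [Function.updateFinset]
    rw [this, h2, one_mul]
  · intro y _ hy
    refine mul_eq_zero_of_left (by_contra fun h0 => hy ?_) _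
    funext e
    have he := Finset.mem_sdiff.1 e.2
    rw [← h3 _ h0 e.1 he.1 he.2]
    simp [Function.updateFinset]
  · intro h
    exact absurd (Finset.mem_univ _) h

lemma pha_mem_om {N r n : ℕ} {v : V} : v ∈ om N r n ↔ Valid v ∧ v.k < r + 1 + n ∧
    ((0 ≤ v.k ∧ -(N : ℤ) ≤ v.j ∧ v.j < 0) ∨ (v.j = 0 ∧ (r : ℤ) + 1 ≤ v.k)) := by
  simp only [om, Finset.mem_union, mem_boxF, physb_mem_cv, Valid]
  omega

lemma pha_mem_inE {N r n : ℕ} (hN : 0 < N) {e : V} : e ∈ inE (om N r n) ↔
    e.i + e.j + e.k = 3 ∧ e.k ≤ 2 * (r + 1 + n) - 2 ∧ (e.j % 2 = 0 ∨ e.k % 2 = 0) ∧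
      ((0 ≤ e.k ∧ -2 * (N : ℤ) ≤ e.j ∧ e.j ≤ -2) ∨
        (2 * ((r : ℤ) + 1) ≤ e.k ∧ -1 ≤ e.j ∧ e.j ≤ 0)) := by
  rw [physb_mem_inE]
  constructor
  · rintro ⟨u, hu, c, hc, h, rfl⟩
    rw [pha_mem_om] at hu hc
    obtain ⟨-, h1, h2⟩ := hu
    obtain ⟨-, h5, h6⟩ := hc
    simp only [ed]
    rcases adj_iff.1 h with ⟨h0, ⟨e1, e2, e3⟩ | ⟨e1, e2, e3⟩ | ⟨e1, e2, e3⟩⟩ |
      ⟨h0, ⟨e1, e2, e3⟩ | ⟨e1, e2, e3⟩ | ⟨e1, e2, e3⟩⟩ <;> omega
  · rintro ⟨h1, h2, h3, h4⟩
    refine ⟨⟨e.i / 2, e.j / 2, e.k / 2⟩, ?_, ⟨e.i - e.i / 2, e.j - e.j / 2, e.k - e.k / 2⟩,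
      ?_, ?_, ?_⟩
    · simp only [pha_mem_om, Valid]; omega
    · simp only [pha_mem_om, Valid]; omega
    · rw [adj_iff]; left; simp only; omega
    · simp only [ed, V.ext_iff]; omega

lemma pha_sb_o {r : ℕ} {e : V} (h1 : e ≠ eS 0 (r + 1)) (h2 : e ≠ eW 0 r) : sb r e = .o := by
  rw [sb, if_neg h1, if_neg h2]

lemma pha_sb_p (r : ℕ) : sb r (eW 0 r) = .p := by
  rw [sb, if_neg, if_pos rfl]
  simp only [physb_eW, physb_eS, V.ext_iff]; omega

/-- the state read by the removed sites and the upper part of the column -/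
lemma pha_state (r n : ℕ) (v : Vec) {s : Cfg} (h1 : ∀ k : ℕ, k < r → s (eW 0 k) = .o)
    (h2 : s (eW 0 r) = .p) : prj .p (prjN r v) (physb_rW 0 zer s (r + 1) n) =
      v (physb_rW 0 zer s 0 (r + 1 + n)) := by
  show prjN r v _ = _
  rw [pha_prjN]
  congr 1
  funext i
  rw [physb_rW_eq, physb_rW_eq, physb_rE_apply, zero_add]
  rcases lt_trichotomy i r with h | rfl | h
  · rw [if_pos h, if_pos (by omega), h1 i h]
  · rw [if_neg (lt_irrefl _), if_pos (by omega), Nat.sub_self, cons_zero, h2]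
  · obtain ⟨k, rfl⟩ := Nat.exists_eq_add_of_lt h
    rw [if_neg (by omega), show r + k + 1 - r = k + 1 by omega, cons_succ, physb_rE_apply,
      show r + k + 1 - (r + 1 + n) = k - n by omega]
    by_cases hk : k < n
    · rw [if_pos hk, if_pos (by omega)]
      congr 2
      push_cast; ring
    · rw [if_neg hk, if_neg (by omega)]
      congr 3
      push_cast; ring

/-- `physb_column` at the height `r + 1`, `physb_transfer`, and the end of `transfer` -/
theorem part_transfer (N r n : ℕ) (hN : 0 < N) (hn0 : 0 < n) :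
    (dd hn aux)⁻¹ ^ n * colB .m (List.replicate n hn)
      (prj .p (prjN r ((Ch (r + 1 + n) ^ N) vac))) zer = Z (om N r n) (sb r) := by
  have e0 : physb_rE (0 + 1) zer (sb r) (r + 1) n = zer := by
    funext i
    rw [physb_rE_apply]
    split_ifs
    · apply pha_sb_o <;> simp only [ne_eq, physb_eW, physb_eS, V.ext_iff] <;> omega
    · rfl
  have hc := physb_column 0 zer n (r + 1) (prj .p (prjN r ((Ch (r + 1 + n) ^ N) vac))) (sb r)
  rw [e0, show sb r (eS 0 (r + 1)) = .m from if_pos rfl] at hc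
  have ea : (-(N : ℤ)) + N = 0 := neg_add_cancel _
  have d1 : Disjoint (physb_C 0 (r + 1) n) (physb_A (-N) (r + 1 + n) N) := by
    rw [Finset.disjoint_left]
    intro e h1 h2
    rw [physb_mem_C] at h1
    rw [physb_mem_A] at h2
    omega
  have d2 : Disjoint (physb_cv 0 (r + 1) n) (boxF (-N) 0 (r + 1 + n)) := by
    rw [Finset.disjoint_left]
    intro e h1 h2
    rw [physb_mem_cv] at h1
    rw [mem_boxF] at h2
    omega
  have hm := mar_mul (I := physb_A (-N) (r + 1 + n) N)
    (F := fun s' => (∏ v ∈ physb_cv 0 (r + 1) n, vw v s') *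
      (if s' (eS 0 (r + 1 + n : ℕ)) = .o then 1 else 0))
    (fun s' => physb_del (r + 1 + n) (-N) zer N s' * ∏ v ∈ boxF (-N) 0 (r + 1 + n), vw v s') (by
      intro s1 s2 h
      have n1 : eS 0 (r + 1 + n : ℕ) ∉ physb_A (-N) (r + 1 + n) N := by
        rw [physb_mem_A]; simp only [physb_eS]; omega
      simp only [h _ n1]
      congr 1
      refine Finset.prod_congr rfl fun v hv => ?_
      rw [physb_mem_cv] at hv
      refine vw_congr hv.1 fun c hc => h _ ?_
      rw [physb_mem_A]
      simp only [ed]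
      have := adj_iff.1 hc
      omega)
  have hd := pha_del (I := inE (om N r n))
    (J := physb_C 0 (r + 1) n ∪ physb_A (-N) (r + 1 + n) N)
    (δ := fun s' => (if s' (eS 0 (r + 1 + n : ℕ)) = .o then 1 else 0) *
      physb_del (r + 1 + n) (-N) zer N s') (s := sb r)
    (fun e he => by
      rw [pha_mem_inE hN] at he
      rw [Finset.mem_union, physb_mem_C, physb_mem_A]
      omega)
    (fun s' => ∏ v ∈ om N r n, vw v s')
    (fun s1 s2 h => by
      have n1 : ∀ k : ℕ, s1 (eW (-N) k) = s2 (eW (-N) k) := fun k => h _ (by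
        rw [pha_mem_inE hN]; simp only [physb_eW]; omega)
      have n2 : ∀ i : ℤ, s1 (eS i (r + 1 + n : ℕ)) = s2 (eS i (r + 1 + n : ℕ)) := fun k => h _ (by
        rw [pha_mem_inE hN]; simp only [physb_eS]; omega)
      simp only [physb_del, n1, n2])
    (by
      rw [physb_del, if_pos, if_pos, one_mul]
      · refine ⟨fun k _ => ?_, fun i _ => ?_⟩ <;> apply pha_sb_o <;>
          simp only [ne_eq, physb_eW, physb_eS, V.ext_iff] <;> omega
      · apply pha_sb_o <;> simp only [ne_eq, physb_eW, physb_eS, V.ext_iff] <;> omega)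
    (fun t h0 e he he' => by
      have h1 : t (eS 0 (r + 1 + n : ℕ)) = .o := by
        by_contra h
        exact h0 (by rw [if_neg h, zero_mul])
      have h2 := right_ne_zero_of_mul h0
      rw [physb_del, ne_eq, ite_eq_right_iff, Classical.not_imp] at h2
      obtain ⟨⟨h2, h3⟩, -⟩ := h2
      rw [Finset.mem_union, physb_mem_C, physb_mem_A] at he
      rw [pha_mem_inE hN] at he'
      rw [pha_sb_o (by simp only [ne_eq, physb_eS, V.ext_iff]; omega)
        (by simp only [ne_eq, physb_eW, V.ext_iff]; omega)]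
      by_cases hj : e.j = 2 * (-N) - 1
      · have ee : e = eW (-N) ((e.k / 2).toNat : ℕ) := by
          simp only [physb_eW, V.ext_iff]; omega
        rw [ee, h2 _ (by omega)]
        rfl
      · by_cases hj' : e.j = 0
        · have ee : e = eS 0 (r + 1 + n : ℕ) := by
            simp only [physb_eS, V.ext_iff]; omega
          rw [ee, h1]
        · have ee : e = eS (-N + ((e.j / 2 + N).toNat : ℕ)) (r + 1 + n : ℕ) := by
            simp only [physb_eS, V.ext_iff]; omega
          rw [ee, h3 _ (by omega)])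
  have e1 : (fun s' => ((if s' (eS 0 (r + 1 + n : ℕ)) = .o then 1 else 0) *
      physb_del (r + 1 + n) (-N) zer N s') * ∏ v ∈ om N r n, vw v s') = fun s' =>
      ((∏ v ∈ physb_cv 0 (r + 1) n, vw v s') *
        (if s' (eS 0 (r + 1 + n : ℕ)) = .o then 1 else 0)) *
        (physb_del (r + 1 + n) (-N) zer N s' * ∏ v ∈ boxF (-N) 0 (r + 1 + n), vw v s') := by
    funext s'
    rw [om, Finset.prod_union d2]
    ring
  refine hc.symm.trans (Eq.trans ?_ hd)
  rw [e1, mar_union d1, hm]
  refine mar_congr fun y => ?_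
  have ht := physb_transfer (r + 1 + n) (-N) (fun _ => .o) (σ := zer) (fun _ _ => rfl) N
    (Function.updateFinset (sb r) (physb_C 0 (r + 1) n) y) fun i hi => by
      rw [physb_upd (by rw [physb_mem_C]; simp only [physb_eS]; omega)]
      apply pha_sb_o <;> simp only [ne_eq, physb_eW, physb_eS, V.ext_iff] <;> omega
  rw [ea, pha_tr] at ht
  rw [ht, pha_state, physb_top (pha_supp _ N), mul_assoc]
  · rfl
  · intro k hk
    rw [physb_upd (by rw [physb_mem_C]; simp only [physb_eW]; omega)]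
    apply pha_sb_o <;> simp only [ne_eq, physb_eW, physb_eS, V.ext_iff] <;> omega
  · rw [physb_upd (by rw [physb_mem_C]; simp only [physb_eW]; omega), pha_sb_p]

theorem part_top (N r : ℕ) :
    colB .m (List.replicate 0 hn) (prj .p (prjN r ((Ch (r + 1) ^ N) vac))) zer = 0 := by
  show prjN r ((Ch (r + 1) ^ N) vac) (cons .p (cons .m zer)) = 0
  rw [pha_prjN]
  refine pha_supp (r + 1) N _ (r + 1) le_rfl ?_
  simp

end Pool.Agent.Lib.MP_4960b8_pr.PT
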