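import Pool.Agent.Lib.MP_4960b8_pr.QK.AlgA
import Pool.Agent.Lib.MP_4960b8_pr.PT.Defs

/-! Shared definitions of the polygon project. -/

namespace Pool.Agent.Lib.MP_4960b8_pr.PT

open QK SAW Polynomial

/-- the functional that closes a loop, in one orientation, in a new column -/
noncomputable def LP : List P → Vec →ₗ[ℂ] ℂ
  | [] => 0
  | m :: l => jn m aux • ((LinearMap.proj zer : Vec →ₗ[ℂ] ℂ) ∘ₗ (colB .m l * prj .p)) +
      dd m aux • (LP l ∘ₗ prj .o)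

lemma LP_nil (v : Vec) : LP [] v = 0 := rfl

lemma LP_cons (m : P) (l : List P) (v : Vec) : LP (m :: l) v =
    jn m aux * colB .m l (prj .p v) zer + dd m aux * LP l (prj .o v) := rfl

/-- the normalised functional on the hexagonal lattice -/
noncomputable def LH (T : ℕ) : Vec →ₗ[ℂ] ℂ :=
  (ζ ^ 14 * (dd hn aux)⁻¹ ^ T) • LP (List.replicate T hn)

/-- The polygons with two vertices whose rows differ by more than `T`. -/
def tall (T : ℕ) : Set (List V) := {γ | γ ∈ polys ∧ ∃ u ∈ γ, ∃ v ∈ γ, v.k + T < u.k}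

/-- polygons in a window: rows `-r ≤ k < T - r`, columns `-N ≤ j` -/
def win (T r N : ℕ) : Set (List V) :=
  {γ | γ ∈ polys ∧ ∀ v ∈ γ, -(r : ℤ) ≤ v.k ∧ v.k + r < T ∧ -(N : ℤ) ≤ v.j}

/-- output of the algebraic part -/
def StmtAlgP : Prop := ∀ T : ℕ, ∃ (ψ : Vec) (Pl : ℂ[X]), Supp T ψ ∧ HasCh T 0 ψ ∧ Ch T ψ = ψ ∧
  Q T ψ = 0 ∧ (ψ ≠ 0 ∨ Pl ≠ 0) ∧ FE T Pl ∧ Pl.coeff 0 = ψ zer ∧
  Pl.eval (ζ ^ 3) = Pl.coeff 0 * (2 * c18 * ζ ^ 3) ^ T ∧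
  LH T ψ * Pl.eval (ζ ^ 3) = Pl.coeff 0 * ((Complex.I - 1 / 2) * T * Pl.eval (ζ ^ 3) -
    Complex.I * ζ ^ 3 * Pl.derivative.eval (ζ ^ 3))

/-- the normalised solution of the functional equation -/
structure Hyp (T : ℕ) (Pl : ℂ[X]) : Prop where
  fe : FE T Pl
  real : ∀ i, (Pl.coeff i).im = 0
  one : Pl.coeff 0 = 1
  val : Pl.eval (ζ ^ 3) = (2 * c18 * ζ ^ 3) ^ T

end Pool.Agent.Lib.MP_4960b8_pr.PT
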